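import Pool.Agent.DIL.Dil
import Pool.Agent.GML.Stmts

/-!
# Compact surfaces in the dilated tube (MP_db3ab1_ag, DIS 4.2 and 4.3)
-/

set_option autoImplicit false

open MvPolynomial IsLocalRing

namespace Pool.Agent.DIL

noncomputable section

section growth

/-- a cubic polynomial growth implies the growth condition of `DXA.exists_surface` -/
theorem growth_of_cubic {ρ : ℕ → ℕ} {δ C : ℚ} (hδ : 0 ≤ δ)
    (h : ∀ m : ℕ, |(ρ m : ℚ) - δ * m ^ 3 / 6| ≤ C * (m + 1) ^ 2) (e : ℕ) :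
    ∃ D : ℕ, ∀ m, ρ (m + e) ≤ ρ m + D * (m + e + 1) ^ 2 := by
  have hC : 0 ≤ C := by
    have := (abs_nonneg _).trans (h 0)
    simpa using this
  obtain ⟨D, hD⟩ := exists_nat_ge (δ * e + 2 * C)
  refine ⟨D, fun m => ?_⟩
  have h1 := (abs_le.1 (h (m + e))).2
  have h2 := (abs_le.1 (h m)).1
  have h3 : (ρ (m + e) : ℚ) ≤ ρ m + D * (m + e + 1) ^ 2 := by
    have hm : (0 : ℚ) ≤ m := Nat.cast_nonneg m
    have he : (0 : ℚ) ≤ e := Nat.cast_nonneg e
    have h4 : (δ * e + 2 * C) * ((m : ℚ) + e + 1) ^ 2 ≤ D * (m + e + 1) ^ 2 :=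
      mul_le_mul_of_nonneg_right hD (by positivity)
    have h5 : δ * ((m : ℚ) + e) ^ 3 / 6 - δ * m ^ 3 / 6 ≤ δ * e * (m + e + 1) ^ 2 := by
      have : ((m : ℚ) + e) ^ 3 - m ^ 3 ≤ 6 * (e * (m + e + 1) ^ 2) := by
        nlinarith [mul_nonneg hm he, mul_nonneg hm hm, mul_nonneg he he,
          mul_nonneg (mul_nonneg hm he) he, mul_nonneg (mul_nonneg hm hm) he,
          mul_nonneg (mul_nonneg he he) he]
      nlinarith [mul_le_mul_of_nonneg_left this hδ]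
    have h6 : C * ((m : ℚ) + 1) ^ 2 ≤ C * (m + e + 1) ^ 2 := by
      apply mul_le_mul_of_nonneg_left _ hC
      apply pow_le_pow_left₀ (by positivity)
      linarith
    push_cast at h1
    nlinarith
  exact_mod_cast h3

/-- comparison of cubic growths -/
theorem exists_lt_of_cubic {a : ℤ → ℕ} {ρ : ℕ → ℕ} {θ δ C C' : ℚ} (hθδ : θ < δ) (hθ : 0 ≤ θ)
    (ha : ∀ s : ℕ, |(a s : ℚ) - θ * s ^ 3 / 6| ≤ C * (s + 1) ^ 2)
    (h : ∀ m : ℕ, |(ρ m : ℚ) - δ * m ^ 3 / 6| ≤ C' * (m + 1) ^ 2) (s : ℤ) :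
    ∃ m : ℕ, a (s + m) < ρ m := by
  have hC : 0 ≤ C := by
    have := (abs_nonneg _).trans (ha 0)
    simpa using this
  have hC' : 0 ≤ C' := by
    have := (abs_nonneg _).trans (h 0)
    simpa using this
  set k : ℕ := s.natAbs with hk
  set M : ℚ := θ * (3 * k + 3 * k ^ 2 + k ^ 3) / 6 + C * (k + 2) ^ 2 + 4 * C' with hM
  obtain ⟨m₀, hm₀⟩ := exists_nat_gt (6 * M / (δ - θ))
  set m : ℕ := m₀ + k + 1 with hm
  refine ⟨m, ?_⟩
  obtain ⟨n, hn⟩ : ∃ n : ℕ, (n : ℤ) = s + m := ⟨(s + m).toNat, Int.toNat_of_nonneg (by omega)⟩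
  have hnm : n ≤ m + k := by omega
  rw [← hn]
  have h1 := (abs_le.1 (ha n)).2
  have h2 := (abs_le.1 (h m)).1
  have hmq : (1 : ℚ) ≤ m := by
    rw [hm]
    push_cast
    have : (0 : ℚ) ≤ m₀ := Nat.cast_nonneg _
    have : (0 : ℚ) ≤ k := Nat.cast_nonneg _
    linarith
  have hkq : (0 : ℚ) ≤ k := Nat.cast_nonneg _
  have hnq : (n : ℚ) ≤ m + k := by exact_mod_cast hnm
  have hn0 : (0 : ℚ) ≤ n := Nat.cast_nonneg _
  have h3 : (n : ℚ) ^ 3 ≤ m ^ 3 + (3 * k + 3 * k ^ 2 + k ^ 3) * m ^ 2 := by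
    calc (n : ℚ) ^ 3 ≤ (m + k) ^ 3 := pow_le_pow_left₀ hn0 hnq 3
      _ = m ^ 3 + (3 * k * m ^ 2 + 3 * k ^ 2 * m + k ^ 3) := by ring
      _ ≤ m ^ 3 + (3 * k + 3 * k ^ 2 + k ^ 3) * m ^ 2 := by
        have e1 : (m : ℚ) ≤ m ^ 2 := by nlinarith
        have e2 : (1 : ℚ) ≤ m ^ 2 := by nlinarith
        have e3 : 3 * (k : ℚ) ^ 2 * m ≤ 3 * k ^ 2 * m ^ 2 :=
          mul_le_mul_of_nonneg_left e1 (by positivity)
        have e4 : (k : ℚ) ^ 3 * 1 ≤ k ^ 3 * m ^ 2 := mul_le_mul_of_nonneg_left e2 (by positivity)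
        nlinarith
  have h4 : ((n : ℚ) + 1) ^ 2 ≤ (k + 2) ^ 2 * m ^ 2 := by
    have : ((n : ℚ) + 1) ≤ (k + 2) * m := by nlinarith
    calc ((n : ℚ) + 1) ^ 2 ≤ ((k + 2) * m) ^ 2 := pow_le_pow_left₀ (by positivity) this 2
      _ = _ := by ring
  have h5 : ((m : ℚ) + 1) ^ 2 ≤ 4 * m ^ 2 := by nlinarith
  have hd : 0 < δ - θ := by linarith
  have h6 : 6 * M < (δ - θ) * m := by
    have : 6 * M / (δ - θ) < m := by
      refine lt_of_lt_of_le hm₀ ?_
      rw [hm]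
      push_cast
      linarith
    rw [div_lt_iff₀ hd] at this
    linarith
  have hm2 : (0 : ℚ) < m ^ 2 := by positivity
  have h7 : 6 * M * m ^ 2 < (δ - θ) * m * m ^ 2 := mul_lt_mul_of_pos_right h6 hm2
  have h8 : (a n : ℚ) ≤ θ * (m ^ 3 + (3 * k + 3 * k ^ 2 + k ^ 3) * m ^ 2) / 6 +
      C * ((k + 2) ^ 2 * m ^ 2) := by
    have e1 := mul_le_mul_of_nonneg_left h3 hθ
    have e2 := mul_le_mul_of_nonneg_left h4 hC
    linarith
  have h9 : δ * (m : ℚ) ^ 3 / 6 - C' * (4 * m ^ 2) ≤ ρ m := by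
    have e2 := mul_le_mul_of_nonneg_left h5 hC'
    linarith
  have h10 : (a n : ℚ) < ρ m := by
    have e1 : θ * (m ^ 3 + (3 * k + 3 * k ^ 2 + k ^ 3) * m ^ 2) / 6 +
        C * ((k + 2) ^ 2 * m ^ 2) + C' * (4 * (m : ℚ) ^ 2) = θ * m ^ 3 / 6 + M * m ^ 2 := by
      rw [hM]
      ring
    nlinarith
  exact_mod_cast h10

end growth

section lin

theorem exists_rel {κ M : Type*} [Field κ] [AddCommGroup M] [Module κ M] (P : Submodule κ M)
    (hfin : Module.Finite κ P) (N : ℕ) (hN : Module.finrank κ P < N) (v : Fin N → M)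
    (hv : ∀ i, v i ∈ P) : ∃ g : Fin N → κ, ∑ i, g i • v i = 0 ∧ ∃ i, g i ≠ 0 := by
  let ψ : Fin N → P := fun i => ⟨v i, hv i⟩
  have h1 : ¬ LinearIndependent κ ψ := by
    intro h
    have h2 := h.fintype_card_le_finrank
    rw [Fintype.card_fin] at h2
    exact absurd hN (not_lt.2 h2)
  obtain ⟨g, hg, hi⟩ := Fintype.not_linearIndependent_iff.1 h1
  refine ⟨g, ?_, hi⟩
  have h3 := congrArg P.subtype hg
  rw [map_sum, map_zero] at h3
  exact h3

end lin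

section redF

variable {V κ : Type} [CommRing V] [CommRing κ] {σ : V →+* κ} {t : V} {r : ℕ}
  {D : GML.GMod V r} {W : GML.GMod κ r} (R : GML.Red σ t D W)

include R in
theorem map_sigma_t : σ t = 0 := by
  have : t ∈ RingHom.ker σ := by
    rw [R.kerσ]
    exact Ideal.mem_span_singleton_self t
  exact this

theorem redF_wd (φ : D.M →ₗ[MvPolynomial (Fin r) V] MvPolynomial (Fin r) V) {y y' : D.M}
    (h : R.q y = R.q y') : MvPolynomial.map σ (φ y) = MvPolynomial.map σ (φ y') := by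
  have h1 : R.q (y - y') = 0 := by rw [map_sub, h, sub_self]
  obtain ⟨z, hz⟩ := (R.ker _).1 h1
  have h2 : y = y' + t • z := by rw [← hz]; abel
  have h3 : φ (t • z) = C t * φ z := by
    have e : t • z = (C t : MvPolynomial (Fin r) V) • z := by
      rw [← algebraMap_smul (MvPolynomial (Fin r) V) t z]
      rfl
    rw [e, map_smul, smul_eq_mul]
  rw [h2, map_add, map_add, h3, map_mul, map_C, map_sigma_t R, C_0, zero_mul, add_zero]

/-- the reduction of functionals -/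
def redF (φ : D.M →ₗ[MvPolynomial (Fin r) V] MvPolynomial (Fin r) V) :
    W.M →ₗ[MvPolynomial (Fin r) κ] MvPolynomial (Fin r) κ where
  toFun w := MvPolynomial.map σ (φ (Function.surjInv R.surj w))
  map_add' := by
    intro w w'
    rw [← map_add, ← map_add]
    apply redF_wd R
    rw [Function.surjInv_eq R.surj, map_add, Function.surjInv_eq R.surj,
      Function.surjInv_eq R.surj]
  map_smul' := by
    intro p w
    obtain ⟨q, rfl⟩ := MvPolynomial.map_surjective σ R.surjσ p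
    rw [RingHom.id_apply, smul_eq_mul, ← map_mul, ← smul_eq_mul, ← map_smul]
    apply redF_wd R
    rw [Function.surjInv_eq R.surj, R.smul, Function.surjInv_eq R.surj]

theorem redF_q (φ : D.M →ₗ[MvPolynomial (Fin r) V] MvPolynomial (Fin r) V) (y : D.M) :
    redF R φ (R.q y) = MvPolynomial.map σ (φ y) := by
  apply redF_wd R
  rw [Function.surjInv_eq R.surj]

theorem dep_gen {V κ : Type} [CommRing V] [Field κ] {σ : V →+* κ} {t : V}
    {D : GML.GMod V 3} {W : GML.GMod κ 3} (R : GML.Red σ t D W) {s : ℤ} (N : ℕ)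
    (hfin : Module.Finite κ (GML.Om W s)) (hN : Module.finrank κ (GML.Om W s) < N)
    (φ : Fin N → (D.M →ₗ[MvPolynomial (Fin 3) V] MvPolynomial (Fin 3) V))
    (hφ : ∀ i, redF R (φ i) ∈ GML.Om W s) :
    ∃ g : Fin N → κ, (∃ i, g i ≠ 0) ∧ ∀ y, ∑ i, C (g i) * MvPolynomial.map σ (φ i y) = 0 := by
  obtain ⟨g, hg, hi⟩ := exists_rel (GML.Om W s) hfin N hN (fun i => redF R (φ i)) hφ
  refine ⟨g, hi, fun y => ?_⟩
  have h3 := LinearMap.congr_fun hg (R.q y)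
  rw [LinearMap.sum_apply, LinearMap.zero_apply] at h3
  rw [← h3]
  refine Finset.sum_congr rfl fun i _ => ?_
  have h4 : (g i • redF R (φ i)) (R.q y) = g i • (redF R (φ i) (R.q y)) := rfl
  rw [h4, redF_q, smul_eq_C_mul]

end redF

section main

variable {V κ : Type} [CommRing V] [Field κ] {σ : V →+* κ} {ϖ : V} {hr : Res σ ϖ} {B : Type}
  [CommRing B] [Algebra V B] {ℬ : ℕ → Submodule V B} [GradedAlgebra ℬ] {S : Subalgebra V B}
  {I : Ideal S} {h : Fin 3 → S} {a b c : ℕ} {γ : Fin 3 → S} {Q : Type} {x f : Q → S}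
  (X : In hr ℬ S I h a b c γ x f)

instance algDd : Algebra (MvPolynomial (Fin (2 + 1)) V) (Dd X) :=
  inferInstanceAs (Algebra (MvPolynomial (Fin 3) V) (Dd X))

instance towDd : IsScalarTower V (MvPolynomial (Fin (2 + 1)) V) (Dd X) :=
  inferInstanceAs (IsScalarTower V (MvPolynomial (Fin 3) V) (Dd X))

theorem om_iff (s : ℤ)
    (φ : Dd X →ₗ[MvPolynomial (Fin (2 + 1)) V] MvPolynomial (Fin (2 + 1)) V) :
    φ ∈ DXA.Om (dgr X) s ↔
      (φ : (dmod X).M →ₗ[MvPolynomial (Fin 3) V] MvPolynomial (Fin 3) V) ∈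
        GML.Om (dmod X) s :=
  (mem_om_iff (n := 2) (dgr X) (dX X) s φ).symm

theorem redF_mem {s : ℤ} {φ : (dmod X).M →ₗ[MvPolynomial (Fin 3) V] MvPolynomial (Fin 3) V}
    (hφ : φ ∈ GML.Om (dmod X) s) : redF (dred X) φ ∈ GML.Om (wdmod X) s := by
  intro n w hw
  rcases mem_ext.1 hw with ⟨m, rfl, y, hy, rfl⟩ | rfl
  · have h1 : redF (dred X) φ (mk hr (Dd X) y) = MvPolynomial.map σ (φ y) := redF_q (dred X) φ y
    show redF (dred X) φ (mk hr (Dd X) y) ∈ _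
    rw [h1, mem_Agr]
    have h2 := hφ (m : ℤ) y (mem_ext.2 (Or.inl ⟨m, rfl, hy⟩))
    rw [mem_Agr] at h2
    intro e he
    rw [coeff_map] at he
    apply h2 e
    intro h0
    rw [h0, map_zero] at he
    exact he rfl
  · have h1 : redF (dred X) φ (0 : (wdmod X).M) = 0 := map_zero _
    rw [h1]
    exact Submodule.zero_mem _

theorem coeff_dvd (hr : Res σ ϖ) {F : MvPolynomial (Fin 3) V} (hF : MvPolynomial.map σ F = 0)
    (d : Fin 3 →₀ ℕ) : ϖ ∣ coeff d F := by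
  have h1 : σ (coeff d F) = 0 := by
    rw [← coeff_map, hF, coeff_zero]
  rw [← RingHom.mem_ker, hr.ker, Ideal.mem_span_singleton] at h1
  exact h1

/-- more functionals than the rank of the reduction are dependent modulo `ϖ` -/
theorem dep [IsLocalRing V] {s : ℤ} (N : ℕ)
    (hfin : Module.Finite κ (GML.Om (wdmod X) s)) (hN : Module.finrank κ (GML.Om (wdmod X) s) < N)
    (φ : Fin N → ((dmod X).M →ₗ[MvPolynomial (Fin 3) V] MvPolynomial (Fin 3) V))
    (hφ : ∀ i, φ i ∈ GML.Om (dmod X) s) :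
    ∃ c : Fin N → V, (∃ i, IsUnit (c i)) ∧ ∀ y d, ϖ ∣ coeff d (∑ i, C (c i) * φ i y) := by
  obtain ⟨g, ⟨i, hi⟩, hg⟩ := dep_gen (dred X) N hfin hN φ (fun i => redF_mem X (hφ i))
  choose c hc using fun i => hr.surj (g i)
  refine ⟨c, ⟨i, ?_⟩, ?_⟩
  · by_contra hn
    apply hi
    rw [← hc i]
    have h2 : c i ∈ RingHom.ker σ := by
      have h3 : RingHom.ker σ = maximalIdeal V :=
        IsLocalRing.eq_maximalIdeal (RingHom.ker_isMaximal_of_surjective σ hr.surj)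
      rw [h3, mem_maximalIdeal]
      exact hn
    exact h2
  · intro y d
    apply coeff_dvd hr
    rw [map_sum, ← hg y]
    refine Finset.sum_congr rfl fun i _ => ?_
    rw [map_mul, map_C, hc i]

/-- the rank of the homogeneous pieces of `D` is the rank of those of `B` -/
theorem rho1 [IsDomain V] {ρ : ℕ → ℕ} (hρ : ∀ m, Module.rank V (ℬ m) = ρ m) (m : ℕ) (ι : Type)
    [Fintype ι] (y : ι → Dd X) (hy : ∀ i, y i ∈ dgr X m) (hi : DXA.Ind V ⊥ y) :
    Fintype.card ι ≤ ρ m := by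
  classical
  have h1 : LinearIndependent V (fun i => (⟨emb X (y i), hy i⟩ : ℬ m)) := by
    rw [Fintype.linearIndependent_iff]
    intro g hg i
    have h2 : ∑ i, g i • y i = 0 := by
      apply emb_inj X
      rw [map_zero, map_sum]
      have h3 := congrArg (ℬ m).subtype hg
      rw [map_sum, map_zero] at h3
      rw [← h3]
      exact Finset.sum_congr rfl fun i _ => map_smul (emb X) (g i) (y i)
    have h4 := hi g (by rw [h2]; exact Ideal.zero_mem _)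
    exact congrFun h4 i
  have h2 := h1.cardinal_le_rank
  rw [hρ m, Cardinal.mk_fintype] at h2
  exact_mod_cast h2

theorem rho2 [IsDomain V] [IsDomain B] (hloc : ∀ y : B, ∃ N : ℕ, algebraMap V B ϖ ^ N * y ∈ S)
    {ρ : ℕ → ℕ} (hρ : ∀ m, Module.rank V (ℬ m) = ρ m) (m : ℕ) :
    ∃ y : Fin (ρ m) → Dd X, (∀ i, y i ∈ dgr X m) ∧ DXA.Ind V ⊥ y := by
  classical
  obtain ⟨v, hv⟩ := exists_linearIndependent_of_le_rank (hρ m).ge
  choose N hN using fun i => hloc (v i : B)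
  set M := ∑ i, N i with hM
  have hM' : ∀ i, algebraMap V B ϖ ^ M * (v i : B) ∈ S := by
    intro i
    obtain ⟨e, he⟩ := Nat.exists_eq_add_of_le
      (Finset.single_le_sum (f := N) (fun _ _ => Nat.zero_le _) (Finset.mem_univ i))
    rw [hM, he, pow_add, mul_comm (algebraMap V B ϖ ^ N i), mul_assoc]
    refine S.mul_mem ?_ (hN i)
    rw [← map_pow]
    exact S.algebraMap_mem _
  let y : Fin (ρ m) → Dd X := fun i => ofS X ⟨_, hM' i⟩
  have hy : ∀ i, emb X (y i) = ϖ ^ M • (v i : B) := fun i => by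
    rw [Algebra.smul_def, map_pow]
    exact emb_ofS X _
  refine ⟨y, fun i => ?_, ?_⟩
  · rw [mem_dgr, hy i]
    exact Submodule.smul_mem _ _ (v i).2
  · intro g hg
    rw [Ideal.mem_bot] at hg
    have h1 : ϖ ^ M • ∑ i, g i • (v i : B) = 0 := by
      have h2 := congrArg (emb X) hg
      rw [map_sum, map_zero] at h2
      rw [← h2, Finset.smul_sum]
      refine Finset.sum_congr rfl fun i _ => ?_
      rw [map_smul, hy i, smul_comm]
    have h3 : ∑ i, g i • (v i : B) = 0 := by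
      rw [Algebra.smul_def, map_pow] at h1
      exact (mul_eq_zero.1 h1).resolve_left (pow_ne_zero _ X.unit.ne_zero)
    have h4 : ∑ i, g i • v i = 0 := by
      apply Subtype.ext
      have h5 : ((∑ i, g i • v i : ℬ m) : B) = ∑ i, g i • (v i : B) := by
        rw [← Submodule.subtype_apply, map_sum]
        rfl
      rw [h5, h3]
      rfl
    funext i
    exact Fintype.linearIndependent_iff.1 hv g h4 i

/-- the conclusion of `GML.Stmt_CNT` for the dilated tube -/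
def Cnt (X : In hr ℬ S I h a b c γ x f) [IsDomain V] : Prop :=
  (∀ s : ℤ, Module.Free V (GML.Om (dmod X) s) ∧ Module.Finite V (GML.Om (dmod X) s) ∧
    Module.Finite κ (GML.Om (wdmod X) s) ∧
    Module.finrank V (GML.Om (dmod X) s) ≤ Module.finrank κ (GML.Om (wdmod X) s)) ∧
  ∃ C : ℕ, ∀ s : ℕ,
    |(Module.finrank κ (GML.Om (wdmod X) s) : ℚ) -
      Module.finrank (MvPolynomial (Fin 3) κ) ↥(Fj X (a - 1)) * (s : ℚ) ^ 3 / (6 * b)| ≤
        C * ((s : ℚ) + 1) ^ 2 ∧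
    |(Module.finrank V (GML.Om (dmod X) s) : ℚ) -
      Module.finrank (MvPolynomial (Fin 3) κ) ↥(Fj X (a - 1)) * (s : ℚ) ^ 3 / (6 * b)| ≤
        C * ((s : ℚ) + 1) ^ 2

theorem cnt [IsDomain V] [IsDiscreteValuationRing V] [IsAdicComplete (maximalIdeal V) V]
    (hϖ : Irreducible ϖ) (h0 : GML.Stmt_CNT) : Cnt X := by
  obtain ⟨h1, -, C, h2⟩ := h0 V κ σ ϖ hϖ (dmod X) (wdmod X) (dred X) (d_nz X) a b c (gW X) (Fj X)
    (balM X)
  exact ⟨h1, C, fun s => ⟨(h2 s).1, (h2 s).2.1⟩⟩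

theorem exists_om_ne_zero [IsDomain V] (h0 : Cnt X)
    (hpos : 0 < Module.finrank (MvPolynomial (Fin 3) κ) ↥(Fj X (a - 1))) :
    ∃ s : ℕ, ∃ φ : (dmod X).M →ₗ[MvPolynomial (Fin 3) V] MvPolynomial (Fin 3) V,
      φ ∈ GML.Om (dmod X) s ∧ φ ≠ 0 := by
  obtain ⟨h1, C, h2⟩ := h0
  set r : ℕ := Module.finrank (MvPolynomial (Fin 3) κ) ↥(Fj X (a - 1)) with hr'
  have hb : (0 : ℚ) < b := by exact_mod_cast X.b_pos
  -- choose `s` large
  obtain ⟨s, hs⟩ := exists_nat_gt (24 * (C : ℚ) * b / r)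
  have hr0 : (0 : ℚ) < r := by exact_mod_cast hpos
  refine ⟨s + 1, ?_⟩
  have h3 := (abs_le.1 (h2 (s + 1)).2).1
  have h4 : 0 < Module.finrank V (GML.Om (dmod X) ((s + 1 : ℕ) : ℤ)) := by
    by_contra hn
    have h5 : Module.finrank V (GML.Om (dmod X) ((s + 1 : ℕ) : ℤ)) = 0 := by omega
    rw [h5] at h3
    push_cast at h3
    have hs0 : (0 : ℚ) ≤ s := Nat.cast_nonneg s
    have h6 : (r : ℚ) * (s + 1) ^ 3 / (6 * b) ≤ C * (s + 1 + 1) ^ 2 := by linarith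
    rw [div_le_iff₀ (by positivity)] at h6
    have h7 : 24 * (C : ℚ) * b < r * s := by
      rw [div_lt_iff₀ hr0] at hs
      linarith
    have h8 : ((s : ℚ) + 1 + 1) ^ 2 ≤ 4 * (s + 1) ^ 2 := by nlinarith
    have hC : (0 : ℚ) ≤ C := Nat.cast_nonneg C
    have h9 : (C : ℚ) * (s + 1 + 1) ^ 2 * (6 * b) ≤ 24 * C * b * (s + 1) ^ 2 := by
      have := mul_le_mul_of_nonneg_left h8 (mul_nonneg hC (by positivity : (0 : ℚ) ≤ 6 * b))
      nlinarith
    have h10 : 24 * (C : ℚ) * b * (s + 1) ^ 2 < r * (s + 1) * (s + 1) ^ 2 := by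
      apply mul_lt_mul_of_pos_right _ (by positivity)
      nlinarith
    nlinarith
  by_contra hn
  push Not at hn
  have h5 : ∀ φ : GML.Om (dmod X) ((s + 1 : ℕ) : ℤ), φ = 0 := fun φ => Subtype.ext (hn _ φ.2)
  have : Subsingleton (GML.Om (dmod X) ((s + 1 : ℕ) : ℤ)) := ⟨fun p q => by rw [h5 p, h5 q]⟩
  rw [Module.finrank_zero_of_subsingleton] at h4
  exact absurd h4 (lt_irrefl 0)

/-- **Compact surfaces in the dilated tube** (DIS 4.2). -/
theorem exists_primeD [IsDomain V] [IsDomain B] [IsDiscreteValuationRing V]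
    [IsAdicComplete (maximalIdeal V) V] (hϖ : Irreducible ϖ) (h0 : Cnt X)
    (hloc : ∀ y : B, ∃ N : ℕ, algebraMap V B ϖ ^ N * y ∈ S)
    {ρ : ℕ → ℕ} (hρ : ∀ m, Module.rank V (ℬ m) = ρ m) {δ C' : ℚ}
    (hgr : ∀ m : ℕ, |(ρ m : ℚ) - δ * m ^ 3 / 6| ≤ C' * (m + 1) ^ 2)
    (hθ : (Module.finrank (MvPolynomial (Fin 3) κ) ↥(Fj X (a - 1)) : ℚ) / b < δ)
    {s : ℤ} {φ : Dd X →ₗ[MvPolynomial (Fin (2 + 1)) V] MvPolynomial (Fin (2 + 1)) V}
    (hφ : φ ∈ DXA.Om (dgr X) s) (hφ0 : φ ≠ 0) :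
    ∃ (e : ℕ) (g : Dd X), g ∈ dgr X e ∧ DXA.act g φ ≠ 0 ∧ (DXA.ann (DXA.act g φ)).IsPrime ∧
      (DXA.ann (DXA.act g φ)).IsHomogeneous (dgr X) ∧ DXA.ann (DXA.act g φ) ≠ ⊥ ∧
      Module.Finite (MvPolynomial (Fin (2 + 1)) V) (Dd X ⧸ DXA.ann (DXA.act g φ)) ∧
      ∀ r : MvPolynomial (Fin (2 + 1)) V,
        algebraMap (MvPolynomial (Fin (2 + 1)) V) (Dd X) r ∈ DXA.ann (DXA.act g φ) → r = 0 := by
  obtain ⟨h1, C₁, h2⟩ := h0
  have hb : (0 : ℚ) < b := by exact_mod_cast X.b_pos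
  have hθ0 : (0 : ℚ) ≤ (Module.finrank (MvPolynomial (Fin 3) κ) ↥(Fj X (a - 1)) : ℚ) / b := by
    positivity
  refine DXA.exists_surface (dgr X) hϖ (dX X) ρ (rho1 X hρ) (rho2 X hloc hρ)
    (growth_of_cubic (hθ0.trans hθ.le) hgr)
    (fun s => Module.finrank κ (GML.Om (wdmod X) s)) ?_ ?_ hφ hφ0
  · intro s ψ hψ
    obtain ⟨c, hc, hd⟩ := dep X _ (h1 s).2.2.1 (Nat.lt_succ_self _) ψ
      (fun i => (om_iff X s (ψ i)).1 (hψ i))
    refine ⟨c, hc, fun y d => ?_⟩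
    have h3 : (∑ i, c i • ψ i) y = ∑ i, C (c i) * ψ i y := by
      rw [LinearMap.sum_apply]
      refine Finset.sum_congr rfl fun i _ => ?_
      rw [LinearMap.smul_apply, smul_eq_C_mul]
    rw [h3]
    exact hd y d
  · refine exists_lt_of_cubic (a := fun s => Module.finrank κ (GML.Om (wdmod X) s)) hθ hθ0
      (C := C₁) (fun s => ?_) hgr
    have h3 := (h2 s).1
    have h4 : (Module.finrank (MvPolynomial (Fin 3) κ) ↥(Fj X (a - 1)) : ℚ) / b * (s : ℚ) ^ 3 / 6 =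
        Module.finrank (MvPolynomial (Fin 3) κ) ↥(Fj X (a - 1)) * (s : ℚ) ^ 3 / (6 * b) := by
      field_simp
    rw [h4]
    exact h3

end main

section primeB

variable {V κ : Type} [CommRing V] [Field κ] {σ : V →+* κ} {ϖ : V} {hr : Res σ ϖ} {B : Type}
  [CommRing B] [Algebra V B] {ℬ : ℕ → Submodule V B} [GradedAlgebra ℬ] {S : Subalgebra V B}
  {I : Ideal S} {h : Fin 3 → S} {a b c : ℕ} {γ : Fin 3 → S} {Q : Type} {x f : Q → S}
  (X : In hr ℬ S I h a b c γ x f)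

/-- the extension to `B = D[1 / ϖ]` of an ideal of `D` -/
def exP (hloc : ∀ y : B, ∃ N : ℕ, algebraMap V B ϖ ^ N * y ∈ S) (P : Ideal (Dd X)) : Ideal B where
  carrier := {y | ∃ N : ℕ, ∃ d ∈ P, emb X d = algebraMap V B ϖ ^ N * y}
  add_mem' := by
    rintro y y' ⟨N, d, hd, h1⟩ ⟨N', d', hd', h2⟩
    refine ⟨N + N', algebraMap V (Dd X) ϖ ^ N' * d + algebraMap V (Dd X) ϖ ^ N * d',
      P.add_mem (P.mul_mem_left _ hd) (P.mul_mem_left _ hd'), ?_⟩
    rw [map_add, map_mul, map_mul, map_pow, map_pow, AlgHom.commutes, h1, h2]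
    ring
  zero_mem' := ⟨0, 0, P.zero_mem, by rw [map_zero, mul_zero]⟩
  smul_mem' := by
    rintro b y ⟨N, d, hd, h1⟩
    obtain ⟨M, hM⟩ := hloc b
    refine ⟨M + N, ofS X ⟨_, hM⟩ * d, P.mul_mem_left _ hd, ?_⟩
    rw [map_mul, h1, emb_ofS, smul_eq_mul, pow_add]
    ring

variable {X} (hloc : ∀ y : B, ∃ N : ℕ, algebraMap V B ϖ ^ N * y ∈ S) {P : Ideal (Dd X)}

theorem mem_exP {y : B} : y ∈ exP X hloc P ↔ ∃ N : ℕ, ∃ d ∈ P,
    emb X d = algebraMap V B ϖ ^ N * y := Iff.rfl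

theorem emb_mem_exP (hP : P.IsPrime) (hϖP : algebraMap V (Dd X) ϖ ∉ P) {d : Dd X} :
    emb X d ∈ exP X hloc P ↔ d ∈ P := by
  constructor
  · rintro ⟨N, e, he, h1⟩
    have h2 : e = algebraMap V (Dd X) ϖ ^ N * d := by
      apply emb_inj X
      rw [h1, map_mul, map_pow, AlgHom.commutes]
    rw [h2] at he
    rcases hP.mem_or_mem he with h3 | h3
    · exact absurd (hP.mem_of_pow_mem _ h3) hϖP
    · exact h3
  · intro hd
    exact ⟨0, d, hd, by rw [pow_zero, one_mul]⟩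

include hloc in
theorem exists_num (y : B) : ∃ N : ℕ, ∃ d : Dd X, emb X d = algebraMap V B ϖ ^ N * y := by
  obtain ⟨M, hM⟩ := hloc y
  exact ⟨M, ofS X ⟨_, hM⟩, emb_ofS X _⟩

theorem exP_prime (hP : P.IsPrime) (hϖP : algebraMap V (Dd X) ϖ ∉ P) :
    (exP X hloc P).IsPrime := by
  constructor
  · intro h1
    apply hP.ne_top
    rw [Ideal.eq_top_iff_one] at h1 ⊢
    rw [← emb_mem_exP hloc hP hϖP, map_one]
    exact h1
  · intro y y' h1
    obtain ⟨N, d, hd⟩ := exists_num (X := X) hloc y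
    obtain ⟨N', d', hd'⟩ := exists_num (X := X) hloc y'
    have h2 : emb X (d * d') ∈ exP X hloc P := by
      rw [map_mul, hd, hd']
      have : algebraMap V B ϖ ^ N * y * (algebraMap V B ϖ ^ N' * y') =
          algebraMap V B ϖ ^ (N + N') * (y * y') := by ring
      rw [this]
      exact Ideal.mul_mem_left _ _ h1
    rw [emb_mem_exP hloc hP hϖP] at h2
    rcases hP.mem_or_mem h2 with h3 | h3
    · exact Or.inl ⟨N, d, h3, hd⟩
    · exact Or.inr ⟨N', d', h3, hd'⟩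

theorem exP_hom (hP : P.IsHomogeneous (dgr X)) : (exP X hloc P).IsHomogeneous ℬ := by
  rintro n y ⟨N, d, hd, h1⟩
  refine ⟨N, cp (dgr X) n d, hP n hd, ?_⟩
  have h2 : emb X (cp (dgr X) n d) = cp ℬ n (emb X d) :=
    cp_sub (homSub_dil X.homS X.homI X.ϖ_mem) n d
  rw [h2, h1, ← map_pow, ← Algebra.smul_def, map_smul, Algebra.smul_def, map_pow]
  rfl

theorem exP_ne_bot (hP : P ≠ ⊥) : exP X hloc P ≠ ⊥ := by
  intro h1
  apply hP
  rw [eq_bot_iff]
  intro d hd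
  have h2 : emb X d ∈ exP X hloc P := ⟨0, d, hd, by rw [pow_zero, one_mul]⟩
  rw [h1, Ideal.mem_bot] at h2
  rw [Ideal.mem_bot]
  apply emb_inj X
  rw [h2, map_zero]

/-- the homomorphism `V[h_0, h_1, h_2] → B / Q` -/
def hmap (h : Fin 3 → S) (Q : Ideal B) : MvPolynomial (Fin 3) V →+* B ⧸ Q :=
  (Ideal.Quotient.mk Q).comp ((S.val : S →ₐ[V] B).toRingHom.comp
    (aeval h : MvPolynomial (Fin 3) V →ₐ[V] S).toRingHom)

theorem exP_int (hfin : Module.Finite (MvPolynomial (Fin 3) V) (Dd X ⧸ P)) (d : Dd X) :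
    (hmap h (exP X hloc P)).IsIntegralElem (Ideal.Quotient.mk _ (emb X d)) := by
  obtain ⟨p, hp, hpd⟩ := Algebra.IsIntegral.isIntegral (R := MvPolynomial (Fin 3) V)
    (Ideal.Quotient.mk P d)
  refine ⟨p, hp, ?_⟩
  have h1 : Polynomial.eval₂ (algebraMap (MvPolynomial (Fin 3) V) (Dd X)) d p ∈ P := by
    rw [← Ideal.Quotient.eq_zero_iff_mem, Polynomial.hom_eval₂]
    exact hpd
  have h2 : emb X (Polynomial.eval₂ (algebraMap (MvPolynomial (Fin 3) V) (Dd X)) d p) ∈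
      exP X hloc P := ⟨0, _, h1, by rw [pow_zero, one_mul]⟩
  have h3 : (emb X : Dd X →+* B) (Polynomial.eval₂ (algebraMap (MvPolynomial (Fin 3) V) (Dd X)) d p)
      = Polynomial.eval₂ ((emb X : Dd X →+* B).comp
        (algebraMap (MvPolynomial (Fin 3) V) (Dd X))) (emb X d) p := Polynomial.hom_eval₂ _ _ _ _
  have h4 : Polynomial.eval₂ (hmap h (exP X hloc P)) (Ideal.Quotient.mk _ (emb X d)) p =
      Ideal.Quotient.mk (exP X hloc P) (Polynomial.eval₂ ((emb X : Dd X →+* B).comp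
        (algebraMap (MvPolynomial (Fin 3) V) (Dd X))) (emb X d) p) := by
    rw [Polynomial.hom_eval₂]
    congr 1
    refine RingHom.ext fun q => ?_
    show Ideal.Quotient.mk _ ((aeval h q : S) : B) = Ideal.Quotient.mk _ (emb X
      (algebraMap (MvPolynomial (Fin 3) V) (Dd X) q))
    rw [algebraMap_Dd, emb_ofS]
  rw [h4, Ideal.Quotient.eq_zero_iff_mem, ← h3]
  exact h2

variable (X) in
/-- **The exact surface** (DIS 4.3): a homogeneous prime ideal of `B`, not zero, which does not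
meet `V[h_0, h_1, h_2]`, such that all elements of `D` are integral over `V[h_0, h_1, h_2]`
modulo the ideal. -/
theorem exists_primeB [IsDomain V] [IsDomain B] [IsDiscreteValuationRing V]
    [IsAdicComplete (maximalIdeal V) V] (hϖ : Irreducible ϖ) (h0 : Cnt X)
    (hloc : ∀ y : B, ∃ N : ℕ, algebraMap V B ϖ ^ N * y ∈ S)
    {ρ : ℕ → ℕ} (hρ : ∀ m, Module.rank V (ℬ m) = ρ m) {δ C' : ℚ}
    (hgr : ∀ m : ℕ, |(ρ m : ℚ) - δ * m ^ 3 / 6| ≤ C' * (m + 1) ^ 2)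
    (hθ : (Module.finrank (MvPolynomial (Fin 3) κ) ↥(Fj X (a - 1)) : ℚ) / b < δ)
    (hpos : 0 < Module.finrank (MvPolynomial (Fin 3) κ) ↥(Fj X (a - 1))) :
    ∃ Q : Ideal B, Q.IsPrime ∧ Q.IsHomogeneous ℬ ∧ Q ≠ ⊥ ∧
      (∀ r : MvPolynomial (Fin 3) V, ((aeval h r : S) : B) ∈ Q → r = 0) ∧
      ∀ d : Dd X, (hmap h Q).IsIntegralElem (Ideal.Quotient.mk Q (emb X d)) := by
  obtain ⟨s, φ, hφ, hφ0⟩ := exists_om_ne_zero X h0 hpos
  obtain ⟨e, g, -, -, hP, hhom, hne, hfin, htf⟩ := exists_primeD X hϖ h0 hloc hρ hgr hθ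
    ((om_iff X s φ).2 hφ) hφ0
  set P : Ideal (Dd X) := DXA.ann (DXA.act g φ) with hPdef
  have hϖP : algebraMap V (Dd X) ϖ ∉ P := by
    intro h1
    have h2 : algebraMap V (Dd X) ϖ = algebraMap (MvPolynomial (Fin (2 + 1)) V) (Dd X) (C ϖ) :=
      IsScalarTower.algebraMap_apply V (MvPolynomial (Fin (2 + 1)) V) (Dd X) ϖ
    rw [h2] at h1
    have h3 := htf _ h1
    rw [C_eq_zero] at h3
    exact hϖ.ne_zero h3
  refine ⟨exP X hloc P, exP_prime hloc hP hϖP, exP_hom hloc hhom, exP_ne_bot hloc hne, ?_,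
    fun d => exP_int hloc hfin d⟩
  intro r hr
  apply htf
  have h1 : emb X (algebraMap (MvPolynomial (Fin 3) V) (Dd X) r) ∈ exP X hloc P := by
    rw [algebraMap_Dd, emb_ofS]
    exact hr
  exact (emb_mem_exP hloc hP hϖP).1 h1

end primeB

end

end Pool.Agent.DIL
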