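import Pool.Agent.TFR.DZN

/-!
# Exact primes from prime ideals of the ring of the dilated tube (MP_db3ab1_ag, DIS 4.3)
-/

set_option autoImplicit false

noncomputable section

namespace Pool.Agent.DIL

open scoped Classical
open MvPolynomial Pool.Agent.LibDb3ab1 Pool.Agent.DC Pool.Agent.FRM Pool.Agent.TFR

section

variable {K : Type} [Field K] (V : ValuationSubring K) {N : ℕ}
  (Q : Ideal (MvPolynomial (Fin (N + 1)) K)) {r : ℕ}
  (h : Fin r → MvPolynomial (Fin (N + 1)) V)

/-- the linear forms over the field -/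
abbrev hK (i : Fin r) : MvPolynomial (Fin (N + 1)) K := MvPolynomial.map V.subtype (h i)

theorem kmap_map (F : MvPolynomial (Fin r) V) :
    kmap Q (hK V h) (MvPolynomial.map V.subtype F) = zmap V Q h F := by
  have h1 : (kmap Q (hK V h)).comp (MvPolynomial.map V.subtype) = zmap V Q h := by
    apply MvPolynomial.ringHom_ext
    · intro v
      simp [kmap, zmap, vmap]
    · intro i
      simp [kmap, zmap, vmap]
  exact RingHom.congr_fun h1 F

/-- clearing denominators -/
theorem exists_clear (F : MvPolynomial (Fin r) K) :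
    ∃ v : V, v ≠ 0 ∧ ∃ G : MvPolynomial (Fin r) V, MvPolynomial.map V.subtype G = C (v : K) * F := by
  induction F using MvPolynomial.induction_on with
  | C a =>
    obtain ⟨x, y, hy, rfl⟩ := IsFractionRing.div_surjective (A := V) a
    have hy0 : y ≠ 0 := nonZeroDivisors.ne_zero hy
    refine ⟨y, hy0, C x, ?_⟩
    rw [map_C, ← C_mul]
    congr 1
    have h1 : (algebraMap V K y) ≠ 0 := by
      rw [Ne, map_eq_zero_iff _ (IsFractionRing.injective V K)]
      exact hy0
    show (x : K) = (y : K) * (algebraMap V K x / algebraMap V K y)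
    field_simp
    show algebraMap V K x * algebraMap V K y = algebraMap V K y * algebraMap V K x
    ring
  | add p q hp hq =>
    obtain ⟨v, hv, G, hG⟩ := hp
    obtain ⟨v', hv', G', hG'⟩ := hq
    refine ⟨v * v', mul_ne_zero hv hv', C v' * G + C v * G', ?_⟩
    rw [map_add, map_mul, map_mul, hG, hG', map_C, map_C]
    push_cast
    rw [C_mul]
    show C (v' : K) * (C (v : K) * p) + C (v : K) * (C (v' : K) * q) = _
    ring
  | mul_X p i hp =>
    obtain ⟨v, hv, G, hG⟩ := hp
    exact ⟨v, hv, G * X i, by rw [map_mul, hG, map_X]; ring⟩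

theorem kmap_inj (hinj : ∀ F : MvPolynomial (Fin r) V, zmap V Q h F = 0 → F = 0) :
    Function.Injective (kmap Q (hK V h)) := by
  rw [injective_iff_map_eq_zero]
  intro F hF
  obtain ⟨v, hv, G, hG⟩ := exists_clear V F
  have h1 : zmap V Q h G = 0 := by
    rw [← kmap_map, hG, map_mul, hF, mul_zero]
  have h2 := hinj G h1
  rw [h2, map_zero] at hG
  have h3 : (C (v : K) : MvPolynomial (Fin r) K) ≠ 0 := by
    rw [Ne, C_eq_zero]
    exact fun h => hv (Subtype.ext h)
  exact (mul_eq_zero.1 hG.symm).resolve_left h3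

theorem dim_of [Q.IsPrime] (hinj : ∀ F : MvPolynomial (Fin r) V, zmap V Q h F = 0 → F = 0)
    (hint : ∀ i, (zmap V Q h).IsIntegralElem (Ideal.Quotient.mk Q (X i))) :
    ringKrullDim (MvPolynomial (Fin (N + 1)) K ⧸ Q) = r := by
  have h1 : (kmap Q (hK V h)).IsIntegral := by
    apply DZN_.kint
    intro i
    obtain ⟨p, hp, h2⟩ := hint i
    refine ⟨p.map (MvPolynomial.map V.subtype), hp.map _, ?_⟩
    rw [Polynomial.eval₂_map]
    have h3 : (kmap Q (hK V h)).comp (MvPolynomial.map V.subtype) = zmap V Q h :=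
      RingHom.ext fun F => kmap_map V Q h F
    rw [h3, h2]
  let _ : Algebra (MvPolynomial (Fin r) K) (MvPolynomial (Fin (N + 1)) K ⧸ Q) :=
    (kmap Q (hK V h)).toAlgebra
  have h2 : Algebra.IsIntegral (MvPolynomial (Fin r) K) (MvPolynomial (Fin (N + 1)) K ⧸ Q) := ⟨h1⟩
  have h3 := ringKrullDim_eq_of_integral (A := MvPolynomial (Fin r) K)
    (B := MvPolynomial (Fin (N + 1)) K ⧸ Q) (kmap_inj V Q h hinj)
  rw [← h3, MvPolynomial.ringKrullDim_of_isNoetherianRing, ringKrullDim_eq_zero_of_field, zero_add,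
    Nat.card_eq_fintype_card, Fintype.card_fin]

/-- **Exact primes from integrality over `V[h_0, h_1, h_2]`.** -/
theorem exactPrime {p N : ℕ} [Fact p.Prime] {J : Type} {E : Eqs p N J} {d : ℕ}
    (M : CompleteModel E (d + 1)) (W : Set (Fin (N + 1))) (ϖ : M.V) (h0 : ϖ ≠ 0)
    (hu : ¬IsUnit ϖ) (Q : Ideal (MvPolynomial (Fin (N + 1)) M.K)) [Q.IsPrime] (hom : Homog Q)
    (hle : M.P ≤ Q) (h : Fin (d + 1) → MvPolynomial (Fin (N + 1)) M.V)
    (hinj : ∀ F : MvPolynomial (Fin (d + 1)) M.V, zmap M.V Q h F = 0 → F = 0)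
    (hint : ∀ i, (zmap M.V Q h).IsIntegralElem (Ideal.Quotient.mk Q (X i)))
    (hex : ∀ c ∈ W, (zmap M.V Q h).IsIntegralElem
      (Ideal.Quotient.mk Q (C ((ϖ : M.K)⁻¹) * X c))) : Nonempty (ExactPrime M W) := by
  refine ⟨{ ϖ := ϖ, ϖ_ne := h0, ϖ_nonunit := hu, Q := Q, prime := inferInstance, hom := hom,
            le := hle, dim := dim_of M.V Q h hinj hint, exact := fun c hc => ?_ }⟩
  obtain ⟨q, hq, h1⟩ := hex c hc
  refine ⟨q.map (aeval h).toRingHom, hq.map _, ?_⟩
  rw [Polynomial.eval₂_map]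
  exact h1

end

end Pool.Agent.DIL
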