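import Pool.Agent.DIL.Num
import Pool.Agent.DIL.ExP
import Pool.Agent.TFR.Count

/-!
# Existence of the exact surface (MP_db3ab1_ag, DIS 4.1, 4.2, 4.3)
-/

set_option autoImplicit false

noncomputable section

namespace Pool.Agent.DIL

open scoped Classical
open MvPolynomial Pool.Agent.FRM Pool.Agent.XV Pool.Agent.GML Pool.Agent.XB

section gen

variable {K : Type} [Field K] (V : ValuationSubring K) {B : Type} [CommRing B] [Algebra K B]
  (φ : MvPolynomial (Fin (XV.N + 1)) K →ₐ[K] B)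

/-- every element of `B` has a multiple in the integral model -/
theorem hloc_of {ϖ : V} (hV : IsDiscreteValuationRing V) (hϖ : Irreducible ϖ)
    (hsurj : Function.Surjective φ) (y : B) : ∃ n : ℕ, algebraMap V B ϖ ^ n * y ∈ Sb V φ := by
  obtain ⟨F, rfl⟩ := hsurj y
  obtain ⟨v, hv, G, hG⟩ := exists_clear V F
  obtain ⟨n, u, hu⟩ := IsDiscreteValuationRing.eq_unit_mul_pow_irreducible hv hϖ
  refine ⟨n, ?_⟩
  have h1 : algebraMap V B ϖ ^ n * φ F = algebraMap V B ((u⁻¹ : Vˣ) : V) * vB V φ G := by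
    have h2 : vB V φ G = algebraMap V B v * φ F := by
      show φ (MvPolynomial.map V.subtype G) = _
      rw [hG, map_mul]
      congr 1
      exact φ.commutes _
    rw [h2, ← mul_assoc, ← map_mul, hu, ← map_pow, ← mul_assoc]
    simp
  rw [h1]
  refine (Sb V φ).mul_mem ((Sb V φ).algebraMap_mem _) ?_
  exact RingHom.isIntegralElem_map _

/-- `V`-ranks are `K`-dimensions -/
theorem rank_V {ℬ : ℕ → Submodule K B} (m : ℕ) (hfin : Module.Finite K (ℬ m)) :
    Module.rank V ((ℬ m).restrictScalars V) = Module.finrank K (ℬ m) := by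
  have h1 : Module.rank K (ℬ m) = Module.rank V (ℬ m) :=
    IsLocalization.rank_eq K (nonZeroDivisors V) le_rfl
  rw [Module.finrank_eq_rank, h1]
  rfl

end gen

section comp

variable {K : Type} [Field K] (V : ValuationSubring K) {P : Ideal (MvPolynomial (Fin (XV.N + 1)) K)}

/-- homogeneous components in the quotient -/
theorem cp_mk (gV : GradedAlgebra fun n => (Bgr P n).restrictScalars V)
    (G : MvPolynomial (Fin (XV.N + 1)) K) (n : ℕ) :
    cp (fun n => (Bgr P n).restrictScalars V) n (Ideal.Quotient.mk P G) =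
      Ideal.Quotient.mk P (homogeneousComponent n G) := by
  have hmem : ∀ i, Ideal.Quotient.mk P (homogeneousComponent i G) ∈
      (Bgr P i).restrictScalars V := fun i =>
    ⟨homogeneousComponent i G, homogeneousComponent_isHomogeneous i G, rfl⟩
  have h1 : Ideal.Quotient.mk P G = ∑ i ∈ Finset.range (G.totalDegree + 1),
      Ideal.Quotient.mk P (homogeneousComponent i G) := by
    rw [← map_sum, sum_homogeneousComponent]
  rw [h1, map_sum]
  by_cases hn : n ∈ Finset.range (G.totalDegree + 1)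
  · rw [Finset.sum_eq_single n]
    · exact cp_self (hmem n)
    · intro i _ hi
      exact cp_ne (hmem i) hi
    · intro h
      exact absurd hn h
  · rw [Finset.sum_eq_zero]
    · rw [Finset.mem_range, not_lt] at hn
      rw [homogeneousComponent_eq_zero _ _ (by omega), map_zero]
    · intro i hi
      exact cp_ne (hmem i) (fun h => hn (h ▸ hi))

variable {Q : Ideal (MvPolynomial (Fin (XV.N + 1)) K ⧸ P)}

theorem homog_comap (gV : GradedAlgebra fun n => (Bgr P n).restrictScalars V)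
    (hQ : Q.IsHomogeneous fun n => (Bgr P n).restrictScalars V) :
    Pool.Agent.FRM.Homog (Q.comap (Ideal.Quotient.mk P)) := by
  intro G hG m
  rw [Ideal.mem_comap] at hG ⊢
  rw [← cp_mk V gV]
  exact hQ m hG

variable {F : Type} [Field F] (c : F →+* V) (h : Fin 3 → MvPolynomial (Fin (XV.N + 1)) F)
  {h' : Fin 3 → Sb V (Ideal.Quotient.mkₐ K P)}
  (hh' : ∀ i, (h' i : MvPolynomial (Fin (XV.N + 1)) K ⧸ P) = lfb V (Ideal.Quotient.mkₐ K P) c (h i))

include hh' in
theorem aeval_h' (G : MvPolynomial (Fin 3) V) :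
    ((aeval h' G : Sb V (Ideal.Quotient.mkₐ K P)) : MvPolynomial (Fin (XV.N + 1)) K ⧸ P) =
      Ideal.Quotient.mk P (MvPolynomial.map V.subtype
        (aeval (fun i => MvPolynomial.map c (h i)) G)) := by
  have h1 : ((Sb V (Ideal.Quotient.mkₐ K P)).val.comp (aeval h')).toRingHom =
      ((Ideal.Quotient.mk P).comp (MvPolynomial.map V.subtype)).comp
        (aeval (fun i => MvPolynomial.map c (h i))).toRingHom := by
    apply MvPolynomial.ringHom_ext
    · intro v
      show (((aeval h' (C v)) : Sb V (Ideal.Quotient.mkₐ K P)) :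
        MvPolynomial (Fin (XV.N + 1)) K ⧸ P) = Ideal.Quotient.mk P (MvPolynomial.map V.subtype
          (aeval (fun i => MvPolynomial.map c (h i)) (C v)))
      rw [aeval_C, aeval_C]
      show algebraMap V (MvPolynomial (Fin (XV.N + 1)) K ⧸ P) v =
        Ideal.Quotient.mk P (MvPolynomial.map V.subtype (C v))
      rw [map_C]
      rfl
    · intro i
      show (((aeval h' (X i)) : Sb V (Ideal.Quotient.mkₐ K P)) :
        MvPolynomial (Fin (XV.N + 1)) K ⧸ P) = Ideal.Quotient.mk P (MvPolynomial.map V.subtype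
          (aeval (fun i => MvPolynomial.map c (h i)) (X i)))
      rw [aeval_X, aeval_X, hh' i]
      rfl
  exact RingHom.congr_fun h1 G

include hh' in
theorem transfer {G : MvPolynomial (Fin (XV.N + 1)) K}
    (hG : (hmap h' Q).IsIntegralElem (Ideal.Quotient.mk Q (Ideal.Quotient.mk P G))) :
    (zmap V (Q.comap (Ideal.Quotient.mk P))
      (fun i => MvPolynomial.map c (h i))).IsIntegralElem
        (Ideal.Quotient.mk (Q.comap (Ideal.Quotient.mk P)) G) := by
  obtain ⟨p, hp, h1⟩ := hG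
  refine ⟨p, hp, ?_⟩
  let ι : MvPolynomial (Fin (XV.N + 1)) K ⧸ Q.comap (Ideal.Quotient.mk P) →+*
      (MvPolynomial (Fin (XV.N + 1)) K ⧸ P) ⧸ Q := Ideal.quotientMap Q (Ideal.Quotient.mk P) le_rfl
  have hι : Function.Injective ι := Ideal.quotientMap_injective
  apply hι
  rw [map_zero, Polynomial.hom_eval₂]
  have h2 : ι.comp (zmap V (Q.comap (Ideal.Quotient.mk P))
      (fun i => MvPolynomial.map c (h i))) = hmap h' Q := by
    refine RingHom.ext fun R => ?_
    show Ideal.Quotient.mk Q (Ideal.Quotient.mk P (MvPolynomial.map V.subtype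
        (aeval (fun i => MvPolynomial.map c (h i)) R))) = Ideal.Quotient.mk Q
          ((aeval h' R : Sb V (Ideal.Quotient.mkₐ K P)) : MvPolynomial (Fin (XV.N + 1)) K ⧸ P)
    rw [aeval_h' V c h hh']
  rw [h2]
  exact h1

end comp

section final

/-- **Existence of exact surfaces.** -/
theorem exact_of (hSux : XB.Stmt_Sux) (hSuk : XB.Stmt_Suk) (hGrv : XB.Stmt_Grv)
    (hLnf : XB.Stmt_Lnf) (hGlu : XB.Stmt_Glu) (hInx : XB.Stmt_Inx) (hBsx : XB.Stmt_Bsx)
    (hHib : XB.Stmt_Hib) (hHix : XB.Stmt_Hix) (hVgt : XB.Stmt_Vgt) (hQgr : XB.Stmt_Qgr)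
    (hPri : XV.Stmt_Pri) (hGro : GML.Stmt_GRO) (hCnt : GML.Stmt_CNT) (hRnk : Stmt_Rnk) :
    TFR.Stmt_Exact := by
  intro p _ J _ E hE M
  obtain ⟨σ, ϖ, hSu⟩ := hSux p J E hE M
  obtain ⟨⟨gK⟩, hB⟩ := hSuk p J E M.K M.V M.F M.c σ M.t ϖ M.P M.z hSu
  obtain ⟨gV⟩ := hGrv M.K M.V (MvPolynomial (Fin (XV.N + 1)) M.K ⧸ M.P) (Bgr M.P)
  have hclosed : IsAlgClosed M.F := hSu.closed
  obtain ⟨h, hh1, hh2⟩ := hLnf M.F none
  obtain ⟨M', G, S, hChD, hS⟩ := hGlu M.F none h hh1
  have hr : DIL.Res σ ϖ := ⟨fun x => ⟨M.c x, hSu.sec x⟩, hSu.ker⟩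
  let h' : Fin 3 → Sb M.V (Ideal.Quotient.mkₐ M.K M.P) := fun i =>
    ⟨lfb M.V (Ideal.Quotient.mkₐ M.K M.P) M.c (h i), RingHom.isIntegralElem_map _⟩
  have hh' : ∀ i, (h' i : MvPolynomial (Fin (XV.N + 1)) M.K ⧸ M.P) =
    lfb M.V (Ideal.Quotient.mkₐ M.K M.P) M.c (h i) := fun i => rfl
  obtain ⟨cc, γ, x, f, hxf, Y⟩ := hInx p J E M.K M.V M.F M.c σ M.t ϖ M.P M.z
    (MvPolynomial (Fin (XV.N + 1)) M.K ⧸ M.P) (Ideal.Quotient.mkₐ M.K M.P) (Bgr M.P) hB hr gV none
    h M' G S hChD hh1 hh2 h' hh'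
  obtain ⟨n, b, r, hn, hbas⟩ := hBsx p J E M.K M.V M.F M.c σ M.t ϖ M.P M.z
    (MvPolynomial (Fin (XV.N + 1)) M.K ⧸ M.P) (Ideal.Quotient.mkₐ M.K M.P) (Bgr M.P) hB
  obtain ⟨hfinB, C₁, hC₁⟩ := hHib p J E M.K M.V M.F M.c σ M.t ϖ M.P M.z
    (MvPolynomial (Fin (XV.N + 1)) M.K ⧸ M.P) (Ideal.Quotient.mkₐ M.K M.P) (Bgr M.P) hB n b r hbas
  obtain ⟨hfinT, hposT, hrk⟩ := hRnk p J E M.K M.V M.F M.c σ M.t ϖ M.P M.z
    (MvPolynomial (Fin (XV.N + 1)) M.K ⧸ M.P) (Ideal.Quotient.mkₐ M.K M.P) (Bgr M.P) hB hr gV none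
    h M' G S hChD hh1 hS hh2 h' hh' cc γ x f hxf Y n b r hbas
  obtain ⟨v, C₂, hv, hdv⟩ := num hGro hQgr hPri hHix hVgt M.F h hh1 hfinT
  set d := Module.finrank (MvPolynomial (Fin 3) M.F) (Tq h (JI M.F none)) with hd
  have hdvr : IsDiscreteValuationRing M.V := M.dvr
  have hcomp : IsAdicComplete (IsLocalRing.maximalIdeal M.V) M.V := M.complete
  have hdomB : IsDomain (MvPolynomial (Fin (XV.N + 1)) M.K ⧸ M.P) := hB.dom
  have hrk' : Module.finrank (MvPolynomial (Fin 3) M.F) ↥(Fj Y (aG none - 1)) = n * d :=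
    hrk.trans (one_mul _)
  obtain ⟨Q, hQp, hQh, -, hQ1, hQ2⟩ := exists_primeB Y hSu.irr (cnt Y hSu.irr hCnt)
    (hloc_of M.V (Ideal.Quotient.mkₐ M.K M.P) hdvr hSu.irr Ideal.Quotient.mk_surjective)
    (fun m => rank_V M.V m (hfinB m)) (δ := n * v) (C' := C₁ + n * C₂) (fun m => by
      have e1 := hC₁ m
      have e2 := hv m
      rw [abs_le] at e1 e2
      have e1' : (-(C₁ * ((m : ℚ) + 1) ^ 2) ≤ (Module.finrank M.K (Bgr M.P m) : ℚ) -
          n * Module.finrank M.F (qgr (XV.I M.F) m)) ∧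
          ((Module.finrank M.K (Bgr M.P m) : ℚ) - n * Module.finrank M.F (qgr (XV.I M.F) m) ≤
            C₁ * ((m : ℚ) + 1) ^ 2) := by exact_mod_cast e1
      have e2' : (-(C₂ * ((m : ℚ) + 1) ^ 2) ≤ 6 * (Module.finrank M.F (qgr (XV.I M.F) m) : ℚ) -
          v * (m : ℚ) ^ 3) ∧ (6 * (Module.finrank M.F (qgr (XV.I M.F) m) : ℚ) -
          v * (m : ℚ) ^ 3 ≤ C₂ * ((m : ℚ) + 1) ^ 2) := by exact_mod_cast e2
      have hn0 : (0 : ℚ) ≤ n := Nat.cast_nonneg n
      have e3 := mul_le_mul_of_nonneg_left e2'.1 hn0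
      have e4 := mul_le_mul_of_nonneg_left e2'.2 hn0
      have e5 : (0 : ℚ) ≤ n * C₂ * ((m : ℚ) + 1) ^ 2 := by positivity
      rw [abs_le]
      constructor
      · nlinarith [e1'.1]
      · nlinarith [e1'.2])
    (by
      rw [hrk']
      have e1 : (1 : ℚ) ≤ n := by exact_mod_cast hn
      have e2 : (d : ℚ) < v := by
        have : d < v := by omega
        exact_mod_cast this
      push_cast
      rw [div_one]
      nlinarith)
    (by
      rw [hrk']
      exact Nat.mul_pos hn hposT)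
  have : Q.IsPrime := hQp
  refine exactPrime M {c | 1 ≤ (XV.pt c).w} ϖ hSu.irr.ne_zero hSu.irr.not_isUnit
    (Q.comap (Ideal.Quotient.mk M.P)) (homog_comap M.V gV hQh) ?_
    (fun i => MvPolynomial.map M.c (h i)) ?_ ?_ ?_
  · intro G hG
    rw [Ideal.mem_comap, Ideal.Quotient.eq_zero_iff_mem.2 hG]
    exact Q.zero_mem
  · intro R hR
    apply hQ1
    rw [aeval_h' M.V M.c h hh']
    exact Ideal.mem_comap.1 (Ideal.Quotient.eq_zero_iff_mem.1 hR)
  · intro i
    apply transfer M.V M.c h hh'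
    have e1 : Ideal.Quotient.mk M.P (X i) ∈ Sb M.V (Ideal.Quotient.mkₐ M.K M.P) := by
      have e2 : Ideal.Quotient.mk M.P (X i : MvPolynomial (Fin (XV.N + 1)) M.K) =
          vB M.V (Ideal.Quotient.mkₐ M.K M.P) (X i) := by
        show _ = Ideal.Quotient.mkₐ M.K M.P (MvPolynomial.map M.V.subtype (X i))
        rw [map_X]
        rfl
      rw [e2]
      exact RingHom.isIntegralElem_map _
    exact hQ2 (ofS Y ⟨_, e1⟩)
  · intro i hi
    apply transfer M.V M.c h hh'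
    have e1 : Ideal.Quotient.mk M.P (X i) ∈ Sb M.V (Ideal.Quotient.mkₐ M.K M.P) := by
      have e2 : Ideal.Quotient.mk M.P (X i : MvPolynomial (Fin (XV.N + 1)) M.K) =
          vB M.V (Ideal.Quotient.mkₐ M.K M.P) (X i) := by
        show _ = Ideal.Quotient.mkₐ M.K M.P (MvPolynomial.map M.V.subtype (X i))
        rw [map_X]
        rfl
      rw [e2]
      exact RingHom.isIntegralElem_map _
    have e3 : (⟨_, e1⟩ : Sb M.V (Ideal.Quotient.mkₐ M.K M.P)) ∈
        Igb M.V (Ideal.Quotient.mkₐ M.K M.P) ϖ none ^ 1 := by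
      rw [pow_one]
      apply Ideal.subset_span
      right
      refine ⟨XV.pt i, hi, ?_⟩
      show Ideal.Quotient.mk M.P (X i) = Ideal.Quotient.mk M.P (XV.xc M.K (XV.pt i))
      rw [XV.xc, Equiv.symm_apply_apply]
    obtain ⟨y, -, hy⟩ := exists_div' Y e3
    have e4 : emb Y y = Ideal.Quotient.mk M.P (C ((ϖ : M.K)⁻¹) * X i) := by
      apply cancelB Y 1
      rw [hy, map_mul]
      show Ideal.Quotient.mk M.P (X i) = (Ideal.Quotient.mk M.P (C (ϖ : M.K))) ^ 1 *
        (Ideal.Quotient.mk M.P (C ((ϖ : M.K)⁻¹)) * Ideal.Quotient.mk M.P (X i))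
      rw [pow_one, ← mul_assoc, ← map_mul, ← C_mul, mul_inv_cancel₀, C_1, map_one, one_mul]
      exact fun h => hSu.irr.ne_zero (Subtype.ext h)
    rw [← e4]
    exact hQ2 y

end final

end Pool.Agent.DIL
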