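import Pool.Agent.DIL.RkStmtsB

/-!
# FJR: the rank of the steps of the balanced filtration (MP_db3ab1_ag, DIL)
-/

set_option autoImplicit false

noncomputable section

namespace Pool.Agent.DIL

open MvPolynomial

namespace FJR_

variable {V κ : Type} [CommRing V] [Field κ] {σ : V →+* κ} {ϖ : V} {hr : Res σ ϖ} {B : Type}
  [CommRing B] [Algebra V B] {ℬ : ℕ → Submodule V B} [GradedAlgebra ℬ] {S : Subalgebra V B}
  {I : Ideal S} {h : Fin 3 → S} {a b c : ℕ} {γ : Fin 3 → S} {Q : Type} {x f : Q → S}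
  (X : In hr ℬ S I h a b c γ x f) (q : Q)

/-- the element `f q / ϖ` -/
def fD : Dd X := (exists_div' X (j := 1) (z := f q) (by rw [pow_one]; exact X.f_mem q)).choose

theorem fD_fil : emb X (fD X q) ∈ fil ϖ S I 1 :=
  (exists_div' X (j := 1) (z := f q) (by rw [pow_one]; exact X.f_mem q)).choose_spec.1

theorem fD_spec : algebraMap V B ϖ ^ 1 * emb X (fD X q) = (f q : B) :=
  (exists_div' X (j := 1) (z := f q) (by rw [pow_one]; exact X.f_mem q)).choose_spec.2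

theorem fD_pow_fil (m : ℕ) : emb X (fD X q ^ m) ∈ fil ϖ S I m := by
  induction m with
  | zero =>
    rw [pow_zero, map_one]
    exact mem_fil_zero.2 (one_mem S)
  | succ m ih =>
    rw [pow_succ, map_mul]
    exact fil_mul ih (fD_fil X q)

theorem fD_pow_spec (m : ℕ) : algebraMap V B ϖ ^ m * emb X (fD X q ^ m) = (f q : B) ^ m := by
  rw [map_pow, ← mul_pow]
  have := fD_spec X q
  rw [pow_one] at this
  rw [this]

/-- the elements of `S` act on the steps of the filtration -/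
theorem ofS_mul_mem (s : S) {j : ℕ} {w : Wq hr (Dd X)} (hw : w ∈ Fj X j) :
    mk hr (Dd X) (ofS X s) * w ∈ Fj X j := by
  obtain ⟨y, hy, rfl⟩ := hw
  refine ⟨ofS X s * y, ?_, map_mul _ _ _⟩
  rw [map_mul, emb_ofS]
  exact Submodule.smul_mem _ s hy

/-- the action of a polynomial -/
theorem smul_eq (R : MvPolynomial (Fin 3) V) (w : Wq hr (Dd X)) :
    MvPolynomial.map σ R • w = mk hr (Dd X) (ofS X (aeval h R)) * w := by
  obtain ⟨y, rfl⟩ := mk_surj hr (D := Dd X) w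
  rw [← mk_smul, Algebra.smul_def, algebraMap_Dd, map_mul]

theorem smul_eq' {R : MvPolynomial (Fin 3) V} {s i : S} (hi : i ∈ I)
    (hR : aeval h R = s * x q + i) (w : Wq hr (Dd X)) :
    MvPolynomial.map σ R • w = mk hr (Dd X) (ofS X s) * (mk hr (Dd X) (ofS X (x q)) * w) := by
  rw [smul_eq, hR, map_add, map_add, mk_ofS_of_mem X hi, add_zero, map_mul, map_mul, mul_assoc]

theorem pow_smul_eq {R : MvPolynomial (Fin 3) V} {s i : S} (hi : i ∈ I)
    (hR : aeval h R = s * x q + i) (N : ℕ) (w : Wq hr (Dd X)) :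
    (MvPolynomial.map σ R) ^ N • w =
      mk hr (Dd X) (ofS X s) ^ N * (mk hr (Dd X) (ofS X (x q)) ^ N * w) := by
  induction N with
  | zero => rw [pow_zero, pow_zero, pow_zero, one_smul, one_mul, one_mul]
  | succ N ih =>
    rw [pow_succ', mul_smul, ih, smul_eq' X q hi hR]
    ring

include X in
/-- iterated surjectivity -/
theorem surj_pow (m : ℕ) {z : S} (hz : z ∈ I ^ m) :
    ∃ (N : ℕ) (y : S), x q ^ N * z - f q ^ m * y ∈ Tj (algebraMap V S ϖ) I m := by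
  induction m generalizing z with
  | zero => exact ⟨0, z, by rw [pow_zero, pow_zero, sub_self]; exact Ideal.zero_mem _⟩
  | succ m ih =>
    obtain ⟨N, y, hy, y', hy', h1⟩ := (X.loc q).surj m hz
    obtain ⟨N', y₂, h2⟩ := ih hy
    refine ⟨N' + N, y₂, ?_⟩
    have h3 : x q ^ N * z - f q * y ∈ Tj (algebraMap V S ϖ) I (m + 1) :=
      mem_Tj.2 ⟨y', by rwa [Nat.add_sub_cancel], fun h => absurd h (Nat.succ_ne_zero m), h1⟩
    have h4 : f q * (x q ^ N' * y - f q ^ m * y₂) ∈ Tj (algebraMap V S ϖ) I (m + 1) := by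
      rcases Nat.eq_zero_or_pos m with rfl | hm
      · obtain ⟨z', -, h0, h5⟩ := mem_Tj.1 h2
        rw [h0 rfl, mul_zero, sub_zero] at h5
        rw [zero_add, pow_one] at h5
        apply pow_le_Tj
        rw [zero_add, pow_two]
        exact Ideal.mul_mem_mul (X.f_mem q) h5
      · have h5 := Tj_mul hm h2 (j := 1) (y := f q) (by rw [pow_one]; exact X.f_mem q)
        rw [mul_comm, add_comm]
        exact h5
    have h5 : x q ^ (N' + N) * z - f q ^ (m + 1) * y₂ =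
        x q ^ N' * (x q ^ N * z - f q * y) + f q * (x q ^ N' * y - f q ^ m * y₂) := by ring
    rw [h5]
    exact Ideal.add_mem _ (Ideal.mul_mem_left _ _ h3) h4

/-- **surjectivity** of the multiplication by `(f q / ϖ) ^ (j + 1)`, up to torsion -/
theorem surj_W (j : ℕ) {w : Wq hr (Dd X)} (hw : w ∈ Fj X (j + 1)) :
    ∃ (N : ℕ), ∃ w₂ ∈ Fj X 0, mk hr (Dd X) (ofS X (x q)) ^ N * w -
      mk hr (Dd X) (fD X q ^ (j + 1)) * w₂ ∈ Fj X j := by
  obtain ⟨y, ⟨z, hz, hzy⟩, rfl⟩ := hw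
  obtain ⟨N, y₂, h1⟩ := surj_pow X q (j + 1) hz
  refine ⟨N, mk hr (Dd X) (ofS X y₂), mk_mem_Fj X (mem_fil_zero.2 y₂.2), ?_⟩
  have h2 : mk hr (Dd X) (ofS X (x q)) ^ N * mk hr (Dd X) y -
      mk hr (Dd X) (fD X q ^ (j + 1)) * mk hr (Dd X) (ofS X y₂) =
      mk hr (Dd X) (ofS X (x q) ^ N * y - fD X q ^ (j + 1) * ofS X y₂) := by
    simp only [map_sub, map_mul, map_pow]
  rw [h2]
  have h3 := to_Fm X (j := j + 1) (y := ofS X (x q) ^ N * y - fD X q ^ (j + 1) * ofS X y₂) (by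
    rw [map_sub, map_mul, map_mul, map_pow, emb_ofS, emb_ofS]
    have h4 := fD_pow_spec X q (j + 1)
    push_cast
    rw [← hzy, ← h4]
    ring) h1
  unfold GML.Fm at h3
  rw [if_neg (Nat.succ_ne_zero j)] at h3
  exact h3

/-- **injectivity** of the multiplication by `(f q / ϖ) ^ (j + 1)`, up to torsion -/
theorem inj_W (j : ℕ) {w : Wq hr (Dd X)} (hw : w ∈ Fj X 0)
    (h0 : mk hr (Dd X) (fD X q ^ (j + 1)) * w ∈ Fj X j) :
    ∃ N M : ℕ, mk hr (Dd X) (ofS X (x q)) ^ M *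
      ((MvPolynomial.X 0 : MvPolynomial (Fin 3) κ) ^ N • w) = 0 := by
  obtain ⟨y, hy, rfl⟩ := hw
  rw [mem_fil_zero] at hy
  set z : S := ⟨emb X y, hy⟩ with hz
  have hyz : y = ofS X z := by
    apply emb_inj X
    rw [emb_ofS]
  have h1 : algebraMap V B ϖ ^ (j + 1) * emb X (fD X q ^ (j + 1) * y) =
      ((f q ^ (j + 1) * z : S) : B) := by
    rw [map_mul, ← mul_assoc, fD_pow_spec]
    push_cast
    rfl
  have h2 : f q ^ (j + 1) * z ∈ I ^ (j + 1) :=
    Ideal.mul_mem_right _ _ (Ideal.pow_mem_pow (X.f_mem q) _)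
  have h3 : mk hr (Dd X) (fD X q ^ (j + 1) * y) ∈ GML.Fm (Fj X) (j + 1) := by
    unfold GML.Fm
    rw [if_neg (Nat.succ_ne_zero j), map_mul]
    exact h0
  obtain ⟨N, hN⟩ := of_Fm X 0 h1 h2 h3
  have h4 : f q ^ (j + 1) * (h 0 ^ N * z) ∈ Tj (algebraMap V S ϖ) I (0 + (j + 1)) := by
    rw [zero_add]
    have : f q ^ (j + 1) * (h 0 ^ N * z) = h 0 ^ N * (f q ^ (j + 1) * z) := by ring
    rw [this]
    exact hN
  obtain ⟨M, hM⟩ := inj_pow X.loc q (j + 1) (j := 0) (y := h 0 ^ N * z)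
    (by rw [pow_zero, Ideal.one_eq_top]; exact Submodule.mem_top) h4
  obtain ⟨z', -, h5, h6⟩ := mem_Tj.1 hM
  rw [h5 rfl, mul_zero, sub_zero, zero_add, pow_one] at h6
  refine ⟨N, M, ?_⟩
  rw [X_smul_mk, hyz, ← map_pow, ← map_pow, ← map_mul, ← map_mul, ← map_mul]
  exact mk_ofS_of_mem X h6

/-- the multiplication by `(f q / ϖ) ^ (j + 1)` -/
def θ (j : ℕ) : Fj X 0 →ₗ[MvPolynomial (Fin 3) κ]
    (Fj X (j + 1)) ⧸ (Fj X j).comap (Fj X (j + 1)).subtype :=
  (Submodule.mkQ _).comp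
    (((LinearMap.mulLeft (MvPolynomial (Fin 3) κ) (mk hr (Dd X) (fD X q ^ (j + 1)))).comp
      (Fj X 0).subtype).codRestrict (Fj X (j + 1)) (by
        rintro ⟨_, y, hy, rfl⟩
        refine ⟨fD X q ^ (j + 1) * y, ?_, map_mul _ _ _⟩
        rw [map_mul]
        have := fil_mul (fD_pow_fil X q (j + 1)) hy
        rwa [add_zero] at this))

theorem θ_apply (j : ℕ) (w : Fj X 0) (w' : Fj X (j + 1)) :
    θ X q j w = Submodule.Quotient.mk w' ↔
      mk hr (Dd X) (fD X q ^ (j + 1)) * (w : Wq hr (Dd X)) - w' ∈ Fj X j := by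
  unfold θ
  rw [LinearMap.comp_apply, Submodule.mkQ_apply, Submodule.Quotient.eq, Submodule.mem_comap]
  rfl

/-- one step -/
theorem step (hRTI : Stmt_RTI) {R : MvPolynomial (Fin 3) V} (hR0 : MvPolynomial.map σ R ≠ 0)
    (hR : aeval h R ∈ Ideal.span {x q} ⊔ I) (j : ℕ) :
    Module.finrank (MvPolynomial (Fin 3) κ) (Fj X (j + 1)) =
      Module.finrank (MvPolynomial (Fin 3) κ) (Fj X j) +
        Module.finrank (MvPolynomial (Fin 3) κ) (Fj X 0) := by
  obtain ⟨_, h1, i, hi, hRi⟩ := Submodule.mem_sup.1 hR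
  obtain ⟨s, rfl⟩ := Ideal.mem_span_singleton'.1 h1
  have hf : ∀ j, Module.Finite (MvPolynomial (Fin 3) κ) (Fj X j) := fun j =>
    Module.Finite.iff_fg.2 (Fj_fg X j)
  have := hf (j + 1)
  have := hf 0
  have e1 := Submodule.finrank_quotient_add_finrank
    ((Fj X j).comap (Fj X (j + 1)).subtype)
  have e2 : Module.finrank (MvPolynomial (Fin 3) κ) ((Fj X j).comap (Fj X (j + 1)).subtype) =
      Module.finrank (MvPolynomial (Fin 3) κ) (Fj X j) :=
    (Submodule.comapSubtypeEquivOfLe (Fj_mono X (Nat.le_succ j))).finrank_eq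
  have e3 : Module.finrank (MvPolynomial (Fin 3) κ) (Fj X 0) =
      Module.finrank (MvPolynomial (Fin 3) κ)
        ((Fj X (j + 1)) ⧸ (Fj X j).comap (Fj X (j + 1)).subtype) := by
    refine hRTI (MvPolynomial (Fin 3) κ) _ _ (θ X q j) ?_ ?_
    · rintro ⟨w, hw⟩ hθ
      have h2 : mk hr (Dd X) (fD X q ^ (j + 1)) * w ∈ Fj X j := by
        have h3 := (θ_apply X q j ⟨w, hw⟩ 0).1 (by rw [hθ]; rfl)
        rwa [ZeroMemClass.coe_zero, sub_zero] at h3
      obtain ⟨N, M, hNM⟩ := inj_W X q j hw h2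
      refine ⟨(MvPolynomial.map σ R) ^ M * (MvPolynomial.X 0) ^ N,
        mul_ne_zero (pow_ne_zero _ hR0) (pow_ne_zero _ (X_ne_zero _)), ?_⟩
      apply Subtype.ext
      rw [SetLike.val_smul, ZeroMemClass.coe_zero, mul_smul, pow_smul_eq X q hi hRi.symm, hNM,
        mul_zero]
    · intro y
      obtain ⟨⟨w, hw⟩, rfl⟩ := Submodule.Quotient.mk_surjective _ y
      obtain ⟨N, w₂, hw₂, h2⟩ := surj_W X q j hw
      refine ⟨(MvPolynomial.map σ R) ^ N, pow_ne_zero _ hR0,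
        ⟨mk hr (Dd X) (ofS X (s ^ N)) * w₂, ofS_mul_mem X _ hw₂⟩, ?_⟩
      rw [← Submodule.Quotient.mk_smul]
      symm
      rw [θ_apply, SetLike.val_smul, pow_smul_eq X q hi hRi.symm]
      have h3 : mk hr (Dd X) (fD X q ^ (j + 1)) * (mk hr (Dd X) (ofS X (s ^ N)) * w₂) -
          mk hr (Dd X) (ofS X s) ^ N * (mk hr (Dd X) (ofS X (x q)) ^ N * w) =
          -(mk hr (Dd X) (ofS X (s ^ N)) * (mk hr (Dd X) (ofS X (x q)) ^ N * w -
            mk hr (Dd X) (fD X q ^ (j + 1)) * w₂)) := by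
        simp only [map_pow]
        ring
      show mk hr (Dd X) (fD X q ^ (j + 1)) * (mk hr (Dd X) (ofS X (s ^ N)) * w₂) -
          mk hr (Dd X) (ofS X s) ^ N * (mk hr (Dd X) (ofS X (x q)) ^ N * w) ∈ Fj X j
      rw [h3]
      exact Submodule.neg_mem _ (ofS_mul_mem X _ h2)
  rw [← e1, e2, ← e3, add_comm]

end FJR_

theorem fjr_proof (hRTI : Stmt_RTI) : Stmt_FJR := by
  intro V κ _ _ σ ϖ hr B _ _ ℬ _ S I h a b c γ Q x f X q R hR0 hR j
  induction j with
  | zero => rw [zero_add, one_mul]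
  | succ j ih =>
    rw [FJR_.step X q hRTI hR0 hR j, ih]
    ring

end Pool.Agent.DIL
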