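import Pool.Agent.DIL.Rk0
import Pool.Agent.DIL.FJR

/-!
# The rank of the filtration of the dilated tube (MP_db3ab1_ag, DIL)
-/

set_option autoImplicit false

noncomputable section

namespace Pool.Agent.DIL

open scoped Classical
open MvPolynomial Pool.Agent.FRM Pool.Agent.XV Pool.Agent.GML Pool.Agent.XB

section

variable {K : Type} [Field K] (V : ValuationSubring K) {F : Type} [Field F] (c : F →+* V)
  {B : Type} [CommRing B] [Algebra K B] (φ : MvPolynomial (Fin (XV.N + 1)) K →ₐ[K] B)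

/-- `F[x] → S` -/
def Ls : MvPolynomial (Fin (XV.N + 1)) F →+* Sb V φ :=
  (lfb V φ c).codRestrict (Sb V φ) fun _ => RingHom.isIntegralElem_map _

theorem Ls_coe (q : MvPolynomial (Fin (XV.N + 1)) F) : ((Ls V c φ q : Sb V φ) : B) =
    lfb V φ c q := rfl

theorem Ls_C (a : F) : Ls V c φ (C a) = algebraMap V (Sb V φ) (c a) := by
  apply Subtype.ext
  rw [Ls_coe]
  show vB V φ (MvPolynomial.map c (C a)) = algebraMap V B (c a)
  rw [map_C]
  have h2 : φ (C ((c a : V) : K)) = algebraMap K B (c a : V) := φ.commutes _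
  simp only [vB, RingHom.comp_apply, map_C]
  exact h2

theorem Ls_xc (ct : Pt) : ((Ls V c φ (xc F ct) : Sb V φ) : B) = φ (xc K ct) := by
  rw [Ls_coe]
  simp only [lfb, vB, RingHom.comp_apply, xc, map_X]
  rfl

theorem Ls_aeval {h : Fin 3 → MvPolynomial (Fin (XV.N + 1)) F} {h' : Fin 3 → Sb V φ}
    (hh' : ∀ i, (h' i : B) = lfb V φ c (h i)) (q : MvPolynomial (Fin 3) F) :
    Ls V c φ (aeval h q) = aeval h' (MvPolynomial.map c q) := by
  have h1 : (Ls V c φ).comp (aeval h).toRingHom =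
      (aeval h').toRingHom.comp (MvPolynomial.map c) := by
    apply MvPolynomial.ringHom_ext
    · intro a
      show Ls V c φ (aeval h (C a)) = aeval h' (MvPolynomial.map c (C a))
      rw [aeval_C, map_C, aeval_C]
      exact Ls_C V c φ a
    · intro i
      show Ls V c φ (aeval h (X i)) = aeval h' (MvPolynomial.map c (X i))
      rw [aeval_X, map_X, aeval_X]
      exact Subtype.ext (hh' i).symm
  exact RingHom.congr_fun h1 q

theorem mem_span_iff (ϖ : V) (x : Sb V φ) :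
    x ∈ Ideal.span {algebraMap V (Sb V φ) ϖ} ↔ Dvb V φ ϖ (x : B) := by
  rw [Ideal.mem_span_singleton]
  constructor
  · rintro ⟨y, rfl⟩
    exact ⟨y, y.2, rfl⟩
  · rintro ⟨y, hy, h⟩
    exact ⟨⟨y, hy⟩, Subtype.ext h⟩

theorem sc_of (hPri : XV.Stmt_Pri) (hFnh : XB.Stmt_Fnh) (hDmg : XB.Stmt_Dmg) (hLcg : XB.Stmt_Lcg)
    {g : Option (Fin 10)} {h : Fin 3 → MvPolynomial (Fin (XV.N + 1)) F} {M : ℕ}
    {G : Fin 3 → MvPolynomial (Fin (XV.N + 1)) F}
    {S : Finset (MvPolynomial (Fin (XV.N + 1)) F × MvPolynomial (Fin (XV.N + 1)) F)}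
    (hC : ChD F g h M G S) (hh1 : ∀ i, (h i).IsHomogeneous 1)
    (hS : ∀ s ∈ S, ∃ π σ l, RayOf g π σ l ∧ s = (chf F π σ, che F π σ l))
    (hh2 : ∀ j, ∃ n : ℕ, (X j : MvPolynomial (Fin (XV.N + 1)) F) ^ n ∈
      Ideal.span (Set.range h) ⊔ JI F g) : Sc F g h S where
  ne := hC.ne
  e_mem := hC.e_mem
  e_nz := by
    intro s hs
    obtain ⟨π, σ, l, hR, rfl⟩ := hS s hs
    exact (hLcg F g π σ l hR).2.1
  loc := hC.loc
  cov := hC.cov
  prime := hC.prime
  conn := hC.conn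
  dom := by
    intro s hs q hq n
    obtain ⟨π, σ, l, hR, rfl⟩ := hS s hs
    exact hDmg F g π σ l hR h hh1 hh2 q hq n
  fin := hFnh F _ 3 (JI F g) (JI_hom hPri F g) h hh1 hh2

end

/-- **The rank of the filtration.** -/
theorem rnk_of (hPri : XV.Stmt_Pri) (hFnh : XB.Stmt_Fnh) (hDmg : XB.Stmt_Dmg)
    (hLcg : XB.Stmt_Lcg) (hLfk : XB.Stmt_Lfk) (hNzd : XB.Stmt_Nzd) (hFid : XB.Stmt_Fid) :
    Stmt_Rnk := by
  intro p J E K _ V F _ _ c σ t ϖ P z B _ _ φ ℬ _ hB hr gV g h M G S hC hh1 hS hh2 h' hh' cc γ x f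
    hxf X n b r hbas
  have Y : Sc F g h S := sc_of hPri hFnh hDmg hLcg hC hh1 hS hh2
  refine ⟨Y.finite, Y.finrank_pos, ?_⟩
  have hc : ∀ v, σ (c v) = v := hB.base.sec
  obtain ⟨s, hs⟩ := Y.ne
  have hp := Y.isPrime hs
  have hIp : (XV.I F).IsPrime := (hPri F).1
  have hL := Ls_aeval V c φ hh'
  have hLI : ∀ G ∈ XV.I F, Ls V c φ G ∈ Ideal.span {algebraMap V (Sb V φ) ϖ} := by
    intro G hG
    rw [mem_span_iff]
    exact (hLfk p J E K V F c σ t ϖ P z B φ ℬ hB G).2 hG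
  have hϖI : Ideal.span {algebraMap V (Sb V φ) ϖ} ≤ Igb V φ ϖ g := by
    rw [Ideal.span_le, Set.singleton_subset_iff]
    exact Ideal.subset_span (Or.inl rfl)
  have hJ : ∀ G ∈ JI F g, Ls V c φ G ∈ Igb V φ ϖ g := by
    have h1 : JI F g ≤ (Igb V φ ϖ g).comap (Ls V c φ) := by
      refine sup_le ?_ ?_
      · rw [Jg, Ideal.span_le]
        rintro _ ⟨ct, hct, rfl⟩
        exact Ideal.subset_span (Or.inr ⟨ct, hct, Ls_xc V c φ ct⟩)
      · intro G hG
        exact hϖI (hLI G hG)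
    exact h1
  have hloc : ∀ z ∈ Igb V φ ϖ g, ∃ m : ℕ, Ls V c φ s.1 ^ m * z ∈
      Ideal.span {Ls V c φ s.2} ⊔ Ideal.span {algebraMap V (Sb V φ) ϖ} := by
    intro z hz
    refine Submodule.span_induction ?_ ?_ ?_ ?_ hz
    · rintro y (rfl | ⟨ct, hct, hy⟩)
      · exact ⟨0, by
          rw [pow_zero, one_mul]
          exact Ideal.mem_sup_right (Ideal.mem_span_singleton_self _)⟩
      · obtain ⟨m, b', hb'⟩ := Y.loc s hs ct hct
        refine ⟨m, ?_⟩
        have h1 : y = Ls V c φ (xc F ct) := Subtype.ext (hy.trans (Ls_xc V c φ ct).symm)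
        have h2 : Ls V c φ s.1 ^ m * y = Ls V c φ b' * Ls V c φ s.2 +
            Ls V c φ (s.1 ^ m * xc F ct - b' * s.2) := by
          rw [h1, map_sub, map_mul, map_mul, map_pow]
          ring
        rw [h2]
        exact Ideal.add_mem _ (Ideal.mem_sup_left (Ideal.mul_mem_left _ _
          (Ideal.mem_span_singleton_self _))) (Ideal.mem_sup_right (hLI _ hb'))
    · exact ⟨0, by rw [mul_zero]; exact Ideal.zero_mem _⟩
    · rintro y y' _ _ ⟨m, hm⟩ ⟨m', hm'⟩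
      refine ⟨m + m', ?_⟩
      have h1 : Ls V c φ s.1 ^ (m + m') * (y + y') = Ls V c φ s.1 ^ m' * (Ls V c φ s.1 ^ m * y) +
          Ls V c φ s.1 ^ m * (Ls V c φ s.1 ^ m' * y') := by ring
      rw [h1]
      exact Ideal.add_mem _ (Ideal.mul_mem_left _ _ hm) (Ideal.mul_mem_left _ _ hm')
    · rintro a y _ ⟨m, hm⟩
      refine ⟨m, ?_⟩
      have h1 : Ls V c φ s.1 ^ m * (a • y) = a * (Ls V c φ s.1 ^ m * y) := by
        rw [smul_eq_mul]
        ring
      rw [h1]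
      exact Ideal.mul_mem_left _ _ hm
  -- the basis near the prime
  obtain ⟨-, ⟨d, gg, hg1, hg2⟩, -⟩ := hFid p J E K V F c σ t ϖ P z B φ ℬ hB
  have hcoe : ∀ (d : ℕ) (q : Fin d → MvPolynomial (Fin (XV.N + 1)) F) (m : Fin d → Sb V φ),
      ((∑ i, Ls V c φ (q i) * m i : Sb V φ) : B) = ∑ i, lfb V φ c (q i) * (m i : B) := by
    intro d q m
    push_cast
    rfl
  obtain ⟨m, hm1, s₀, hs₀, hm2⟩ := exists_bas lbs_proof (XV.I F) (Ls V c φ)
    (Ideal.span {algebraMap V (Sb V φ) ϖ}) hLI (by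
      intro a ha y hy
      rw [mem_span_iff] at hy ⊢
      exact hNzd p J E K V F c σ t ϖ P z B φ ℬ hB a ha y y.2 hy)
    ⟨d, fun i => ⟨gg i, hg1 i⟩, fun y => by
      obtain ⟨q, hq⟩ := hg2 y y.2
      refine ⟨fun i => aeval (fun j => MvPolynomial.map σ (z j)) (q i), ?_⟩
      rw [mem_span_iff]
      push_cast
      exact hq⟩
    (PP F s.2 s.1) (le_sup_right.trans le_PP) s.2
    (le_PP (Ideal.mem_sup_left (Ideal.mem_span_singleton_self _))) (Y.e_nz s hs) (by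
      rintro y ⟨m, hm⟩
      refine ⟨s.1 ^ m, fun h1 => Y.f_notMem hs hs (hp.mem_of_pow_mem _ h1), ?_⟩
      obtain ⟨y₁, hy₁, y₂, hy₂, hy⟩ := Submodule.mem_sup.1 hm
      rw [Ideal.mem_span_singleton'] at hy₁
      obtain ⟨b', rfl⟩ := hy₁
      refine ⟨b', ?_⟩
      rw [← hy]
      simpa using hy₂)
    n (fun i => ⟨b i, hbas.mem i⟩) r hbas.r_nz (by
      intro q hq
      apply hbas.ind
      rw [mem_span_iff, hcoe] at hq
      exact hq) (by
      intro y
      obtain ⟨q, hq⟩ := hbas.gen y y.2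
      refine ⟨q, ?_⟩
      rw [mem_span_iff]
      push_cast
      exact hq)
  have hF0 := finrank_F0 X hc (Ls V c φ) hL hJ rti_proof Y rfl hs hloc m hm1 hs₀ hm2
  -- the other steps
  obtain ⟨u, q, hq0, hu⟩ := Y.exists_mult hs (Y.f_notMem hs hs)
  have hσc : MvPolynomial.map σ (MvPolynomial.map c q) = q := by
    rw [MvPolynomial.map_map]
    have : σ.comp c = RingHom.id F := RingHom.ext hc
    rw [this, MvPolynomial.map_id]
  have hfj := fjr_proof rti_proof V F σ ϖ hr B (fun n => (ℬ n).restrictScalars V) (Sb V φ)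
    (Igb V φ ϖ g) h' (aG g) 1 cc γ S x f X ⟨s, hs⟩ (MvPolynomial.map c q)
    (by rw [hσc]; exact hq0) (by
      rw [← hL]
      have h1 : x ⟨s, hs⟩ = Ls V c φ s.1 := Subtype.ext (hxf ⟨s, hs⟩).1
      have h2 : Ls V c φ (aeval h q) = Ls V c φ u * x ⟨s, hs⟩ -
          Ls V c φ (u * s.1 - aeval h q) := by
        rw [h1, map_sub, map_mul]
        ring
      rw [h2]
      exact Ideal.sub_mem _ (Ideal.mem_sup_left (Ideal.mul_mem_left _ _
        (Ideal.mem_span_singleton_self _))) (Ideal.mem_sup_right (hJ _ hu)))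
    (aG g - 1)
  rw [hfj, hF0]
  have h3 : aG g - 1 + 1 = aG g := Nat.succ_pred_eq_of_pos X.a_pos
  rw [h3]

end Pool.Agent.DIL
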