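import Pool.Agent.XB.All
import Pool.Agent.DIL.Rnk
import Pool.Agent.DIL.Exact

/-!
# The dilatation: all statements
-/

set_option autoImplicit false

namespace Pool.Agent.DIL

theorem rnk : Stmt_Rnk := rnk_of XV.pri XB.fnh XB.dmg XB.lcg XB.lfk XB.nzd XB.fid

/-- **Existence of exact surfaces.** -/
theorem exact : TFR.Stmt_Exact :=
  exact_of XB.sux XB.suk XB.grv XB.lnf XB.glu XB.inx XB.bsx XB.hib XB.hix XB.vgt XB.qgr' XV.pri
    GML.a_gro GML.a_cnt rnk

end Pool.Agent.DIL
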