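import Mathlib

/-!
# The associated graded ring of `I`, where `I = (ϖ, γ)` locally (MP_db3ab1_ag, part E, DIL)

`S` is a commutative ring, `I` a finitely generated ideal which contains `ϖ` and `γ`, such that
`I = (γ) + (ϖ) + I ^ 2` after inverting `h`; `ϖ` is not a zero divisor, and `γ` is not a zero
divisor modulo `ϖ`.
-/

set_option autoImplicit false

namespace Pool.Agent.DIL

variable {S : Type*} [CommRing S]

section reg

variable {ϖ γ : S}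

theorem pow_succ_eq (m : ℕ) (x : S) :
    x ∈ (Ideal.span {γ, ϖ} : Ideal S) ^ (m + 1) ↔
      ∃ s, ∃ r ∈ (Ideal.span {γ, ϖ} : Ideal S) ^ m, x = s * γ ^ (m + 1) + ϖ * r := by
  constructor
  · induction m generalizing x with
    | zero =>
      intro h
      rw [zero_add, pow_one, Ideal.mem_span_pair] at h
      obtain ⟨a, b, rfl⟩ := h
      exact ⟨a, b, by rw [pow_zero, Ideal.one_eq_top]; exact Submodule.mem_top, by ring⟩
    | succ m ih =>
      intro h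
      rw [pow_succ' (Ideal.span {γ, ϖ}) (m + 1)] at h
      refine Submodule.mul_induction_on h ?_ ?_
      · intro a ha b hb
        rw [Ideal.mem_span_pair] at ha
        obtain ⟨a₁, a₂, rfl⟩ := ha
        obtain ⟨s, r, hr, hb'⟩ := ih b hb
        refine ⟨a₁ * s, a₁ * (γ * r) + a₂ * b, ?_, ?_⟩
        · refine Ideal.add_mem _ (Ideal.mul_mem_left _ _ ?_) (Ideal.mul_mem_left _ _ hb)
          rw [pow_succ']
          exact Ideal.mul_mem_mul (Ideal.subset_span (by simp)) hr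
        · calc (a₁ * γ + a₂ * ϖ) * b = a₁ * γ * b + a₂ * ϖ * b := by ring
            _ = a₁ * γ * (s * γ ^ (m + 1) + ϖ * r) + a₂ * ϖ * b := by rw [← hb']
            _ = _ := by ring
      · rintro x y ⟨s, r, hr, rfl⟩ ⟨s', r', hr', rfl⟩
        exact ⟨s + s', r + r', Ideal.add_mem _ hr hr', by ring⟩
  · rintro ⟨s, r, hr, rfl⟩
    refine Ideal.add_mem _ (Ideal.mul_mem_left _ _ (Ideal.pow_mem_pow (Ideal.subset_span
      (by simp)) _)) ?_
    rw [pow_succ']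
    exact Ideal.mul_mem_mul (Ideal.subset_span (by simp)) hr

variable (hϖ : ∀ x : S, ϖ * x = 0 → x = 0) (hγ : ∀ x : S, ϖ ∣ γ * x → ϖ ∣ x)

include hγ in
theorem dvd_of_pow (m : ℕ) {s : S} (h : ϖ ∣ γ ^ m * s) : ϖ ∣ s := by
  induction m with
  | zero => simpa using h
  | succ m ih =>
    apply ih
    apply hγ
    rwa [pow_succ', mul_assoc] at h

include hϖ in
theorem cancel {x y : S} (h : ϖ * x = ϖ * y) : x = y := by
  have h1 : ϖ * (x - y) = 0 := by rw [mul_sub, h, sub_self]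
  exact sub_eq_zero.1 (hϖ _ h1)

include hϖ hγ in
/-- `ϖ` is not a zero divisor on the associated graded ring -/
theorem mem_of_mul_mem (m : ℕ) {x : S} (h : ϖ * x ∈ (Ideal.span {γ, ϖ} : Ideal S) ^ (m + 1)) :
    x ∈ (Ideal.span {γ, ϖ} : Ideal S) ^ m := by
  obtain ⟨s, r, hr, hx⟩ := (pow_succ_eq m _).1 h
  have h1 : ϖ ∣ γ ^ (m + 1) * s := by
    refine ⟨x - r, ?_⟩
    rw [mul_sub, hx]
    ring
  obtain ⟨t, rfl⟩ := dvd_of_pow hγ _ h1
  have h2 : x = t * γ ^ (m + 1) + r := by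
    apply cancel hϖ
    rw [hx]
    ring
  rw [h2]
  refine Ideal.add_mem _ (Ideal.mul_mem_left _ _ ?_) hr
  rw [pow_succ]
  exact Ideal.mul_mem_right _ _ (Ideal.pow_mem_pow (Ideal.subset_span (by simp)) _)

include hϖ hγ in
theorem mem_of_pow_mul_mem (m k : ℕ) {x : S}
    (h : ϖ ^ k * x ∈ (Ideal.span {γ, ϖ} : Ideal S) ^ (m + k)) :
    x ∈ (Ideal.span {γ, ϖ} : Ideal S) ^ m := by
  induction k with
  | zero => simpa using h
  | succ k ih =>
    apply ih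
    apply mem_of_mul_mem hϖ hγ
    rw [← mul_assoc, ← pow_succ']
    exact h

include hϖ hγ in
/-- `γ` is not a zero divisor on the associated graded ring -/
theorem mem_of_gam_mem (m : ℕ) {x : S} (h : γ * x ∈ (Ideal.span {γ, ϖ} : Ideal S) ^ (m + 1)) :
    x ∈ (Ideal.span {γ, ϖ} : Ideal S) ^ m := by
  induction m generalizing x with
  | zero => rw [pow_zero, Ideal.one_eq_top]; exact Submodule.mem_top
  | succ m ih =>
    obtain ⟨s, r, hr, hx⟩ := (pow_succ_eq (m + 1) _).1 h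
    have h1 : γ * (x - s * γ ^ (m + 1)) = ϖ * r := by
      rw [mul_sub, hx]
      ring
    obtain ⟨t, ht⟩ := hγ _ (Dvd.intro _ h1.symm)
    rw [ht] at h1
    have h2 : γ * t = r := by
      apply cancel hϖ
      rw [← h1]
      ring
    rw [← h2] at hr
    exact (pow_succ_eq m _).2 ⟨s, t, ih hr, by rw [← ht]; ring⟩

end reg

section loc

variable {ϖ γ : S} {I : Ideal S} {h : S}

/-- the element `u = h ^ N + i` with `u I ⊆ (γ, ϖ)` -/
theorem exists_u (hI : I.FG)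
    (hL : ∀ y ∈ I, ∃ N : ℕ, h ^ N * y ∈ Ideal.span {γ, ϖ} ⊔ I ^ 2) :
    ∃ (N : ℕ) (i : S), i ∈ I ∧ ∀ y ∈ I, (h ^ N + i) * y ∈ (Ideal.span {γ, ϖ} : Ideal S) := by
  classical
  -- a uniform exponent
  obtain ⟨m, g, hg⟩ := Submodule.fg_iff_exists_fin_generating_family.1 hI
  have hgI : ∀ k, g k ∈ I := fun k => by
    rw [← hg]
    exact Submodule.subset_span ⟨k, rfl⟩
  choose n hn using fun k => hL (g k) (hgI k)
  set M := ∑ k, n k with hM
  have h2 : ∀ k, h ^ M * g k ∈ Ideal.span {γ, ϖ} ⊔ I ^ 2 := by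
    intro k
    have h4 : n k ≤ M := Finset.single_le_sum (f := n) (fun _ _ => Nat.zero_le _)
      (Finset.mem_univ k)
    obtain ⟨e, he⟩ := Nat.exists_eq_add_of_le h4
    rw [he, pow_add, mul_comm (h ^ n k), mul_assoc]
    exact Ideal.mul_mem_left _ _ (hn k)
  -- the matrix
  have h3 : ∀ y ∈ I ^ 2, ∃ a : Fin m → S, (∀ l, a l ∈ I) ∧ y = ∑ l, a l * g l := by
    intro y hy
    have h5 : I ^ 2 = I • Submodule.span S (Set.range g) := by
      rw [hg, pow_two]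
      rfl
    rw [h5] at hy
    obtain ⟨a, ha, hay⟩ := (Submodule.mem_ideal_smul_span_iff_exists_sum I g y).1 hy
    refine ⟨a, ha, ?_⟩
    rw [← hay, Finsupp.sum_fintype _ _ (fun i => by simp)]
    rfl
  have h4 : ∀ k, ∃ (a : Fin m → S) (j : S), (∀ l, a l ∈ I) ∧
      j ∈ (Ideal.span {γ, ϖ} : Ideal S) ∧ h ^ M * g k = ∑ l, a l * g l + j := by
    intro k
    obtain ⟨j, hj, y, hy, hjy⟩ := Submodule.mem_sup.1 (h2 k)
    obtain ⟨a, ha, rfl⟩ := h3 y hy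
    exact ⟨a, j, ha, hj, by rw [← hjy, add_comm]⟩
  choose a j ha hj hag using h4
  let A : Matrix (Fin m) (Fin m) S := Matrix.scalar (Fin m) (h ^ M) - Matrix.of a
  have h5 : A.mulVec g = j := by
    funext k
    rw [Matrix.sub_mulVec]
    simp only [Pi.sub_apply, Matrix.scalar_apply, Matrix.mulVec_diagonal]
    rw [hag k]
    show ∑ l, a k l * g l + j k - ∑ l, a k l * g l = j k
    ring
  have h6 : ∀ k, A.det * g k ∈ (Ideal.span {γ, ϖ} : Ideal S) := by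
    intro k
    have h7 : (A.adjugate * A).mulVec g = A.adjugate.mulVec j := by
      rw [← h5, Matrix.mulVec_mulVec]
    rw [Matrix.adjugate_mul] at h7
    have h8 := congrFun h7 k
    rw [Matrix.smul_mulVec, Matrix.one_mulVec] at h8
    simp only [Pi.smul_apply, smul_eq_mul] at h8
    rw [h8]
    show ∑ l, A.adjugate k l * j l ∈ (Ideal.span {γ, ϖ} : Ideal S)
    exact Ideal.sum_mem _ fun l _ => Ideal.mul_mem_left _ _ (hj l)
  have h7 : A.det - h ^ (M * m) ∈ I := by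
    rw [← Ideal.Quotient.eq_zero_iff_mem, map_sub, RingHom.map_det, sub_eq_zero]
    have h8 : (Ideal.Quotient.mk I).mapMatrix A =
        Matrix.scalar (Fin m) (Ideal.Quotient.mk I (h ^ M)) := by
      ext k l
      simp only [A, RingHom.mapMatrix_apply, Matrix.map_apply, Matrix.sub_apply,
        Matrix.scalar_apply, map_sub, Matrix.of_apply]
      rw [Ideal.Quotient.eq_zero_iff_mem.2 (ha k l), sub_zero]
      by_cases hkl : k = l
      · subst hkl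
        simp
      · simp [Matrix.diagonal_apply_ne _ hkl]
    rw [h8, Matrix.scalar_apply, Matrix.det_diagonal, Finset.prod_const, Finset.card_univ,
      Fintype.card_fin, ← map_pow, ← pow_mul]
  refine ⟨M * m, A.det - h ^ (M * m), h7, fun y hy => ?_⟩
  rw [add_sub_cancel]
  have h8 : I ≤ Submodule.comap (LinearMap.mulLeft S A.det) (Ideal.span {γ, ϖ} : Ideal S) := by
    rw [← hg]
    refine Submodule.span_le.2 ?_
    rintro _ ⟨k, rfl⟩
    exact h6 k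
  exact h8 hy

/-- the standing hypotheses: locally on `h ≠ 0`, near `I`, the ideal `I` is generated by the
regular sequence `ϖ, γ` -/
structure Loc (ϖ γ : S) (I : Ideal S) (h : S) : Prop where
  fg : I.FG
  ϖ_mem : ϖ ∈ I
  γ_mem : γ ∈ I
  nz : ∀ x : S, ϖ * x = 0 → x = 0
  nzm : ∀ x : S, ϖ ∣ γ * x → ϖ ∣ x
  gen : ∀ y ∈ I, ∃ N : ℕ, h ^ N * y ∈ Ideal.span {γ, ϖ} ⊔ I ^ 2

variable (L : Loc ϖ γ I h)

include L in
theorem Loc.span_le : (Ideal.span {γ, ϖ} : Ideal S) ≤ I := by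
  rw [Ideal.span_le]
  rintro x (rfl | rfl)
  · exact L.γ_mem
  · exact L.ϖ_mem

include L in
/-- an element `u` which is `h ^ N` modulo `I`, with `u I ⊆ (γ, ϖ)` -/
theorem Loc.exists_u : ∃ (N : ℕ) (u : S), u - h ^ N ∈ I ∧
    ∀ (m j : ℕ) (y : S), y ∈ I ^ j → j ≤ m → u ^ m * y ∈ (Ideal.span {γ, ϖ} : Ideal S) ^ j := by
  obtain ⟨N, i, hi, hu⟩ := DIL.exists_u L.fg L.gen
  refine ⟨N, h ^ N + i, by rwa [add_sub_cancel_left], ?_⟩
  intro m j y hy hjm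
  obtain ⟨e, rfl⟩ := Nat.exists_eq_add_of_le hjm
  rw [pow_add, mul_comm ((h ^ N + i) ^ j), mul_assoc]
  apply Ideal.mul_mem_left
  clear hjm
  induction j generalizing y with
  | zero => rw [pow_zero, Ideal.one_eq_top]; exact Submodule.mem_top
  | succ j ih =>
    rw [pow_succ] at hy
    refine Submodule.mul_induction_on hy ?_ ?_
    · intro a ha b hb
      have h1 : (h ^ N + i) ^ (j + 1) * (a * b) = (h ^ N + i) ^ j * a * ((h ^ N + i) * b) := by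
        ring
      rw [h1, pow_succ]
      exact Ideal.mul_mem_mul (ih a ha) (hu b hb)
    · intro x y hx hy
      rw [mul_add]
      exact Ideal.add_mem _ hx hy

/-- powers of `u` are powers of `h` modulo `I` -/
theorem pow_sub_mem {u : S} {N : ℕ} (hu : u - h ^ N ∈ I) (m : ℕ) : u ^ m - h ^ (N * m) ∈ I := by
  rw [pow_mul]
  exact I.mem_of_dvd (sub_dvd_pow_sub_pow _ _ _) hu

theorem pow_mul_sub_mem {u : S} {N : ℕ} (hu : u - h ^ N ∈ I) (m j : ℕ) {y : S} (hy : y ∈ I ^ j) :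
    u ^ m * y - h ^ (N * m) * y ∈ I ^ (j + 1) := by
  rw [← sub_mul, pow_succ']
  exact Ideal.mul_mem_mul (pow_sub_mem hu m) hy

include L in
/-- **Kernel of `I ^ j → gr_j (D / ϖ D)`**: it is `ϖ I ^ (j - 1) + I ^ (j + 1)` up to
`h`-torsion. -/
theorem Loc.ker (j k : ℕ) {y z w : S} (hy : y ∈ I ^ j) (hz : z ∈ I ^ (j - 1)) (hz0 : j = 0 → z = 0)
    (hw : w ∈ I ^ (j + 1 + k)) (he : ϖ ^ k * y = ϖ ^ (k + 1) * z + w) :
    ∃ N : ℕ, ∃ z' ∈ I ^ (j - 1), (j = 0 → z' = 0) ∧ h ^ N * y - ϖ * z' ∈ I ^ (j + 1) := by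
  obtain ⟨N, u, hu, hup⟩ := L.exists_u
  set M := j + 1 + k with hM
  refine ⟨N * M, u ^ M * z, Ideal.mul_mem_left _ _ hz, fun h0 => by rw [hz0 h0, mul_zero], ?_⟩
  have h1 : ϖ ^ k * (u ^ M * y - ϖ * (u ^ M * z)) ∈ (Ideal.span {γ, ϖ} : Ideal S) ^ (j + 1 + k) := by
    have h2 : ϖ ^ k * (u ^ M * y - ϖ * (u ^ M * z)) = u ^ M * w := by
      have h3 : w = ϖ ^ k * y - ϖ ^ (k + 1) * z := by rw [he]; ring
      rw [h3]
      ring
    rw [h2]
    exact hup _ _ _ hw le_rfl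
  have h2 := mem_of_pow_mul_mem L.nz L.nzm (j + 1) k h1
  have h3 := Ideal.pow_right_mono L.span_le (j + 1) h2
  have h4 := pow_mul_sub_mem hu M j hy
  have h5 : h ^ (N * M) * y - ϖ * (u ^ M * z) =
      (u ^ M * y - ϖ * (u ^ M * z)) - (u ^ M * y - h ^ (N * M) * y) := by ring
  rw [h5]
  exact Ideal.sub_mem _ h3 h4

include L in
/-- **Multiplication by `γ / ϖ` is injective on `gr`**, up to `h`-torsion. -/
theorem Loc.inj (j k : ℕ) {y z w : S} (hy : y ∈ I ^ j) (hz : z ∈ I ^ j)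
    (hw : w ∈ I ^ (j + 2 + k)) (he : ϖ ^ k * (γ * y) = ϖ ^ (k + 1) * z + w) :
    ∃ N : ℕ, ∃ z' ∈ I ^ (j - 1), (j = 0 → z' = 0) ∧ h ^ N * y - ϖ * z' ∈ I ^ (j + 1) := by
  obtain ⟨N, u, hu, hup⟩ := L.exists_u
  set M := j + 2 + k with hM
  have h1 : ϖ ^ k * (γ * (u ^ M * y) - ϖ * (u ^ M * z)) ∈
      (Ideal.span {γ, ϖ} : Ideal S) ^ (j + 2 + k) := by
    have h2 : ϖ ^ k * (γ * (u ^ M * y) - ϖ * (u ^ M * z)) = u ^ M * w := by
      have h3 : w = ϖ ^ k * (γ * y) - ϖ ^ (k + 1) * z := by rw [he]; ring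
      rw [h3]
      ring
    rw [h2]
    exact hup _ _ _ hw le_rfl
  have h2 := mem_of_pow_mul_mem L.nz L.nzm (j + 2) k h1
  obtain ⟨s, r, hr, hx⟩ := (pow_succ_eq (j + 1) _).1 h2
  have h3 : γ * (u ^ M * y - s * γ ^ (j + 1)) = ϖ * (u ^ M * z + r) := by
    have h4 : γ * (u ^ M * y) = s * γ ^ (j + 1 + 1) + ϖ * r + ϖ * (u ^ M * z) := by
      rw [← hx]; ring
    rw [mul_sub, h4]
    ring
  obtain ⟨t, ht⟩ := L.nzm _ (Dvd.intro _ h3.symm)
  rw [ht] at h3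
  have h4 : γ * t = u ^ M * z + r := by
    apply cancel L.nz
    rw [← h3]
    ring
  have hzJ : u ^ M * z ∈ (Ideal.span {γ, ϖ} : Ideal S) ^ j := hup _ _ _ hz (by omega)
  have h5 : γ * t ∈ (Ideal.span {γ, ϖ} : Ideal S) ^ j := by
    rw [h4]
    exact Ideal.add_mem _ hzJ (Ideal.pow_le_pow_right (Nat.le_succ j) hr)
  have h6 := pow_mul_sub_mem hu M j hy
  have h7 : s * γ ^ (j + 1) ∈ I ^ (j + 1) := Ideal.mul_mem_left _ _ (Ideal.pow_mem_pow L.γ_mem _)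
  rcases Nat.eq_zero_or_pos j with rfl | hj
  · refine ⟨N * M, 0, Ideal.zero_mem _, fun _ => rfl, ?_⟩
    have h8 : h ^ (N * M) * y - ϖ * 0 =
        s * γ ^ (0 + 1) + ϖ * t - (u ^ M * y - h ^ (N * M) * y) := by
      rw [← ht]; ring
    rw [h8]
    refine Ideal.sub_mem _ (Ideal.add_mem _ h7 ?_) h6
    rw [zero_add, pow_one]
    exact Ideal.mul_mem_right _ _ L.ϖ_mem
  · obtain ⟨i, rfl⟩ := Nat.exists_eq_succ_of_ne_zero hj.ne'
    refine ⟨N * M, t, ?_, fun h0 => absurd h0 (Nat.succ_ne_zero i), ?_⟩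
    · exact Ideal.pow_right_mono L.span_le _ (mem_of_gam_mem L.nz L.nzm i h5)
    · have h8 : h ^ (N * M) * y - ϖ * t =
          s * γ ^ (i.succ + 1) - (u ^ M * y - h ^ (N * M) * y) := by
        have : u ^ M * y = s * γ ^ (i.succ + 1) + ϖ * t := by rw [← ht]; ring
        rw [this]
        ring
      rw [h8]
      exact Ideal.sub_mem _ h7 h6

include L in
/-- **Multiplication by `γ / ϖ` is surjective on `gr`**, up to `h`-torsion. -/
theorem Loc.surj (j : ℕ) {z : S} (hz : z ∈ I ^ (j + 1)) :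
    ∃ N : ℕ, ∃ y ∈ I ^ j, ∃ y' ∈ I ^ j, h ^ N * z - γ * y - ϖ * y' ∈ I ^ (j + 2) := by
  obtain ⟨N, u, hu, hup⟩ := L.exists_u
  have h1 := hup (j + 1) (j + 1) z hz le_rfl
  obtain ⟨s, r, hr, hx⟩ := (pow_succ_eq j _).1 h1
  refine ⟨N * (j + 1), s * γ ^ j, Ideal.mul_mem_left _ _ (Ideal.pow_mem_pow L.γ_mem _), r,
    Ideal.pow_right_mono L.span_le _ hr, ?_⟩
  have h2 : h ^ (N * (j + 1)) * z - γ * (s * γ ^ j) - ϖ * r =
      -(u ^ (j + 1) * z - h ^ (N * (j + 1)) * z) := by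
    rw [hx]
    ring
  rw [h2]
  exact Ideal.neg_mem_iff _ |>.2 (pow_mul_sub_mem hu (j + 1) (j + 1) hz)

end loc

section glue

/-- the submodule `ϖ I ^ (j - 1) + I ^ (j + 1)` of `I ^ j` -/
def Tj (ϖ : S) (I : Ideal S) (j : ℕ) : Ideal S :=
  (if j = 0 then ⊥ else Ideal.span {ϖ} * I ^ (j - 1)) ⊔ I ^ (j + 1)

variable {ϖ : S} {I : Ideal S}

theorem mem_Tj {j : ℕ} {y : S} :
    y ∈ Tj ϖ I j ↔ ∃ z ∈ I ^ (j - 1), (j = 0 → z = 0) ∧ y - ϖ * z ∈ I ^ (j + 1) := by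
  unfold Tj
  rw [Submodule.mem_sup]
  constructor
  · rintro ⟨u, hu, v, hv, rfl⟩
    split_ifs at hu with h
    · rw [Submodule.mem_bot] at hu
      subst hu
      exact ⟨0, Ideal.zero_mem _, fun _ => rfl, by rwa [mul_zero, sub_zero, zero_add]⟩
    · obtain ⟨z, hz, rfl⟩ := Ideal.mem_span_singleton_mul.1 hu
      exact ⟨z, hz, fun h' => absurd h' h, by rwa [add_sub_cancel_left]⟩
  · rintro ⟨z, hz, hz0, hy⟩
    refine ⟨ϖ * z, ?_, y - ϖ * z, hy, by ring⟩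
    split_ifs with h
    · rw [hz0 h, mul_zero]
      exact Submodule.zero_mem _
    · exact Ideal.mem_span_singleton_mul.2 ⟨z, hz, rfl⟩

theorem pow_le_Tj (j : ℕ) : I ^ (j + 1) ≤ Tj ϖ I j := le_sup_right

theorem mul_mem_Tj {j : ℕ} {s y : S} (hs : s ∈ I) (hy : y ∈ I ^ j) : s * y ∈ Tj ϖ I j := by
  apply pow_le_Tj
  rw [pow_succ']
  exact Ideal.mul_mem_mul hs hy

theorem Tj_mul {a j : ℕ} (ha : 0 < a) {t y : S} (ht : t ∈ Tj ϖ I a) (hy : y ∈ I ^ j) :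
    t * y ∈ Tj ϖ I (j + a) := by
  obtain ⟨z, hz, -, hw⟩ := mem_Tj.1 ht
  refine mem_Tj.2 ⟨z * y, ?_, fun h => by omega, ?_⟩
  · have h1 : j + a - 1 = (a - 1) + j := by omega
    rw [h1, pow_add]
    exact Ideal.mul_mem_mul hz hy
  · have h1 : t * y - ϖ * (z * y) = (t - ϖ * z) * y := by ring
    have h2 : j + a + 1 = (a + 1) + j := by ring
    rw [h1, h2, pow_add]
    exact Ideal.mul_mem_mul hw hy

/-- gluing over the charts `x q` -/
theorem glue {Q : Type*} {x : Q → S} {h : S}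
    (hc : ∃ N : ℕ, h ^ N ∈ Ideal.span (Set.range x) ⊔ I) {j : ℕ} {y : S} (hy : y ∈ I ^ j)
    (hx : ∀ q, ∃ N : ℕ, x q ^ N * y ∈ Tj ϖ I j) : ∃ N : ℕ, h ^ N * y ∈ Tj ϖ I j := by
  let c : Ideal S := Submodule.comap (LinearMap.toSpanSingleton S S y) (Tj ϖ I j)
  have hmem : ∀ s, s ∈ c ↔ s * y ∈ Tj ϖ I j := fun s => Iff.rfl
  have h1 : Ideal.span (Set.range x) ⊔ I ≤ c.radical := by
    refine sup_le ?_ ?_
    · rw [Ideal.span_le]
      rintro _ ⟨q, rfl⟩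
      obtain ⟨N, hN⟩ := hx q
      exact ⟨N, hN⟩
    · refine le_trans ?_ Ideal.le_radical
      intro s hs
      exact mul_mem_Tj hs hy
  obtain ⟨N, hN⟩ := hc
  obtain ⟨M, hM⟩ := h1 hN
  rw [← pow_mul] at hM
  exact ⟨N * M, hM⟩

variable {Q : Type*} {x f : Q → S} {h : S} (L : ∀ q, Loc ϖ (f q) I (x q))
  (hc : ∃ N : ℕ, h ^ N ∈ Ideal.span (Set.range x) ⊔ I)

include L hc in
theorem ker_glue (j k : ℕ) {y z w : S} (hy : y ∈ I ^ j) (hz : z ∈ I ^ (j - 1))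
    (hz0 : j = 0 → z = 0) (hw : w ∈ I ^ (j + 1 + k)) (he : ϖ ^ k * y = ϖ ^ (k + 1) * z + w) :
    ∃ N : ℕ, h ^ N * y ∈ Tj ϖ I j := by
  refine glue hc hy fun q => ?_
  obtain ⟨N, z', hz', h0, h1⟩ := (L q).ker j k hy hz hz0 hw he
  exact ⟨N, mem_Tj.2 ⟨z', hz', h0, h1⟩⟩

include L in
theorem inj_one (q : Q) {j : ℕ} {y : S} (hy : y ∈ I ^ j) (h : f q * y ∈ Tj ϖ I (j + 1)) :
    ∃ N : ℕ, x q ^ N * y ∈ Tj ϖ I j := by
  obtain ⟨z, hz, -, hw⟩ := mem_Tj.1 h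
  rw [Nat.add_sub_cancel] at hz
  obtain ⟨N, z', hz', h0, h1⟩ := (L q).inj j 0 hy hz (w := f q * y - ϖ * z) hw (by ring)
  exact ⟨N, mem_Tj.2 ⟨z', hz', h0, h1⟩⟩

include L in
theorem inj_pow (q : Q) (m : ℕ) {j : ℕ} {y : S} (hy : y ∈ I ^ j)
    (h : f q ^ m * y ∈ Tj ϖ I (j + m)) : ∃ N : ℕ, x q ^ N * y ∈ Tj ϖ I j := by
  induction m generalizing y with
  | zero => exact ⟨0, by simpa using h⟩
  | succ m ih =>
    have h1 : f q * (f q ^ m * y) ∈ Tj ϖ I (j + m + 1) := by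
      have : f q * (f q ^ m * y) = f q ^ (m + 1) * y := by ring
      rw [this]
      exact h
    have h2 : f q ^ m * y ∈ I ^ (j + m) := by
      rw [add_comm, pow_add]
      exact Ideal.mul_mem_mul (Ideal.pow_mem_pow (L q).γ_mem m) hy
    obtain ⟨N, hN⟩ := inj_one L q h2 h1
    have h3 : x q ^ N * (f q ^ m * y) = f q ^ m * (x q ^ N * y) := by ring
    rw [h3] at hN
    obtain ⟨M, hM⟩ := ih (Ideal.mul_mem_left _ _ hy) hN
    refine ⟨M + N, ?_⟩
    rwa [pow_add, mul_assoc]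

include L hc in
theorem inj_glue [Finite Q] {a : ℕ} (ha : 0 < a) {γ : S}
    (hg : ∀ y ∈ I ^ a, ∃ N : ℕ, h ^ N * y ∈ Ideal.span {γ} ⊔ Tj ϖ I a) {j : ℕ} {y : S}
    (hy : y ∈ I ^ j) (hγ : γ * y ∈ Tj ϖ I (j + a)) : ∃ N : ℕ, h ^ N * y ∈ Tj ϖ I j := by
  have := Fintype.ofFinite Q
  choose N hN using fun q => hg (f q ^ a) (Ideal.pow_mem_pow (L q).γ_mem a)
  obtain ⟨M, hM⟩ := glue (ϖ := ϖ) hc (y := h ^ (∑ q, N q) * y) (Ideal.mul_mem_left _ _ hy)
    (fun q => by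
      apply inj_pow L q a (Ideal.mul_mem_left _ _ hy)
      obtain ⟨e, he⟩ := Nat.exists_eq_add_of_le
        (Finset.single_le_sum (f := N) (fun _ _ => Nat.zero_le _) (Finset.mem_univ q))
      obtain ⟨u, hu, t, ht, hut⟩ := Submodule.mem_sup.1 (hN q)
      obtain ⟨s, rfl⟩ := Ideal.mem_span_singleton'.1 hu
      have h1 : f q ^ a * (h ^ (∑ q, N q) * y) = h ^ e * (s * (γ * y) + t * y) := by
        have : s * (γ * y) + t * y = (s * γ + t) * y := by ring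
        rw [this, hut, he, pow_add]
        ring
      rw [h1]
      exact Ideal.mul_mem_left _ _ (Ideal.add_mem _ (Ideal.mul_mem_left _ _ hγ)
        (Tj_mul ha ht hy)))
  refine ⟨M + ∑ q, N q, ?_⟩
  rwa [pow_add, mul_assoc]

theorem surj_glue {a : ℕ} (ha : 0 < a) (hI : (I ^ a).FG) {γ : S}
    (hg : ∀ y ∈ I ^ a, ∃ N : ℕ, h ^ N * y ∈ Ideal.span {γ} ⊔ Tj ϖ I a) {j : ℕ} {z : S}
    (hz : z ∈ I ^ (j + a)) : ∃ N : ℕ, ∃ y ∈ I ^ j, h ^ N * z - γ * y ∈ Tj ϖ I (j + a) := by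
  -- a uniform exponent
  obtain ⟨m, g, hgen⟩ := Submodule.fg_iff_exists_fin_generating_family.1 hI
  choose n hn using fun k => hg (g k) (by
    rw [← hgen]
    exact Submodule.subset_span ⟨k, rfl⟩)
  have h1 : ∀ y ∈ I ^ a, h ^ (∑ k, n k) * y ∈ Ideal.span {γ} ⊔ Tj ϖ I a := by
    have h2 : I ^ a ≤ Submodule.comap (LinearMap.mulLeft S (h ^ (∑ k, n k)))
        (Ideal.span {γ} ⊔ Tj ϖ I a) := by
      rw [← hgen]
      refine Submodule.span_le.2 ?_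
      rintro _ ⟨k, rfl⟩
      show h ^ (∑ k, n k) * g k ∈ Ideal.span {γ} ⊔ Tj ϖ I a
      obtain ⟨e, he⟩ := Nat.exists_eq_add_of_le
        (Finset.single_le_sum (f := n) (fun _ _ => Nat.zero_le _) (Finset.mem_univ k))
      rw [he, pow_add, mul_comm (h ^ n k), mul_assoc]
      exact Ideal.mul_mem_left _ _ (hn k)
    exact fun y hy => h2 hy
  refine ⟨∑ k, n k, ?_⟩
  rw [add_comm j a, pow_add] at hz
  refine Submodule.mul_induction_on hz ?_ ?_
  · intro u hu v hv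
    obtain ⟨p, hp, t, ht, hpt⟩ := Submodule.mem_sup.1 (h1 u hu)
    obtain ⟨s, rfl⟩ := Ideal.mem_span_singleton'.1 hp
    refine ⟨s * v, Ideal.mul_mem_left _ _ hv, ?_⟩
    have h3 : h ^ (∑ k, n k) * (u * v) - γ * (s * v) = t * v := by
      rw [← mul_assoc, ← hpt]
      ring
    rw [h3]
    exact Tj_mul ha ht hv
  · rintro u v ⟨y, hy, hu⟩ ⟨y', hy', hv⟩
    refine ⟨y + y', Ideal.add_mem _ hy hy', ?_⟩
    have h3 : h ^ (∑ k, n k) * (u + v) - γ * (y + y') =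
        (h ^ (∑ k, n k) * u - γ * y) + (h ^ (∑ k, n k) * v - γ * y') := by ring
    rw [h3]
    exact Ideal.add_mem _ hu hv

end glue

end Pool.Agent.DIL
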