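import Pool.Agent.DIL.Red
import Pool.Agent.DIL.Loc

/-!
# The dilatation `D = S[I / ϖ]` and the balanced filtration of `D / ϖ D` (MP_db3ab1_ag, DIL)
-/

set_option autoImplicit false

open MvPolynomial

namespace Pool.Agent.DIL

noncomputable section

section fil

variable {V B : Type} [CommRing V] [CommRing B] [Algebra V B] (ϖ : V) (S : Subalgebra V B)
  (I : Ideal S)

/-- `ϖ ^ (-j) I ^ j` -/
def fil (j : ℕ) : Submodule S B where
  carrier := {y | ∃ z ∈ I ^ j, algebraMap V B ϖ ^ j * y = (z : B)}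
  add_mem' := by
    rintro y y' ⟨z, hz, h⟩ ⟨z', hz', h'⟩
    exact ⟨z + z', Ideal.add_mem _ hz hz', by rw [mul_add, h, h']; rfl⟩
  zero_mem' := ⟨0, Ideal.zero_mem _, by rw [mul_zero]; rfl⟩
  smul_mem' := by
    rintro s y ⟨z, hz, h⟩
    refine ⟨s * z, Ideal.mul_mem_left _ _ hz, ?_⟩
    rw [Subalgebra.smul_def, smul_eq_mul, mul_left_comm, h]
    rfl

variable {ϖ S I}

theorem mem_fil {j : ℕ} {y : B} :
    y ∈ fil ϖ S I j ↔ ∃ z ∈ I ^ j, algebraMap V B ϖ ^ j * y = (z : B) := Iff.rfl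

theorem fil_mono (hϖ : algebraMap V S ϖ ∈ I) : Monotone (fil ϖ S I) := by
  refine monotone_nat_of_le_succ fun j => ?_
  rintro y ⟨z, hz, h⟩
  refine ⟨algebraMap V S ϖ * z, ?_, ?_⟩
  · rw [pow_succ']
    exact Ideal.mul_mem_mul hϖ hz
  · rw [pow_succ', mul_assoc, h]
    rfl

theorem mem_fil_zero {y : B} : y ∈ fil ϖ S I 0 ↔ y ∈ S := by
  rw [mem_fil]
  simp only [pow_zero, one_mul, Ideal.one_eq_top, Submodule.mem_top, true_and]
  constructor
  · rintro ⟨z, rfl⟩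
    exact z.2
  · intro hy
    exact ⟨⟨y, hy⟩, rfl⟩

theorem fil_mul {i j : ℕ} {y y' : B} (hy : y ∈ fil ϖ S I i) (hy' : y' ∈ fil ϖ S I j) :
    y * y' ∈ fil ϖ S I (i + j) := by
  obtain ⟨z, hz, h⟩ := hy
  obtain ⟨z', hz', h'⟩ := hy'
  refine ⟨z * z', ?_, ?_⟩
  · rw [pow_add]
    exact Ideal.mul_mem_mul hz hz'
  · rw [pow_add, mul_mul_mul_comm, h, h']
    rfl

/-- **The dilatation** `D = ⋃ ϖ ^ (-j) I ^ j`. -/
def dil (hϖ : algebraMap V S ϖ ∈ I) : Subalgebra V B where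
  carrier := {y | ∃ j, y ∈ fil ϖ S I j}
  mul_mem' := by
    rintro y y' ⟨j, hy⟩ ⟨j', hy'⟩
    exact ⟨j + j', fil_mul hy hy'⟩
  add_mem' := by
    rintro y y' ⟨j, hy⟩ ⟨j', hy'⟩
    exact ⟨max j j', Submodule.add_mem _ (fil_mono hϖ (le_max_left _ _) hy)
      (fil_mono hϖ (le_max_right _ _) hy')⟩
  algebraMap_mem' := fun v => ⟨0, mem_fil_zero.2 (S.algebraMap_mem v)⟩

theorem mem_dil {hϖ : algebraMap V S ϖ ∈ I} {y : B} : y ∈ dil hϖ ↔ ∃ j, y ∈ fil ϖ S I j := Iff.rfl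

theorem le_dil (hϖ : algebraMap V S ϖ ∈ I) : S ≤ dil hϖ := fun _ hy => ⟨0, mem_fil_zero.2 hy⟩

end fil

section hom

variable {V B : Type} [CommRing V] [CommRing B] [Algebra V B] {ϖ : V} {ℬ : ℕ → Submodule V B}
  [GradedAlgebra ℬ] {S : Subalgebra V B} {I : Ideal S}

/-- homogeneous ideals of a homogeneous subalgebra -/
def HomId (ℬ : ℕ → Submodule V B) [GradedAlgebra ℬ] (I : Ideal S) : Prop :=
  ∀ z ∈ I, ∀ n, ∃ z' ∈ I, (z' : B) = cp ℬ n (z : B)

theorem cp_sub (hS : HomSub ℬ S) (n : ℕ) (x : S) :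
    letI := gradedSub hS
    ((cp (sub ℬ S) n x : S) : B) = cp ℬ n (x : B) := by
  let _ := gradedSub hS
  show ((cp (sub ℬ S) n x : S) : B) = cp ℬ n (x : B)
  induction x using DirectSum.Decomposition.inductionOn (sub ℬ S) with
  | zero => simp only [map_zero, ZeroMemClass.coe_zero]
  | homogeneous m =>
    rename_i i
    by_cases hin : i = n
    · subst hin
      have h1 : ((m : S) : B) ∈ ℬ i := m.2
      rw [cp_self m.2, cp_self h1]
    · have h1 : ((m : S) : B) ∈ ℬ i := m.2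
      rw [cp_ne m.2 hin, cp_ne h1 hin]
      rfl
  | add x y hx hy =>
    rw [map_add]
    push_cast
    rw [map_add, hx, hy]

theorem homId_iff (hS : HomSub ℬ S) :
    letI := gradedSub hS
    HomId ℬ I ↔ I.IsHomogeneous (sub ℬ S) := by
  let _ := gradedSub hS
  constructor
  · intro h n z hz
    obtain ⟨z', hz', h1⟩ := h z hz n
    have h2 : z' = cp (sub ℬ S) n z := Subtype.ext (by rw [h1, cp_sub hS])
    rw [h2] at hz'
    exact hz'
  · intro h z hz n
    exact ⟨_, h n hz, cp_sub hS n z⟩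

theorem HomId.pow (hS : HomSub ℬ S) (hI : HomId ℬ I) (j : ℕ) : HomId ℬ (I ^ j) := by
  let _ := gradedSub hS
  rw [homId_iff hS] at hI ⊢
  induction j with
  | zero =>
    rw [pow_zero, Ideal.one_eq_top]
    exact Ideal.IsHomogeneous.top _
  | succ j ih =>
    rw [pow_succ]
    exact ih.mul hI

theorem cp_fil (hS : HomSub ℬ S) (hI : HomId ℬ I) {j : ℕ} {y : B} (hy : y ∈ fil ϖ S I j)
    (n : ℕ) : cp ℬ n y ∈ fil ϖ S I j := by
  obtain ⟨z, hz, h⟩ := hy
  obtain ⟨z', hz', h'⟩ := HomId.pow hS hI j z hz n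
  refine ⟨z', hz', ?_⟩
  rw [h', ← h, ← map_pow, ← Algebra.smul_def, ← Algebra.smul_def, map_smul]

theorem homSub_dil (hS : HomSub ℬ S) (hI : HomId ℬ I) (hϖ : algebraMap V S ϖ ∈ I) :
    HomSub ℬ (dil hϖ) := by
  rintro y ⟨j, hy⟩ n
  exact ⟨j, cp_fil hS hI hy n⟩

omit [GradedAlgebra ℬ] in
theorem dil_noeth [IsNoetherianRing S] (hϖ : algebraMap V S ϖ ∈ I)
    (hu : IsUnit (algebraMap V B ϖ)) : IsNoetherianRing (dil hϖ) := by
  obtain ⟨m, g, hg⟩ := Submodule.fg_iff_exists_fin_generating_family.1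
    (IsNoetherian.noetherian I)
  obtain ⟨v, hv⟩ := hu.exists_left_inv
  have hgI : ∀ k, g k ∈ I := fun k => by
    rw [← hg]
    exact Submodule.subset_span ⟨k, rfl⟩
  have hmul : ∀ x : B, algebraMap V B ϖ * (v * x) = x := fun x => by
    rw [← mul_assoc, mul_comm (algebraMap V B ϖ) v, hv, one_mul]
  have hw : ∀ k, v * (g k : B) ∈ dil hϖ := fun k =>
    ⟨1, g k, by rw [pow_one]; exact hgI k, by rw [pow_one, hmul]⟩
  let ψ : MvPolynomial (Fin m) S →+* dil hϖ :=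
    eval₂Hom (Subalgebra.inclusion (le_dil hϖ)).toRingHom (fun k => ⟨v * g k, hw k⟩)
  have hC : ∀ s : S, ψ (C s) = ⟨s, le_dil hϖ s.2⟩ := fun s => eval₂Hom_C _ _ _
  have hX : ∀ k, ψ (X k) = ⟨v * g k, hw k⟩ := fun k => eval₂Hom_X' _ _ _
  have h1 : ∀ u ∈ I, ∃ p, (ψ p : B) = v * u := by
    intro u hu
    rw [← hg] at hu
    refine Submodule.span_induction ?_ ?_ ?_ ?_ hu
    · rintro _ ⟨k, rfl⟩
      exact ⟨X k, by rw [hX]⟩
    · exact ⟨0, by rw [map_zero]; simp⟩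
    · rintro x y _ _ ⟨p, hp⟩ ⟨q, hq⟩
      exact ⟨p + q, by rw [map_add]; push_cast; rw [hp, hq, mul_add]⟩
    · rintro s x _ ⟨p, hp⟩
      refine ⟨C s * p, ?_⟩
      rw [map_mul, hC, smul_eq_mul]
      push_cast
      rw [hp]
      ring
  have h2 : ∀ j, ∀ z ∈ I ^ j, ∃ p, (ψ p : B) = v ^ j * z := by
    intro j
    induction j with
    | zero =>
      intro z _
      exact ⟨C z, by rw [hC, pow_zero, one_mul]⟩
    | succ j ih =>
      intro z hz
      rw [pow_succ'] at hz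
      refine Submodule.mul_induction_on hz ?_ ?_
      · intro a ha b hb
        obtain ⟨p, hp⟩ := h1 a ha
        obtain ⟨q, hq⟩ := ih b hb
        refine ⟨p * q, ?_⟩
        rw [map_mul]
        push_cast
        rw [hp, hq]
        ring
      · rintro x y ⟨p, hp⟩ ⟨q, hq⟩
        exact ⟨p + q, by rw [map_add]; push_cast; rw [hp, hq, mul_add]⟩
  have hsurj : Function.Surjective ψ := by
    rintro ⟨y, j, z, hz, h⟩
    obtain ⟨p, hp⟩ := h2 j z hz
    have h3 : v ^ j * (z : B) = y := by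
      rw [← h, ← mul_assoc, ← mul_pow, hv, one_pow, one_mul]
    exact ⟨p, Subtype.ext (hp.trans h3)⟩
  exact isNoetherianRing_of_surjective _ _ ψ hsurj

end hom

section inp

/-- **The input**: `S` is a homogeneous noetherian subalgebra of the graded algebra `B`, `I` a
homogeneous ideal with `ϖ ∈ I`, and `S / I` is finite over `V[h_0, h_1, h_2]`.  The elements
`γ i ∈ I ^ a` (of degree `c - b`) generate `I ^ a` modulo `ϖ I ^ (a - 1) + I ^ (a + 1)` where
`h i ≠ 0`, compatibly.  On the charts `x q ≠ 0`, `I` is generated by `ϖ` and `f q` modulo `I ^ 2`,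
and `f q` is not a zero divisor modulo `ϖ`. -/
structure In {V κ : Type} [CommRing V] [Field κ] {σ : V →+* κ} {ϖ : V} (hr : Res σ ϖ) {B : Type}
    [CommRing B] [Algebra V B] (ℬ : ℕ → Submodule V B) [GradedAlgebra ℬ] (S : Subalgebra V B)
    (I : Ideal S) (h : Fin 3 → S) (a b c : ℕ) (γ : Fin 3 → S) {Q : Type} (x f : Q → S) :
    Prop where
  unit : IsUnit (algebraMap V B ϖ)
  homS : HomSub ℬ S
  noeth : IsNoetherianRing S
  ϖ_mem : algebraMap V S ϖ ∈ I
  homI : HomId ℬ I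
  h_deg : ∀ i, (h i : B) ∈ ℬ 1
  fin : ∃ T : Finset S, ∀ y : S, ∃ q : S → MvPolynomial (Fin 3) V,
    y - ∑ t ∈ T, aeval h (q t) * t ∈ I
  a_pos : 0 < a
  b_pos : 0 < b
  γ_mem : ∀ i, γ i ∈ I ^ a
  γ_deg : ∃ e, e + b = c ∧ ∀ i, (γ i : B) ∈ ℬ e
  gen : ∀ i, ∀ y ∈ I ^ a, ∃ N : ℕ, h i ^ N * y ∈ Ideal.span {γ i} ⊔ Tj (algebraMap V S ϖ) I a
  coc : ∀ i k, h k ^ c * γ i - h i ^ c * γ k ∈ Tj (algebraMap V S ϖ) I a
  finQ : Finite Q
  f_mem : ∀ q, f q ∈ I
  f_nz : ∀ q (y : S), algebraMap V S ϖ ∣ f q * y → algebraMap V S ϖ ∣ y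
  f_gen : ∀ q, ∀ y ∈ I, ∃ N : ℕ, x q ^ N * y ∈ Ideal.span {f q, algebraMap V S ϖ} ⊔ I ^ 2
  cov : ∀ i, ∃ N : ℕ, h i ^ N ∈ Ideal.span (Set.range x) ⊔ I

variable {V κ : Type} [CommRing V] [Field κ] {σ : V →+* κ} {ϖ : V} {hr : Res σ ϖ} {B : Type}
  [CommRing B] [Algebra V B] {ℬ : ℕ → Submodule V B} [GradedAlgebra ℬ] {S : Subalgebra V B}
  {I : Ideal S} {h : Fin 3 → S} {a b c : ℕ} {γ : Fin 3 → S} {Q : Type} {x f : Q → S}
  (X : In hr ℬ S I h a b c γ x f)

include X in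
theorem In.loc (q : Q) : Loc (algebraMap V S ϖ) (f q) I (x q) where
  fg := by
    have := X.noeth
    exact IsNoetherian.noetherian I
  ϖ_mem := X.ϖ_mem
  γ_mem := X.f_mem q
  nz := by
    intro y hy
    obtain ⟨v, hv⟩ := X.unit.exists_left_inv
    apply Subtype.ext
    have h1 : algebraMap V B ϖ * (y : B) = 0 := congrArg (Subtype.val) hy
    calc (y : B) = v * (algebraMap V B ϖ * (y : B)) := by rw [← mul_assoc, hv, one_mul]
      _ = 0 := by rw [h1, mul_zero]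
  nzm := X.f_nz q
  gen := X.f_gen q

/-- the dilatation -/
def In.sub {V κ : Type} [CommRing V] [Field κ] {σ : V →+* κ} {ϖ : V} {hr : Res σ ϖ} {B : Type}
    [CommRing B] [Algebra V B] {ℬ : ℕ → Submodule V B} [GradedAlgebra ℬ] {S : Subalgebra V B}
    {I : Ideal S} {h : Fin 3 → S} {a b c : ℕ} {γ : Fin 3 → S} {Q : Type} {x f : Q → S}
    (X : In hr ℬ S I h a b c γ x f) : Subalgebra V B := dil X.ϖ_mem

/-- the ring `D = S[I / ϖ]` -/
def Dd {V κ : Type} [CommRing V] [Field κ] {σ : V →+* κ} {ϖ : V} {hr : Res σ ϖ} {B : Type}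
    [CommRing B] [Algebra V B] {ℬ : ℕ → Submodule V B} [GradedAlgebra ℬ] {S : Subalgebra V B}
    {I : Ideal S} {h : Fin 3 → S} {a b c : ℕ} {γ : Fin 3 → S} {Q : Type} {x f : Q → S}
    (X : In hr ℬ S I h a b c γ x f) : Type := X.sub

instance : CommRing (Dd X) := inferInstanceAs (CommRing X.sub)

instance : Algebra V (Dd X) := inferInstanceAs (Algebra V X.sub)

instance [IsDomain B] : IsDomain (Dd X) := inferInstanceAs (IsDomain X.sub)

instance : IsNoetherianRing (Dd X) :=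
  haveI := X.noeth
  dil_noeth X.ϖ_mem X.unit

/-- the embedding of `D` into `B` -/
def emb : Dd X →ₐ[V] B := X.sub.val

theorem emb_inj : Function.Injective (emb X) := Subtype.val_injective

/-- the elements of `S` in `D` -/
def ofS : S →ₐ[V] Dd X := Subalgebra.inclusion (le_dil X.ϖ_mem)

@[simp] theorem emb_ofS (s : S) : emb X (ofS X s) = s := rfl

instance : Algebra (MvPolynomial (Fin 3) V) (Dd X) :=
  (aeval fun i => ofS X (h i) : MvPolynomial (Fin 3) V →ₐ[V] Dd X).toRingHom.toAlgebra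

theorem algebraMap_Dd (p : MvPolynomial (Fin 3) V) :
    algebraMap (MvPolynomial (Fin 3) V) (Dd X) p = ofS X (aeval h p) := by
  have h1 : (aeval fun i => ofS X (h i) : MvPolynomial (Fin 3) V →ₐ[V] Dd X) =
      (ofS X).comp (aeval h) := by
    apply MvPolynomial.algHom_ext
    intro i
    rw [aeval_X, AlgHom.comp_apply, aeval_X]
  exact DFunLike.congr_fun h1 p

instance : IsScalarTower V (MvPolynomial (Fin 3) V) (Dd X) :=
  IsScalarTower.of_algebraMap_eq fun v =>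
    ((aeval fun i => ofS X (h i) : MvPolynomial (Fin 3) V →ₐ[V] Dd X).commutes v).symm

/-- the grading of `D` -/
def dgr (n : ℕ) : Submodule V (Dd X) := DIL.sub ℬ X.sub n

theorem mem_dgr {n : ℕ} {y : Dd X} : y ∈ dgr X n ↔ emb X y ∈ ℬ n := Iff.rfl

instance : GradedAlgebra (dgr X) := gradedSub (homSub_dil X.homS X.homI X.ϖ_mem)

theorem dX (i : Fin 3) : algebraMap (MvPolynomial (Fin 3) V) (Dd X) (MvPolynomial.X i) ∈ dgr X 1 := by
  rw [mem_dgr, algebraMap_Dd, aeval_X, emb_ofS]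
  exact X.h_deg i

/-- **`D` as a graded module over `V[h_0, h_1, h_2]`** -/
@[reducible]
def dmod : GML.GMod V 3 := ofAlg (dgr X) (dX X)

/-- **`W = D / ϖ D` as a graded module over `κ[h_0, h_1, h_2]`** -/
@[reducible]
def wdmod : GML.GMod κ 3 := wmod hr (dgr X) (dX X)

/-- the reduction `D → W` -/
def dred : GML.Red σ ϖ (dmod X) (wdmod X) := red hr (dgr X) (dX X)

theorem d_nz (y : Dd X) (hy : ϖ • y = 0) : y = 0 := by
  obtain ⟨v, hv⟩ := X.unit.exists_left_inv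
  apply emb_inj X
  have h1 : algebraMap V B ϖ * emb X y = 0 := by
    rw [← Algebra.smul_def, ← map_smul, hy, map_zero]
  rw [map_zero]
  calc emb X y = v * (algebraMap V B ϖ * emb X y) := by rw [← mul_assoc, hv, one_mul]
    _ = 0 := by rw [h1, mul_zero]

/-! ### the filtration -/

/-- the filtration `F j` of `W`: the image of `ϖ ^ (-j) I ^ j` -/
def Fj (j : ℕ) : Submodule (MvPolynomial (Fin 3) κ) (Wq hr (Dd X)) where
  carrier := {w | ∃ y : Dd X, emb X y ∈ fil ϖ S I j ∧ mk hr (Dd X) y = w}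
  add_mem' := by
    rintro _ _ ⟨y, hy, rfl⟩ ⟨y', hy', rfl⟩
    exact ⟨y + y', by rw [map_add]; exact Submodule.add_mem _ hy hy', map_add _ _ _⟩
  zero_mem' := ⟨0, by rw [map_zero]; exact Submodule.zero_mem _, map_zero _⟩
  smul_mem' := by
    rintro p _ ⟨y, hy, rfl⟩
    obtain ⟨q, rfl⟩ := MvPolynomial.map_surjective σ hr.surj p
    refine ⟨q • y, ?_, mk_smul hr (Dd X) q y⟩
    rw [Algebra.smul_def, algebraMap_Dd, map_mul, emb_ofS]
    exact Submodule.smul_mem _ (aeval h q) hy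

theorem mem_Fj {j : ℕ} {w : Wq hr (Dd X)} :
    w ∈ Fj X j ↔ ∃ y : Dd X, emb X y ∈ fil ϖ S I j ∧ mk hr (Dd X) y = w := Iff.rfl

theorem mk_mem_Fj {j : ℕ} {y : Dd X} (hy : emb X y ∈ fil ϖ S I j) : mk hr (Dd X) y ∈ Fj X j :=
  ⟨y, hy, rfl⟩

/-- elements of `B` in `ϖ ^ (-j) I ^ j` are elements of `D` -/
def mkD {j : ℕ} {y : B} (hy : y ∈ fil ϖ S I j) : Dd X := ⟨y, j, hy⟩

@[simp] theorem emb_mkD {j : ℕ} {y : B} (hy : y ∈ fil ϖ S I j) : emb X (mkD X hy) = y := rfl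

theorem exists_div' {j : ℕ} {z : S} (hz : z ∈ I ^ j) :
    ∃ y : Dd X, emb X y ∈ fil ϖ S I j ∧ algebraMap V B ϖ ^ j * emb X y = (z : B) := by
  obtain ⟨v, hv⟩ := X.unit.exists_right_inv
  have h1 : algebraMap V B ϖ ^ j * (v ^ j * (z : B)) = z := by
    rw [← mul_assoc, ← mul_pow, hv, one_pow, one_mul]
  have h2 : v ^ j * (z : B) ∈ fil ϖ S I j := ⟨z, hz, h1⟩
  exact ⟨mkD X h2, h2, h1⟩

include X in
theorem cancelB (j : ℕ) {y y' : B} (h : algebraMap V B ϖ ^ j * y = algebraMap V B ϖ ^ j * y') :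
    y = y' := by
  obtain ⟨v, hv⟩ := X.unit.exists_left_inv
  have h1 := congrArg (fun t => v ^ j * t) h
  simp only [← mul_assoc, ← mul_pow, hv, one_pow, one_mul] at h1
  exact h1

/-- elements of `Tj` give elements of `Fm F j` -/
theorem to_Fm {j : ℕ} {y : Dd X} {z : S} (hy : algebraMap V B ϖ ^ j * emb X y = (z : B))
    (hz : z ∈ Tj (algebraMap V S ϖ) I j) : mk hr (Dd X) y ∈ GML.Fm (Fj X) j := by
  obtain ⟨z', hz', h0, hw⟩ := mem_Tj.1 hz
  obtain ⟨y₂, hy₂, h₂⟩ := exists_div' X hw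
  rcases Nat.eq_zero_or_pos j with rfl | hj
  · unfold GML.Fm
    rw [if_pos rfl]
    have h1 : y = ϖ • y₂ := by
      apply emb_inj X
      apply cancelB X 0
      rw [hy, map_smul, Algebra.smul_def]
      rw [zero_add, pow_one] at h₂
      rw [h₂, h0 rfl, mul_zero, sub_zero, pow_zero, one_mul]
    rw [h1, (mk_eq_zero hr _).2 ⟨y₂, rfl⟩]
    exact Submodule.zero_mem _
  · unfold GML.Fm
    rw [if_neg hj.ne']
    obtain ⟨i, rfl⟩ := Nat.exists_eq_succ_of_ne_zero hj.ne'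
    obtain ⟨y₁, hy₁, h₁⟩ := exists_div' X hz'
    refine ⟨y₁, hy₁, ?_⟩
    symm
    rw [mk_eq_iff]
    refine ⟨y₂, ?_⟩
    apply emb_inj X
    apply cancelB X i.succ
    rw [hy, map_add, map_smul, Algebra.smul_def, mul_add]
    have e1 : algebraMap V B ϖ ^ i.succ * emb X y₁ =
        algebraMap V B ϖ * (algebraMap V B ϖ ^ (i.succ - 1) * emb X y₁) := by
      rw [Nat.succ_sub_one, pow_succ]
      ring
    have e2 : algebraMap V B ϖ ^ i.succ * (algebraMap V B ϖ * emb X y₂) =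
        algebraMap V B ϖ ^ (i.succ + 1) * emb X y₂ := by
      rw [pow_succ (algebraMap V B ϖ) i.succ]
      ring
    rw [e1, e2, h₁, h₂]
    push_cast
    ring

/-- elements of `Fm F j` come from `Tj`, up to torsion -/
theorem of_Fm (i : Fin 3) {j : ℕ} {y : Dd X} {z : S}
    (hy : algebraMap V B ϖ ^ j * emb X y = (z : B)) (hz : z ∈ I ^ j)
    (hF : mk hr (Dd X) y ∈ GML.Fm (Fj X) j) :
    ∃ N : ℕ, h i ^ N * z ∈ Tj (algebraMap V S ϖ) I j := by
  -- `y = y₁ + ϖ d`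
  obtain ⟨y₁, z₁, hz₁, h0, hy₁, hmk⟩ : ∃ (y₁ : Dd X) (z₁ : S), z₁ ∈ I ^ (j - 1) ∧
      (j = 0 → z₁ = 0) ∧ algebraMap V B ϖ ^ j * emb X y₁ = algebraMap V B ϖ * (z₁ : B) ∧
      mk hr (Dd X) y = mk hr (Dd X) y₁ := by
    unfold GML.Fm at hF
    split_ifs at hF with hj
    · subst hj
      rw [Submodule.mem_bot] at hF
      exact ⟨0, 0, Ideal.zero_mem _, fun _ => rfl, by rw [map_zero]; simp, by rw [hF, map_zero]⟩
    · obtain ⟨y₁, ⟨z₁, hz₁, h₁⟩, hmk⟩ := hF
      obtain ⟨i, rfl⟩ := Nat.exists_eq_succ_of_ne_zero hj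
      refine ⟨y₁, z₁, hz₁, fun h => absurd h hj, ?_, hmk.symm⟩
      rw [← h₁, Nat.succ_sub_one, pow_succ]
      ring
  obtain ⟨d, hd⟩ := (mk_eq_iff hr _ _).1 hmk
  obtain ⟨m, hm⟩ : ∃ m, emb X d ∈ fil ϖ S I m := d.2
  have hm' : emb X d ∈ fil ϖ S I (j + 1 + m) := fil_mono X.ϖ_mem (by omega) hm
  obtain ⟨w, hw, hwd⟩ := hm'
  refine ker_glue (X.loc) (X.cov i) j m hz hz₁ h0 hw ?_
  apply Subtype.ext
  have e3 : ((algebraMap V S ϖ : S) : B) = algebraMap V B ϖ := rfl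
  push_cast
  rw [← hy, ← hwd, hd, map_add, map_smul, Algebra.smul_def, mul_add, hy₁]
  ring

theorem Fj_mono : Monotone (Fj X) := by
  rintro i j hij _ ⟨y, hy, rfl⟩
  exact ⟨y, fil_mono X.ϖ_mem hij hy, rfl⟩

theorem Fj_hom (j : ℕ) : GML.IsHom (wdmod X) (Fj X j) := by
  apply le_antisymm
  · rw [Submodule.span_le]
    rintro w ⟨hw, -⟩
    exact hw
  · rintro _ ⟨y, hy, rfl⟩
    obtain ⟨s, hs⟩ := cp_sum (ℬ := ℬ) (emb X y)
    have h1 : ∀ n, cp ℬ n (emb X y) ∈ fil ϖ S I j := cp_fil X.homS X.homI hy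
    have h2 : y = ∑ n ∈ s, mkD X (h1 n) := by
      apply emb_inj X
      rw [map_sum]
      exact hs
    rw [h2, map_sum]
    refine Submodule.sum_mem _ fun n _ => Submodule.subset_span ⟨⟨_, h1 n, rfl⟩, n, ?_⟩
    refine mem_ext.2 (Or.inl ⟨n, rfl, mkD X (h1 n), ?_, rfl⟩)
    exact cp_mem ℬ n (emb X y)

/-- the element `γ i / ϖ ^ a` of `D` -/
def gD (i : Fin 3) : Dd X := (exists_div' X (X.γ_mem i)).choose

theorem gD_fil (i : Fin 3) : emb X (gD X i) ∈ fil ϖ S I a := (exists_div' X (X.γ_mem i)).choose_spec.1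

theorem gD_spec (i : Fin 3) : algebraMap V B ϖ ^ a * emb X (gD X i) = (γ i : B) :=
  (exists_div' X (X.γ_mem i)).choose_spec.2

/-- the operators `γ i / ϖ ^ a` on `W` -/
def gW (i : Fin 3) : (wdmod X).M →ₗ[MvPolynomial (Fin 3) κ] (wdmod X).M :=
  LinearMap.mulLeft (MvPolynomial (Fin 3) κ) (mk hr (Dd X) (gD X i))

theorem gW_mk (i : Fin 3) (y : Dd X) : gW X i (mk hr (Dd X) y) = mk hr (Dd X) (gD X i * y) := by
  show mk hr (Dd X) (gD X i) * mk hr (Dd X) y = _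
  rw [map_mul]

theorem X_smul_mk (i : Fin 3) (N : ℕ) (y : Dd X) :
    ((MvPolynomial.X i : MvPolynomial (Fin 3) κ) ^ N) • mk hr (Dd X) y =
      mk hr (Dd X) (ofS X (h i ^ N) * y) := by
  have h1 : ((MvPolynomial.X i : MvPolynomial (Fin 3) κ) ^ N) =
      MvPolynomial.map σ ((MvPolynomial.X i : MvPolynomial (Fin 3) V) ^ N) := by
    rw [map_pow, map_X]
  rw [h1, ← mk_smul, Algebra.smul_def, algebraMap_Dd, map_pow, aeval_X]

/-- every step of the filtration is finitely generated -/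
theorem Fj_fg (j : ℕ) : (Fj X j).FG := by
  classical
  obtain ⟨T, hT⟩ := X.fin
  have := X.noeth
  obtain ⟨m, g, hg⟩ := Submodule.fg_iff_exists_fin_generating_family.1
    (IsNoetherian.noetherian (I ^ j))
  have hgI : ∀ k, g k ∈ I ^ j := fun k => by
    rw [← hg]
    exact Submodule.subset_span ⟨k, rfl⟩
  choose w hw hw' using fun (p : Fin m × T) =>
    exists_div' X (Ideal.mul_mem_left (I ^ j) (p.2 : S) (hgI p.1))
  refine Submodule.fg_def.2 ⟨Set.range fun p => mk hr (Dd X) (w p), Set.finite_range _, ?_⟩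
  apply le_antisymm
  · rw [Submodule.span_le]
    rintro _ ⟨p, rfl⟩
    exact mk_mem_Fj X (hw p)
  · rintro _ ⟨y, ⟨z, hz, hzy⟩, rfl⟩
    rw [← hg, Submodule.mem_span_range_iff_exists_fun] at hz
    obtain ⟨s, rfl⟩ := hz
    choose u hu hu' using fun k => exists_div' X (Ideal.mul_mem_left (I ^ j) (s k) (hgI k))
    have h1 : y = ∑ k, u k := by
      apply emb_inj X
      apply cancelB X j
      rw [hzy, map_sum, Finset.mul_sum, Finset.sum_congr rfl fun k _ => hu' k]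
      push_cast
      rfl
    rw [h1, map_sum]
    refine Submodule.sum_mem _ fun k _ => ?_
    obtain ⟨q, hq⟩ := hT (s k)
    have h2 : (s k - ∑ t ∈ T, aeval h (q t) * t) * g k ∈ I ^ (j + 1) := by
      rw [pow_succ']
      exact Ideal.mul_mem_mul hq (hgI k)
    obtain ⟨d, -, hd⟩ := exists_div' X h2
    have h3 : mk hr (Dd X) (u k) =
        ∑ t : T, MvPolynomial.map σ (q t) • mk hr (Dd X) (w (k, t)) := by
      have h4 : ∑ t : T, MvPolynomial.map σ (q t) • mk hr (Dd X) (w (k, t)) =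
          mk hr (Dd X) (∑ t : T, q t • w (k, t)) := by
        rw [map_sum]
        exact Finset.sum_congr rfl fun t _ => (mk_smul hr (Dd X) _ _).symm
      rw [h4, mk_eq_iff]
      refine ⟨d, ?_⟩
      apply emb_inj X
      apply cancelB X j
      rw [hu', map_add, map_sum, map_smul, Algebra.smul_def, mul_add, Finset.mul_sum,
        ← mul_assoc (algebraMap V B ϖ ^ j), ← pow_succ, hd]
      have h5 : ∀ t : T, algebraMap V B ϖ ^ j * emb X (q t • w (k, t)) =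
          ((aeval h (q t) * t * g k : S) : B) := by
        intro t
        rw [Algebra.smul_def, algebraMap_Dd, map_mul, emb_ofS, mul_left_comm, hw']
        push_cast
        ring
      rw [Finset.sum_congr rfl fun t _ => h5 t]
      have h6 : (∑ t : T, ((aeval h (q t) * t * g k : S) : B)) =
          ((∑ t ∈ T, aeval h (q t) * t : S) : B) * (g k : B) := by
        rw [← Finset.sum_coe_sort T]
        push_cast
        rw [Finset.sum_mul]
      rw [h6]
      push_cast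
      ring
    rw [h3]
    exact Submodule.sum_mem _ fun t _ => Submodule.smul_mem _ _ (Submodule.subset_span ⟨_, rfl⟩)

/-- **The filtration of `W = D / ϖ D` is balanced.** -/
theorem balM : GML.BalM (wdmod X) a b c (gW X) (Fj X) where
  a_pos := X.a_pos
  b_pos := X.b_pos
  mono := Fj_mono X
  uni := by
    intro w
    obtain ⟨y, rfl⟩ := mk_surj hr (D := Dd X) w
    obtain ⟨j, hj⟩ : ∃ j, emb X y ∈ fil ϖ S I j := y.2
    exact ⟨j, y, hj, rfl⟩
  hom := Fj_hom X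
  fg := fun j _ => Fj_fg X j
  gdeg := by
    intro i n w hw
    obtain ⟨e, he, hγ⟩ := X.γ_deg
    rcases mem_ext.1 hw with ⟨m, rfl, y, hy, rfl⟩ | rfl
    · refine mem_ext.2 (Or.inl ⟨e + m, by rw [← he]; push_cast; ring, gD X i * y, ?_, ?_⟩)
      · refine SetLike.mul_mem_graded ?_ hy
        rw [mem_dgr]
        have h1 : emb X (gD X i) = cp ℬ e (emb X (gD X i)) := by
          apply cancelB X a
          have h2 : algebraMap V B ϖ ^ a * cp ℬ e (emb X (gD X i)) =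
              cp ℬ e (algebraMap V B ϖ ^ a * emb X (gD X i)) := by
            rw [← map_pow, ← Algebra.smul_def, ← Algebra.smul_def, map_smul]
          rw [h2, gD_spec, cp_self (hγ i)]
        rw [h1]
        exact cp_mem ℬ e _
      · exact (gW_mk X i y).symm
    · have h1 : gW X i (0 : (wdmod X).M) = 0 := map_zero _
      rw [h1]
      exact Submodule.zero_mem _
  gF := by
    rintro i j _ ⟨y, hy, rfl⟩
    rw [gW_mk]
    refine ⟨_, ?_, rfl⟩
    rw [map_mul, add_comm]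
    exact fil_mul (gD_fil X i) hy
  coc := by
    rintro i k j _ ⟨y, ⟨z, hz, hzy⟩, rfl⟩
    rw [gW_mk, gW_mk, X_smul_mk, X_smul_mk, ← map_sub]
    refine to_Fm X (z := (h k ^ c * γ i - h i ^ c * γ k) * z) ?_ ?_
    · rw [map_sub, map_mul, map_mul, map_mul, map_mul, emb_ofS, emb_ofS]
      push_cast
      rw [← gD_spec X i, ← gD_spec X k, ← hzy]
      ring
    · exact Tj_mul X.a_pos (X.coc i k) hz
  inj := by
    rintro i j _ ⟨y, ⟨z, hz, hzy⟩, rfl⟩ hF
    rw [gW_mk] at hF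
    have h1 : algebraMap V B ϖ ^ (j + a) * emb X (gD X i * y) = ((γ i * z : S) : B) := by
      rw [map_mul]
      push_cast
      rw [← gD_spec X i, ← hzy]
      ring
    have h2 : γ i * z ∈ I ^ (j + a) := by
      rw [add_comm, pow_add]
      exact Ideal.mul_mem_mul (X.γ_mem i) hz
    obtain ⟨N, hN⟩ := of_Fm X i h1 h2 hF
    have h3 : h i ^ N * (γ i * z) = γ i * (h i ^ N * z) := by ring
    rw [h3] at hN
    have := X.finQ
    obtain ⟨M, hM⟩ := inj_glue X.loc (X.cov i) X.a_pos (X.gen i) (Ideal.mul_mem_left _ _ hz) hN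
    refine ⟨M + N, ?_⟩
    rw [X_smul_mk]
    refine to_Fm X (z := h i ^ M * (h i ^ N * z)) ?_ hM
    rw [map_mul, emb_ofS]
    push_cast
    rw [← hzy]
    ring
  surj := by
    rintro i j _ ⟨y, ⟨z, hz, hzy⟩, rfl⟩
    have := X.noeth
    obtain ⟨N, y₁, hy₁, hN⟩ := surj_glue X.a_pos (IsNoetherian.noetherian (I ^ a)) (X.gen i) hz
    obtain ⟨x₁, hx₁, hx₁'⟩ := exists_div' X hy₁
    refine ⟨N, mk hr (Dd X) x₁, mk_mem_Fj X hx₁, ?_⟩
    rw [X_smul_mk, gW_mk, ← map_sub]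
    refine to_Fm X ?_ hN
    rw [map_sub, map_mul, map_mul, emb_ofS]
    push_cast
    rw [← hzy, ← hx₁', ← gD_spec X i]
    ring

/-- the elements of `I` vanish in `W` -/
theorem mk_ofS_of_mem {s : S} (hs : s ∈ I) : mk hr (Dd X) (ofS X s) = 0 := by
  have h1 : s ∈ I ^ 1 := by rwa [pow_one]
  obtain ⟨d, -, hd⟩ := exists_div' X h1
  rw [mk_eq_zero]
  refine ⟨d, ?_⟩
  apply emb_inj X
  rw [emb_ofS, map_smul, Algebra.smul_def, ← hd, pow_one]

/-- the kernel of `S → W` is `I`, up to torsion -/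
theorem of_mk_ofS (i : Fin 3) {s : S} (hs : mk hr (Dd X) (ofS X s) = 0) :
    ∃ N : ℕ, h i ^ N * s ∈ I := by
  have h1 : algebraMap V B ϖ ^ 0 * emb X (ofS X s) = (s : B) := by
    rw [pow_zero, one_mul, emb_ofS]
  have h2 : mk hr (Dd X) (ofS X s) ∈ GML.Fm (Fj X) 0 := by
    rw [hs]
    exact Submodule.zero_mem _
  obtain ⟨N, hN⟩ := of_Fm X i h1 (by rw [pow_zero, Ideal.one_eq_top]; exact Submodule.mem_top) h2
  obtain ⟨z, -, h0, hz⟩ := mem_Tj.1 hN
  refine ⟨N, ?_⟩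
  rwa [h0 rfl, mul_zero, sub_zero, zero_add, pow_one] at hz

end inp

end

end Pool.Agent.DIL
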