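import Pool.Agent.GML.Defs
import Pool.Agent.DXA.Main

/-!
# Graded algebras over polynomial rings as graded modules (MP_db3ab1_ag, DIL)
-/

set_option autoImplicit false

open MvPolynomial

namespace Pool.Agent.DIL

noncomputable section

section internal

/-- a family of projections gives an internal grading -/
theorem isInternal_of_proj {ι R M : Type*} [DecidableEq ι] [Ring R] [AddCommGroup M] [Module R M]
    (A : ι → Submodule R M) (p : ι → M →+ M) (hp : ∀ i x, p i x ∈ A i)
    (hd : ∀ i x, x ∈ A i → p i x = x) (hn : ∀ i j x, x ∈ A j → i ≠ j → p i x = 0)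
    (hs : ∀ x, ∃ s : Finset ι, x = ∑ i ∈ s, p i x) : DirectSum.IsInternal A := by
  classical
  constructor
  · rw [injective_iff_map_eq_zero]
    intro x hx
    ext i
    have h1 : p i (DirectSum.coeAddMonoidHom A x) = (x i : M) := by
      rw [DirectSum.coeAddMonoidHom_eq_dfinsuppSum, DFinsupp.sum, map_sum]
      by_cases hi : i ∈ DFinsupp.support x
      · rw [Finset.sum_eq_single i]
        · exact hd i _ (x i).2
        · intro j _ hj
          exact hn i j _ (x j).2 hj.symm
        · intro h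
          exact absurd hi h
      · rw [Finset.sum_eq_zero]
        · rw [DFinsupp.notMem_support_iff] at hi
          rw [hi]
          rfl
        · intro j hj
          exact hn i j _ (x j).2 (fun h => hi (h ▸ hj))
    rw [hx, map_zero] at h1
    rw [← h1]
    rfl
  · intro x
    obtain ⟨s, hs⟩ := hs x
    refine ⟨∑ i ∈ s, DirectSum.of (fun i => A i) i ⟨p i x, hp i x⟩, ?_⟩
    rw [map_sum]
    conv_rhs => rw [hs]
    refine Finset.sum_congr rfl fun i _ => ?_
    rw [DirectSum.coeAddMonoidHom_of]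

end internal

section sub

variable {V B : Type} [CommRing V] [CommRing B] [Algebra V B] (ℬ : ℕ → Submodule V B)
  [GradedAlgebra ℬ]

/-- the homogeneous component of degree `n` -/
abbrev cp (n : ℕ) : B →ₗ[V] B := GradedAlgebra.proj ℬ n

theorem cp_mem (n : ℕ) (x : B) : cp ℬ n x ∈ ℬ n := by
  rw [cp, GradedAlgebra.proj_apply]
  exact SetLike.coe_mem _

variable {ℬ}

theorem cp_self {n : ℕ} {x : B} (h : x ∈ ℬ n) : cp ℬ n x = x := by
  rw [cp, GradedAlgebra.proj_apply]
  exact DirectSum.decompose_of_mem_same ℬ h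

theorem cp_ne {m n : ℕ} {x : B} (h : x ∈ ℬ m) (hne : m ≠ n) : cp ℬ n x = 0 := by
  rw [cp, GradedAlgebra.proj_apply]
  exact DirectSum.decompose_of_mem_ne ℬ h hne

theorem cp_sum (x : B) : ∃ s : Finset ℕ, x = ∑ i ∈ s, cp ℬ i x := by
  classical
  exact ⟨(DirectSum.decompose ℬ x).support, (DirectSum.sum_support_decompose ℬ x).symm⟩

variable (ℬ)

/-- the induced grading of a subalgebra -/
def sub (S : Subalgebra V B) (n : ℕ) : Submodule V S := (ℬ n).comap S.val.toLinearMap

/-- homogeneous subalgebras -/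
def HomSub (S : Subalgebra V B) : Prop := ∀ x ∈ S, ∀ n, cp ℬ n x ∈ S

variable {ℬ}

omit [GradedAlgebra ℬ] in
theorem mem_sub {S : Subalgebra V B} {n : ℕ} {x : S} : x ∈ sub ℬ S n ↔ (x : B) ∈ ℬ n := Iff.rfl

theorem sub_internal {S : Subalgebra V B} (hS : HomSub ℬ S) :
    DirectSum.IsInternal (sub ℬ S) := by
  let p : ℕ → S →+ S := fun n =>
    { toFun := fun x => ⟨cp ℬ n x, hS x x.2 n⟩
      map_zero' := by
        apply Subtype.ext
        exact map_zero (cp ℬ n)
      map_add' := fun x y => by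
        apply Subtype.ext
        exact map_add (cp ℬ n) (x : B) (y : B) }
  refine isInternal_of_proj (sub ℬ S) p (fun i x => cp_mem ℬ i x) ?_ ?_ ?_
  · intro i x hx
    apply Subtype.ext
    exact cp_self hx
  · intro i j x hx hij
    apply Subtype.ext
    exact cp_ne hx hij.symm
  · intro x
    obtain ⟨s, hs⟩ := cp_sum (ℬ := ℬ) (x : B)
    refine ⟨s, Subtype.ext ?_⟩
    have h1 : ((∑ i ∈ s, p i x : S) : B) = ∑ i ∈ s, ((p i x : S) : B) := by
      rw [← S.coe_val, map_sum]
    rw [h1]
    exact hs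

/-- a homogeneous subalgebra is a graded algebra -/
@[implicit_reducible]
def gradedSub {S : Subalgebra V B} (hS : HomSub ℬ S) : GradedAlgebra (sub ℬ S) :=
  { (sub_internal hS).chooseDecomposition with
    one_mem := SetLike.one_mem_graded ℬ
    mul_mem := fun {_ _ _ _} hx hy => SetLike.mul_mem_graded (A := ℬ) hx hy }

end sub

section ofAlg

variable {V D : Type} [CommRing V] [CommRing D] [Algebra V D] {r : ℕ}
  [Algebra (MvPolynomial (Fin r) V) D] [IsScalarTower V (MvPolynomial (Fin r) V) D]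

/-- the grading, indexed by the integers -/
def ext (𝒟 : ℕ → Submodule V D) (n : ℤ) : Submodule V D := if 0 ≤ n then 𝒟 n.toNat else ⊥

omit [Algebra (MvPolynomial (Fin r) V) D] [IsScalarTower V (MvPolynomial (Fin r) V) D] in
theorem mem_ext {𝒟 : ℕ → Submodule V D} {n : ℤ} {x : D} :
    x ∈ ext 𝒟 n ↔ (∃ m : ℕ, (m : ℤ) = n ∧ x ∈ 𝒟 m) ∨ x = 0 := by
  unfold ext
  split_ifs with h
  · constructor
    · intro hx
      exact Or.inl ⟨n.toNat, Int.toNat_of_nonneg h, hx⟩
    · rintro (⟨m, rfl, hx⟩ | rfl)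
      · rwa [Int.toNat_natCast]
      · exact Submodule.zero_mem _
  · constructor
    · intro hx
      exact Or.inr ((Submodule.mem_bot V).1 hx)
    · rintro (⟨m, rfl, hx⟩ | rfl)
      · exact absurd (Int.natCast_nonneg m) h
      · exact Submodule.zero_mem _

omit [Algebra (MvPolynomial (Fin r) V) D] [IsScalarTower V (MvPolynomial (Fin r) V) D] in
theorem ext_natCast {𝒟 : ℕ → Submodule V D} (n : ℕ) : ext 𝒟 n = 𝒟 n := by
  unfold ext
  rw [if_pos (Int.natCast_nonneg n), Int.toNat_natCast]

omit [Algebra (MvPolynomial (Fin r) V) D] [IsScalarTower V (MvPolynomial (Fin r) V) D] in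
theorem ext_internal (𝒟 : ℕ → Submodule V D) [GradedAlgebra 𝒟] :
    DirectSum.IsInternal (ext 𝒟) := by
  classical
  refine isInternal_of_proj (ext 𝒟)
    (fun n => if 0 ≤ n then (cp 𝒟 n.toNat : D →ₗ[V] D).toAddMonoidHom else 0) ?_ ?_ ?_ ?_
  · intro n x
    by_cases h : 0 ≤ n
    · simp only [if_pos h, ext]
      exact cp_mem 𝒟 _ x
    · simp only [if_neg h]
      exact Submodule.zero_mem _
  · intro n x hx
    rcases mem_ext.1 hx with ⟨m, rfl, hm⟩ | rfl
    · simp only [if_pos (Int.natCast_nonneg m), Int.toNat_natCast]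
      exact cp_self hm
    · exact map_zero _
  · intro i j x hx hij
    rcases mem_ext.1 hx with ⟨m, rfl, hm⟩ | rfl
    · by_cases h : 0 ≤ i
      · simp only [if_pos h]
        refine cp_ne hm ?_
        intro h1
        apply hij
        rw [h1, Int.toNat_of_nonneg h]
      · simp only [if_neg h]
        rfl
    · exact map_zero _
  · intro x
    obtain ⟨s, hs⟩ := cp_sum (ℬ := 𝒟) x
    refine ⟨s.map Nat.castEmbedding, ?_⟩
    rw [Finset.sum_map]
    conv_lhs => rw [hs]
    refine Finset.sum_congr rfl fun i _ => ?_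
    have h1 : (Nat.castEmbedding i : ℤ) = (i : ℤ) := rfl
    rw [h1]
    simp only [if_pos (Int.natCast_nonneg i), Int.toNat_natCast]
    rfl

/-- a graded algebra over `V[X_0, …, X_(r-1)]`, as a graded module -/
@[reducible]
def ofAlg (𝒟 : ℕ → Submodule V D) [GradedAlgebra 𝒟]
    (hX : ∀ i, algebraMap (MvPolynomial (Fin r) V) D (X i) ∈ 𝒟 1) : GML.GMod V r where
  M := D
  gr := ext 𝒟
  int := ext_internal 𝒟
  mul_mem := by
    intro i n x hx
    rw [mem_ext] at hx ⊢
    rcases hx with ⟨m, rfl, hm⟩ | rfl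
    · refine Or.inl ⟨m + 1, by push_cast; ring, ?_⟩
      rw [Algebra.smul_def, add_comm m 1]
      exact SetLike.mul_mem_graded (hX i) hm
    · exact Or.inr (smul_zero _)

end ofAlg

section Om

variable {n : ℕ} {V D : Type} [CommRing V] [CommRing D] [Algebra V D]
  [Algebra (MvPolynomial (Fin (n + 1)) V) D] [IsScalarTower V (MvPolynomial (Fin (n + 1)) V) D]
  (𝒟 : ℕ → Submodule V D) [GradedAlgebra 𝒟]
  (hX : ∀ i, algebraMap (MvPolynomial (Fin (n + 1)) V) D (X i) ∈ 𝒟 1)

omit [GradedAlgebra 𝒟] [CommRing D] [Algebra V D] [Algebra (MvPolynomial (Fin (n + 1)) V) D]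
  [IsScalarTower V (MvPolynomial (Fin (n + 1)) V) D] in
theorem mem_Agr {r : ℕ} {d : ℤ} {F : MvPolynomial (Fin r) V} :
    F ∈ GML.Agr V r d ↔ ∀ e : Fin r →₀ ℕ, coeff e F ≠ 0 → ((∑ i, e i : ℕ) : ℤ) = d := by
  unfold GML.Agr
  have h0 : ∀ e : Fin r →₀ ℕ, ∑ i, e i = e.degree := fun e => by
    rw [Finsupp.degree_apply]
    exact (Finset.sum_subset (Finset.subset_univ _) (fun i _ hi => by
      simpa using hi)).symm
  split_ifs with h
  · rw [mem_homogeneousSubmodule]
    constructor
    · intro hF e he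
      have := hF he
      rw [← Int.toNat_of_nonneg h, Int.natCast_inj, h0]
      rw [← this, Finsupp.degree_eq_weight_one]
      rfl
    · intro hF e he
      have := hF e he
      rw [← Int.toNat_of_nonneg h, Int.natCast_inj, h0] at this
      rw [← this, Finsupp.degree_eq_weight_one]
      rfl
  · rw [Submodule.mem_bot]
    constructor
    · rintro rfl e he
      exact absurd (coeff_zero e) he
    · intro hF
      ext e
      rw [coeff_zero]
      by_contra he
      have := hF e he
      omega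

/-- **The two notions of functionals agree.** -/
theorem mem_om_iff (s : ℤ)
    (φ : D →ₗ[MvPolynomial (Fin (n + 1)) V] MvPolynomial (Fin (n + 1)) V) :
    (φ : (ofAlg 𝒟 hX).M →ₗ[MvPolynomial (Fin (n + 1)) V] MvPolynomial (Fin (n + 1)) V) ∈
      GML.Om (ofAlg 𝒟 hX) s ↔ φ ∈ DXA.Om 𝒟 s := by
  constructor
  · intro h m y hy d hd
    have h1 := h (m : ℤ) y (by
      show y ∈ ext 𝒟 m
      rwa [ext_natCast])
    exact mem_Agr.1 h1 d hd
  · intro h m y hy
    have hy' : y ∈ ext 𝒟 m := hy
    rw [mem_Agr]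
    intro e he
    rcases mem_ext.1 hy' with ⟨k, rfl, hk⟩ | h0
    · exact h k y hk e he
    · exfalso
      apply he
      have : φ y = 0 := by rw [h0, map_zero]
      show coeff e (φ y) = 0
      rw [this, coeff_zero]

end Om

end

end Pool.Agent.DIL
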