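import Pool.Agent.DIL.RkStmts

/-!
# LBS: bases near a prime whose localisation is a discrete valuation ring
-/

set_option autoImplicit false

namespace Pool.Agent.DIL

namespace LBS_

/-- the localisation is a principal ideal ring -/
theorem pir {R : Type} [CommRing R] [IsDomain R] [IsNoetherianRing R] (P : Ideal R) [P.IsPrime]
    (e : R) (heP : e ∈ P) (h : ∀ x ∈ P, ∃ s : R, s ∉ P ∧ e ∣ s * x) :
    IsPrincipalIdealRing (Localization.AtPrime P) := by
  have : IsNoetherianRing (Localization.AtPrime P) :=
    IsLocalization.isNoetherianRing P.primeCompl _ inferInstance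
  refine ((tfae_of_isNoetherianRing_of_isLocalRing_of_isDomain
    (Localization.AtPrime P)).out 0 4).2 ?_
  refine ⟨algebraMap R (Localization.AtPrime P) e, ?_⟩
  apply le_antisymm
  · intro z hz
    obtain ⟨x, s, rfl⟩ := IsLocalization.exists_mk'_eq P.primeCompl z
    have hx : x ∈ P := (IsLocalization.AtPrime.mk'_mem_maximal_iff _ P x s).1 hz
    obtain ⟨t, ht, y, hy⟩ := h x hx
    rw [Ideal.submodule_span_eq, Ideal.mem_span_singleton']
    refine ⟨IsLocalization.mk' _ y (s * ⟨t, ht⟩), ?_⟩
    rw [mul_comm, IsLocalization.mul_mk'_eq_mk'_of_mul, IsLocalization.mk'_eq_iff_eq]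
    congr 1
    show (s : R) * (e * y) = (s : R) * t * x
    rw [← hy]
    ring
  · rw [Ideal.submodule_span_eq, Ideal.span_singleton_le_iff_mem]
    exact (IsLocalization.AtPrime.to_map_mem_maximal_iff _ P e).2 heP

/-- the rank of a free module from an independent family which nearly spans -/
theorem card_eq {A N : Type} [CommRing A] [IsDomain A] [AddCommGroup N] [Module A N]
    {k n : ℕ} (c : Module.Basis (Fin k) A N) (b : Fin n → N) (hb : LinearIndependent A b)
    (r : A) (hr : r ≠ 0) (h : ∀ m : N, r • m ∈ Submodule.span A (Set.range b)) : k = n := by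
  classical
  apply le_antisymm
  · have h1 : LinearIndependent A (fun i => r • c i) := by
      rw [Fintype.linearIndependent_iff]
      intro g hg i
      have h2 : ∑ i, (g i * r) • c i = 0 := by
        rw [← hg]
        exact Finset.sum_congr rfl fun i _ => by rw [mul_smul]
      have h3 := Fintype.linearIndependent_iff.1 c.linearIndependent _ h2 i
      exact (mul_eq_zero.1 h3).resolve_right hr
    have h2 := linearIndependent_le_span_aux' _ h1 (Set.range b) (by
      rintro _ ⟨i, rfl⟩
      exact h (c i))
    rw [Fintype.card_fin] at h2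
    refine h2.trans ?_
    have h3 := Fintype.card_range_le b
    simpa using h3
  · have h1 := c.card_le_card_of_linearIndependent hb
    simpa using h1

/-- scaling independent families -/
theorem li_scale {A N : Type} [CommRing A] [IsDomain A] [AddCommGroup N] [Module A N]
    {n : ℕ} (c : Fin n → N) (hc : LinearIndependent A c) (s : Fin n → A) (hs : ∀ i, s i ≠ 0) :
    LinearIndependent A (fun i => s i • c i) := by
  rw [Fintype.linearIndependent_iff]
  intro g hg i
  have h2 : ∑ i, (g i * s i) • c i = 0 := by
    rw [← hg]
    exact Finset.sum_congr rfl fun i _ => by rw [mul_smul]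
  have h3 := Fintype.linearIndependent_iff.1 hc _ h2 i
  exact (mul_eq_zero.1 h3).resolve_right (hs i)

end LBS_

theorem lbs_proof : Stmt_LBS := by
  classical
  intro R M _ _ _ _ _ _ P _ e heP he h htf n b r hr hb hspan
  have tfM : Module.IsTorsionFree R M := by
    refine Module.IsTorsionFree.of_smul_eq_zero ?_
    intro a m ham
    by_cases ha : a = 0
    · exact Or.inl ha
    · exact Or.inr (htf a m ha ham)
  have hP0 : P.primeCompl ≤ nonZeroDivisors R := P.primeCompl_le_nonZeroDivisors
  have pirA : IsPrincipalIdealRing (Localization.AtPrime P) := LBS_.pir P e heP h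
  have tfN : Module.IsTorsionFree (Localization.AtPrime P) (LocalizedModule P.primeCompl M) :=
    inferInstanceAs (Module.IsTorsionFree (Localization P.primeCompl)
      (LocalizedModule P.primeCompl M))
  have finN : Module.Finite (Localization.AtPrime P) (LocalizedModule P.primeCompl M) :=
    Module.Finite.of_isLocalizedModule P.primeCompl (LocalizedModule.mkLinearMap P.primeCompl M)
  obtain ⟨k, c⟩ := Module.basisOfFiniteTypeTorsionFree' (R := Localization.AtPrime P)
    (M := LocalizedModule P.primeCompl M)
  set f := LocalizedModule.mkLinearMap P.primeCompl M with hf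
  have hinjA : Function.Injective (algebraMap R (Localization.AtPrime P)) :=
    IsLocalization.injective _ hP0
  have hinj : Function.Injective f := by
    rw [injective_iff_map_eq_zero]
    intro m hm
    obtain ⟨s, hs⟩ := (IsLocalizedModule.eq_zero_iff P.primeCompl f).1 hm
    exact htf s m (nonZeroDivisors.ne_zero (hP0 s.2)) hs
  have hlf : ∀ (a : R) (m : M), algebraMap R (Localization.AtPrime P) a • f m = f (a • m) := by
    intro a m
    rw [algebraMap_smul, map_smul]
  -- the rank
  have hkn : k = n := by
    refine LBS_.card_eq c (f ∘ b)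
      (hb.of_isLocalizedModule (Localization.AtPrime P) P.primeCompl f)
      (algebraMap R _ r) (by rwa [Ne, map_eq_zero_iff _ hinjA]) ?_
    intro z
    obtain ⟨⟨m, s⟩, hz⟩ := IsLocalizedModule.surj P.primeCompl f z
    have hs : IsUnit (algebraMap R (Localization.AtPrime P) s) := IsLocalization.map_units _ s
    have h1 : algebraMap R (Localization.AtPrime P) s • (algebraMap R (Localization.AtPrime P) r • z)
        ∈ Submodule.span (Localization.AtPrime P) (Set.range (f ∘ b)) := by
      have h2 : algebraMap R (Localization.AtPrime P) (s : R) • z = f m := by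
        rw [algebraMap_smul]
        exact hz
      rw [smul_comm, h2, hlf]
      have h3 := hspan m
      have h4 : f (r • m) ∈ (Submodule.span R (Set.range b)).map f :=
        Submodule.mem_map_of_mem h3
      rw [Submodule.map_span, ← Set.range_comp] at h4
      exact Submodule.span_le_restrictScalars R (Localization.AtPrime P) _ h4
    obtain ⟨u, hu⟩ := hs
    have h5 := Submodule.smul_mem _ ((u⁻¹ : (Localization.AtPrime P)ˣ) : Localization.AtPrime P) h1
    rwa [← hu, smul_smul, Units.inv_mul, one_smul] at h5
  subst hkn
  -- the new basis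
  choose ms hms using fun i => IsLocalizedModule.surj P.primeCompl f (c i)
  have hb' : ∀ i, f (ms i).1 = algebraMap R (Localization.AtPrime P) (ms i).2 • c i := by
    intro i
    rw [algebraMap_smul]
    exact (hms i).symm
  have hne : ∀ i, algebraMap R (Localization.AtPrime P) (ms i).2 ≠ 0 := by
    intro i
    exact (IsLocalization.map_units (Localization.AtPrime P) (ms i).2).ne_zero
  have hli := LBS_.li_scale c c.linearIndependent _ hne
  have hli2 : LinearIndependent (Localization.AtPrime P) (f ∘ fun i => (ms i).1) := by
    have : (f ∘ fun i => (ms i).1) =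
        fun i => algebraMap R (Localization.AtPrime P) (ms i).2 • c i := funext hb'
    rw [this]
    exact hli
  have hli3 : LinearIndependent R (fun i => (ms i).1) := by
    refine LinearIndependent.of_comp f (hli2.restrict_scalars ?_)
    intro a a' haa
    apply hinjA
    simpa [Algebra.smul_def] using haa
  refine ⟨fun i => (ms i).1, hli3, ?_⟩
  -- one element
  have hone : ∀ m : M, ∃ s : R, s ∉ P ∧
      s • m ∈ Submodule.span R (Set.range fun i => (ms i).1) := by
    intro m
    obtain ⟨s, hs⟩ := IsLocalization.exist_integer_multiples_of_finite P.primeCompl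
      (fun i => c.repr (f m) i)
    choose q hq using hs
    set t : R := ∏ i, ((ms i).2 : R) with ht
    have htP : t ∉ P := by
      have : t ∈ P.primeCompl := Submonoid.prod_mem _ fun i _ => (ms i).2.2
      exact this
    refine ⟨t * s, fun h => ?_, ?_⟩
    · rcases Ideal.IsPrime.mem_or_mem ‹P.IsPrime› h with h1 | h1
      · exact htP h1
      · exact s.2 h1
    · have h1 : f ((t * s) • m) =
          f (∑ i, ((∏ j ∈ Finset.univ.erase i, ((ms j).2 : R)) * q i) • (ms i).1) := by
        rw [map_sum]
        have h2 : f m = ∑ i, c.repr (f m) i • c i := (c.sum_repr (f m)).symm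
        rw [← hlf, map_mul, h2, Finset.smul_sum]
        refine Finset.sum_congr rfl fun i _ => ?_
        rw [← hlf, hb', map_mul, smul_smul, smul_smul]
        congr 1
        have h3 : t = (∏ j ∈ Finset.univ.erase i, ((ms j).2 : R)) * (ms i).2 := by
          rw [ht, Finset.prod_erase_mul _ _ (Finset.mem_univ i)]
        rw [h3, map_mul]
        have h4 := hq i
        rw [Algebra.smul_def] at h4
        linear_combination (algebraMap R (Localization.AtPrime P)
          (∏ j ∈ Finset.univ.erase i, ((ms j).2 : R)) *
            algebraMap R (Localization.AtPrime P) ((ms i).2 : R)) * (-h4)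
      rw [hinj h1]
      exact Submodule.sum_mem _ fun i _ => Submodule.smul_mem _ _ (Submodule.subset_span ⟨i, rfl⟩)
  obtain ⟨g, hg⟩ := (inferInstance : Module.Finite R M).1
  choose σ hσ hσ' using hone
  refine ⟨∏ m ∈ g, σ m, ?_, ?_⟩
  · have : (∏ m ∈ g, σ m) ∈ P.primeCompl := Submonoid.prod_mem _ fun i _ => hσ i
    exact this
  · intro m
    have hm : m ∈ Submodule.span R (g : Set M) := by rw [hg]; trivial
    refine Submodule.span_induction (p := fun m _ => (∏ m ∈ g, σ m) • m ∈
      Submodule.span R (Set.range fun i => (ms i).1)) ?_ ?_ ?_ ?_ hm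
    · intro x hx
      rw [← Finset.prod_erase_mul g σ (a := x) hx, mul_smul]
      exact Submodule.smul_mem _ _ (hσ' x)
    · rw [smul_zero]; exact Submodule.zero_mem _
    · intro x y _ _ hx hy
      rw [smul_add]; exact Submodule.add_mem _ hx hy
    · intro a x _ hx
      rw [smul_comm]; exact Submodule.smul_mem _ _ hx

end Pool.Agent.DIL
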