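import Pool.Agent.DIL.RkDefs

/-!
# The degrees of `X` and of the surfaces (MP_db3ab1_ag)
-/

set_option autoImplicit false

noncomputable section

namespace Pool.Agent.DIL

open scoped Classical
open MvPolynomial Pool.Agent.FRM Pool.Agent.XV Pool.Agent.GML Pool.Agent.XB

section hom

attribute [local instance] MvPolynomial.gradedAlgebra

variable {F : Type} [CommRing F] {σ : Type}

theorem homog_iff (J : Ideal (MvPolynomial σ F)) :
    J.IsHomogeneous (homogeneousSubmodule σ F) ↔ ∀ G ∈ J, ∀ m, homogeneousComponent m G ∈ J := by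
  constructor
  · intro h G hG m
    have := h m hG
    rwa [← MvPolynomial.decomposition.decompose'_apply]
  · intro h m G hG
    have := h G hG m
    rwa [← MvPolynomial.decomposition.decompose'_apply] at this

theorem JI_hom (hPri : XV.Stmt_Pri) (F : Type) [Field F] (g : Option (Fin 10)) :
    ∀ G ∈ JI F g, ∀ m, homogeneousComponent m G ∈ JI F g := by
  rw [← homog_iff]
  have h1 : (XV.I F).IsHomogeneous (homogeneousSubmodule (Fin (XV.N + 1)) F) := by
    rw [homog_iff]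
    exact (hPri F).2
  have h2 : (Jg F g).IsHomogeneous (homogeneousSubmodule (Fin (XV.N + 1)) F) := by
    apply Ideal.homogeneous_span
    rintro _ ⟨c, -, rfl⟩
    exact ⟨1, isHomogeneous_X _ _⟩
  exact h2.sup h1

end hom

section num

/-- the grading of `Tq` -/
abbrev tgr {F : Type} [Field F] (h : Fin 3 → MvPolynomial (Fin (XV.N + 1)) F)
    (J : Ideal (MvPolynomial (Fin (XV.N + 1)) F)) (m : ℕ) : Submodule F (Tq h J) := qgr J m

theorem tX {F : Type} [Field F] (h : Fin 3 → MvPolynomial (Fin (XV.N + 1)) F)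
    (J : Ideal (MvPolynomial (Fin (XV.N + 1)) F)) (hh : ∀ i, (h i).IsHomogeneous 1) (i : Fin 3) :
    algebraMap (MvPolynomial (Fin 3) F) (Tq h J) (X i) ∈ tgr h J 1 := by
  rw [algebraMap_Tq, aeval_X]
  exact ⟨h i, hh i, rfl⟩

/-- growth of `F[x] / J` -/
theorem gro_T (hGro : GML.Stmt_GRO) (hQgr : XB.Stmt_Qgr) {F : Type} [Field F]
    (h : Fin 3 → MvPolynomial (Fin (XV.N + 1)) F) (J : Ideal (MvPolynomial (Fin (XV.N + 1)) F))
    (hJ : ∀ G ∈ J, ∀ m, homogeneousComponent m G ∈ J) (hh : ∀ i, (h i).IsHomogeneous 1)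
    (hfin : Module.Finite (MvPolynomial (Fin 3) F) (Tq h J)) :
    ∃ C : ℕ, ∀ m : ℕ, |(Module.finrank F (qgr J m) : ℤ) -
      Module.finrank (MvPolynomial (Fin 3) F) (Tq h J) * ((m + 2).choose 2 : ℕ)| ≤
        C * ((m : ℤ) + 1) := by
  obtain ⟨hg⟩ := hQgr F J hJ
  let hg' : GradedAlgebra (tgr h J) := hg
  let M : GML.GMod F 3 := ofAlg (tgr h J) (tX h J hh)
  obtain ⟨-, -, C, hC⟩ := hGro F 1 M hfin
  refine ⟨C, fun m => ?_⟩
  have h1 := hC m
  rw [pow_one] at h1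
  have h2 : M.gr (m : ℤ) = tgr h J m := ext_natCast (𝒟 := tgr h J) m
  rw [h2] at h1
  exact h1

theorem sum_choose (m : ℕ) : ∑ k ∈ Finset.range (m + 1), (k + 2).choose 2 = (m + 3).choose 3 := by
  induction m with
  | zero => rfl
  | succ m ih =>
    rw [Finset.sum_range_succ, ih, Nat.choose_succ_succ' (m + 3) 2, add_comm]

theorem six_choose (m : ℕ) : m ^ 3 ≤ 6 * (m + 3).choose 3 := by
  have h1 : ∀ m : ℕ, 6 * (m + 3).choose 3 = (m + 1) * (m + 2) * (m + 3) := by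
    intro m
    induction m with
    | zero => rfl
    | succ m ih =>
      have h2 : 2 * (m + 3).choose 2 = (m + 3) * (m + 2) := by
        have := Nat.choose_two_right (m + 3)
        rw [this]
        have h3 : 2 ∣ (m + 3) * (m + 3 - 1) := (Nat.even_mul_pred_self (m + 3)).two_dvd
        rw [Nat.mul_div_cancel' h3]
        rfl
      rw [show m + 1 + 3 = (m + 3) + 1 by ring, Nat.choose_succ_succ' (m + 3) 2, mul_add, ih]
      nlinarith
  rw [h1]
  nlinarith [Nat.zero_le (m ^ 2), Nat.zero_le m]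

/-- a cubic inequality gives an inequality of the leading coefficients -/
theorem lead_le {u v A : ℤ} (hA : 0 ≤ A) (hv : 0 ≤ v)
    (h : ∀ m : ℕ, u * (m : ℤ) ^ 3 ≤ v * ((m : ℤ) + 11) ^ 3 + A * ((m : ℤ) + 12) ^ 2) : u ≤ v := by
  by_contra hn
  push Not at hn
  have h1 : v + 1 ≤ u := hn
  obtain ⟨m, hm⟩ : ∃ m : ℕ, v * 2000 + A * 200 < m := by
    exact ⟨(v * 2000 + A * 200).toNat + 1, by
      have := Int.self_le_toNat (v * 2000 + A * 200)
      push_cast
      omega⟩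
  have hm1 : (1 : ℤ) ≤ m := by nlinarith
  have h2 := h m
  have h3 : (v + 1) * (m : ℤ) ^ 3 ≤ u * (m : ℤ) ^ 3 :=
    mul_le_mul_of_nonneg_right h1 (by positivity)
  have e1 : ((m : ℤ) + 11) ^ 3 ≤ (m : ℤ) ^ 3 + 2000 * (m : ℤ) ^ 2 := by
    have : ((m : ℤ) + 11) ^ 3 = (m : ℤ) ^ 3 + (33 * (m : ℤ) ^ 2 + 363 * m + 1331) := by ring
    rw [this]
    nlinarith
  have e2 : ((m : ℤ) + 12) ^ 2 ≤ 200 * (m : ℤ) ^ 2 := by nlinarith
  have e3 : v * ((m : ℤ) + 11) ^ 3 ≤ v * ((m : ℤ) ^ 3 + 2000 * (m : ℤ) ^ 2) :=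
    mul_le_mul_of_nonneg_left e1 hv
  have e4 : A * ((m : ℤ) + 12) ^ 2 ≤ A * (200 * (m : ℤ) ^ 2) := mul_le_mul_of_nonneg_left e2 hA
  have e5 : (v * 2000 + A * 200) * (m : ℤ) ^ 2 < m * (m : ℤ) ^ 2 :=
    mul_lt_mul_of_pos_right hm (by positivity)
  nlinarith

theorem num (hGro : GML.Stmt_GRO) (hQgr : XB.Stmt_Qgr) (hPri : XV.Stmt_Pri) (hHix : XB.Stmt_Hix)
    (hVgt : XB.Stmt_Vgt) (F : Type) [Field F] [IsAlgClosed F]
    (h : Fin 3 → MvPolynomial (Fin (XV.N + 1)) F) (hh : ∀ i, (h i).IsHomogeneous 1)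
    (hfin : Module.Finite (MvPolynomial (Fin 3) F) (Tq h (JI F none))) :
    ∃ v C : ℕ, (∀ m : ℕ, |6 * (Module.finrank F (qgr (XV.I F) m) : ℤ) - v * (m : ℤ) ^ 3| ≤
      C * ((m : ℤ) + 1) ^ 2) ∧
      12 * Module.finrank (MvPolynomial (Fin 3) F) (Tq h (JI F none)) ≤ v := by
  obtain ⟨v, C, hv⟩ := hHix F
  obtain ⟨C₁, hC₁⟩ := gro_T hGro hQgr h (JI F none) (JI_hom hPri F none) hh hfin
  refine ⟨v, C, hv, ?_⟩
  set d := Module.finrank (MvPolynomial (Fin 3) F) (Tq h (JI F none)) with hd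
  have key : (12 * d : ℤ) ≤ v := by
    apply lead_le (A := C + 72 * C₁) (by positivity) (by positivity)
    intro m
    have h1 := hVgt F m
    have h2 : (12 * ∑ k ∈ Finset.range (m + 1), (Module.finrank F (qgr (JI F none) k) : ℤ)) ≤
        Module.finrank F (qgr (XV.I F) (m + 11)) := by
      exact_mod_cast h1
    have h3 : ∑ k ∈ Finset.range (m + 1), ((d : ℤ) * ((k + 2).choose 2 : ℕ) - C₁ * ((m : ℤ) + 1)) ≤
        ∑ k ∈ Finset.range (m + 1), (Module.finrank F (qgr (JI F none) k) : ℤ) := by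
      apply Finset.sum_le_sum
      intro k hk
      have h4 := (abs_le.1 (hC₁ k)).1
      have h5 : (k : ℤ) ≤ m := by
        have := Finset.mem_range.1 hk
        omega
      have h6 : (C₁ : ℤ) * ((k : ℤ) + 1) ≤ C₁ * ((m : ℤ) + 1) :=
        mul_le_mul_of_nonneg_left (by linarith) (by positivity)
      linarith
    rw [Finset.sum_sub_distrib, ← Finset.mul_sum, Finset.sum_const, Finset.card_range,
      nsmul_eq_mul] at h3
    have h7 : ∑ k ∈ Finset.range (m + 1), (((k + 2).choose 2 : ℕ) : ℤ) =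
        (((m + 3).choose 3 : ℕ) : ℤ) := by
      exact_mod_cast sum_choose m
    rw [h7] at h3
    have h8 : (m : ℤ) ^ 3 ≤ 6 * (((m + 3).choose 3 : ℕ) : ℤ) := by exact_mod_cast six_choose m
    have h9 := (abs_le.1 (hv (m + 11))).2
    push_cast at h9 h3
    have h10 : (d : ℤ) * (m : ℤ) ^ 3 ≤ d * (6 * (((m + 3).choose 3 : ℕ) : ℤ)) :=
      mul_le_mul_of_nonneg_left h8 (by positivity)
    have h11 : (C₁ : ℤ) * (((m : ℤ) + 1) * ((m : ℤ) + 1)) ≤ C₁ * ((m : ℤ) + 12) ^ 2 :=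
      mul_le_mul_of_nonneg_left (by nlinarith) (by positivity)
    have h12 : (C : ℤ) * ((m : ℤ) + 11 + 1) ^ 2 = C * ((m : ℤ) + 12) ^ 2 := by ring
    nlinarith
  exact_mod_cast key

end num

end Pool.Agent.DIL
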