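import Pool.Agent.DIL.RkStmts

/-!
# RTI: ranks of modules which are isomorphic up to torsion
-/

set_option autoImplicit false

namespace Pool.Agent.DIL

theorem rti_proof : Stmt_RTI := by
  intro H M N _ _ _ _ _ _ _ _ f hker hcok
  classical
  have h1 : Module.rank H (LinearMap.range f) = Module.rank H N := by
    have h2 : Module.rank H (N ⧸ LinearMap.range f) + Module.rank H (LinearMap.range f) =
        Module.rank H N := Submodule.rank_quotient_add_rank _
    have h3 : Module.rank H (N ⧸ LinearMap.range f) = 0 := by
      rw [rank_eq_zero_iff]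
      intro x
      obtain ⟨y, rfl⟩ := Submodule.Quotient.mk_surjective _ x
      obtain ⟨a, ha, z, hz⟩ := hcok y
      refine ⟨a, ha, ?_⟩
      rw [← Submodule.Quotient.mk_smul, Submodule.Quotient.mk_eq_zero, hz]
      exact ⟨z, rfl⟩
    rw [← h2, h3, zero_add]
  have h4 : Module.rank H (LinearMap.range f) + Module.rank H (LinearMap.ker f) =
      Module.rank H M := LinearMap.rank_range_add_rank_ker f
  have h5 : Module.rank H (LinearMap.ker f) = 0 := by
    rw [rank_eq_zero_iff]
    rintro ⟨x, hx⟩
    obtain ⟨a, ha, hax⟩ := hker x hx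
    refine ⟨a, ha, ?_⟩
    ext
    simpa using hax
  rw [h5, add_zero] at h4
  unfold Module.finrank
  rw [← h4, h1]

end Pool.Agent.DIL
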