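import Pool.Agent.DIL.Gr

/-!
# Reduction modulo a uniformiser of a graded algebra (MP_db3ab1_ag, DIL)
-/

set_option autoImplicit false

open MvPolynomial

namespace Pool.Agent.DIL

noncomputable section

/-- `σ : V → κ` is surjective with kernel `(ϖ)` -/
structure Res {V κ : Type} [CommRing V] [Field κ] (σ : V →+* κ) (ϖ : V) : Prop where
  surj : Function.Surjective σ
  ker : RingHom.ker σ = Ideal.span {ϖ}

variable {V κ : Type} [CommRing V] [Field κ] {σ : V →+* κ} {ϖ : V} (hr : Res σ ϖ)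
  (D : Type) [CommRing D] [Algebra V D]

/-- the quotient `D / ϖ D`, with its structure of an algebra over `κ = V / ϖ V` -/
def Wq {V κ : Type} [CommRing V] [Field κ] {σ : V →+* κ} {ϖ : V} (_hr : Res σ ϖ)
    (D : Type) [CommRing D] [Algebra V D] : Type := D ⧸ Ideal.span {algebraMap V D ϖ}

instance : CommRing (Wq hr D) :=
  inferInstanceAs (CommRing (D ⧸ Ideal.span {algebraMap V D ϖ}))

/-- the projection -/
def mk : D →+* Wq hr D := Ideal.Quotient.mk (Ideal.span {algebraMap V D ϖ})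

variable {D}

theorem mk_surj : Function.Surjective (mk hr D) := Ideal.Quotient.mk_surjective

theorem mk_eq_zero (x : D) : mk hr D x = 0 ↔ ∃ y : D, x = ϖ • y := by
  have h1 : mk hr D x = 0 ↔ x ∈ Ideal.span {algebraMap V D ϖ} := Ideal.Quotient.eq_zero_iff_mem
  rw [h1, Ideal.mem_span_singleton]
  constructor
  · rintro ⟨y, rfl⟩
    exact ⟨y, by rw [Algebra.smul_def]⟩
  · rintro ⟨y, rfl⟩
    exact ⟨y, by rw [Algebra.smul_def]⟩

theorem mk_eq_iff (x x' : D) : mk hr D x = mk hr D x' ↔ ∃ y : D, x = x' + ϖ • y := by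
  rw [← sub_eq_zero, ← map_sub, mk_eq_zero]
  constructor
  · rintro ⟨y, hy⟩
    exact ⟨y, by rw [← hy]; ring⟩
  · rintro ⟨y, hy⟩
    exact ⟨y, by rw [hy]; ring⟩

variable (D)

/-- the structure map of the reduction -/
def kmap : κ →+* Wq hr D :=
  RingHom.liftOfSurjective σ hr.surj ⟨(mk hr D).comp (algebraMap V D), by
    intro v hv
    rw [hr.ker, Ideal.mem_span_singleton] at hv
    obtain ⟨w, rfl⟩ := hv
    rw [RingHom.mem_ker, RingHom.comp_apply, mk_eq_zero]
    exact ⟨algebraMap V D w, by rw [Algebra.smul_def, map_mul]⟩⟩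

theorem kmap_apply (v : V) : kmap hr D (σ v) = mk hr D (algebraMap V D v) :=
  RingHom.liftOfRightInverse_comp_apply _ _ _ _ _

instance : Algebra κ (Wq hr D) := (kmap hr D).toAlgebra

variable {r : ℕ} [Algebra (MvPolynomial (Fin r) V) D] [IsScalarTower V (MvPolynomial (Fin r) V) D]

/-- the structure map over the polynomial ring -/
def pmap (r : ℕ) [Algebra (MvPolynomial (Fin r) V) D] : MvPolynomial (Fin r) κ →ₐ[κ] Wq hr D :=
  aeval fun i => mk hr D (algebraMap (MvPolynomial (Fin r) V) D (X i))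

instance : Algebra (MvPolynomial (Fin r) κ) (Wq hr D) := (pmap hr D r).toRingHom.toAlgebra

instance : IsScalarTower κ (MvPolynomial (Fin r) κ) (Wq hr D) :=
  IsScalarTower.of_algebraMap_eq fun x => ((pmap hr D r).commutes x).symm

theorem algebraMap_map (p : MvPolynomial (Fin r) V) :
    algebraMap (MvPolynomial (Fin r) κ) (Wq hr D) (MvPolynomial.map σ p) =
      mk hr D (algebraMap (MvPolynomial (Fin r) V) D p) := by
  show pmap hr D r (MvPolynomial.map σ p) = _
  induction p using MvPolynomial.induction_on with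
  | C a =>
    rw [map_C]
    have h1 : (C (σ a) : MvPolynomial (Fin r) κ) = algebraMap κ (MvPolynomial (Fin r) κ) (σ a) :=
      rfl
    have h2 : (C a : MvPolynomial (Fin r) V) = algebraMap V (MvPolynomial (Fin r) V) a := rfl
    rw [h1, AlgHom.commutes, h2, ← IsScalarTower.algebraMap_apply V (MvPolynomial (Fin r) V) D]
    exact kmap_apply hr D a
  | add p q hp hq => rw [map_add, map_add, map_add, map_add, hp, hq]
  | mul_X p i hp =>
    rw [map_mul, map_mul, map_mul, map_mul, hp, map_X]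
    congr 1
    show aeval _ (X i) = _
    rw [aeval_X]

theorem mk_smul (p : MvPolynomial (Fin r) V) (x : D) :
    mk hr D (p • x) = MvPolynomial.map σ p • mk hr D x := by
  rw [Algebra.smul_def, Algebra.smul_def, map_mul, algebraMap_map]

omit [Algebra (MvPolynomial (Fin r) V) D] [IsScalarTower V (MvPolynomial (Fin r) V) D] in
theorem mk_vsmul (v : V) (x : D) : mk hr D (v • x) = σ v • mk hr D x := by
  rw [Algebra.smul_def, Algebra.smul_def, map_mul]
  congr 1
  exact (kmap_apply hr D v).symm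

variable {D} (𝒟 : ℕ → Submodule V D)

/-- the induced grading of the reduction -/
def wgr (n : ℕ) : Submodule κ (Wq hr D) where
  carrier := {w | ∃ x ∈ 𝒟 n, mk hr D x = w}
  add_mem' := by
    rintro _ _ ⟨x, hx, rfl⟩ ⟨y, hy, rfl⟩
    exact ⟨x + y, Submodule.add_mem _ hx hy, map_add _ _ _⟩
  zero_mem' := ⟨0, Submodule.zero_mem _, map_zero _⟩
  smul_mem' := by
    rintro c _ ⟨x, hx, rfl⟩
    obtain ⟨v, rfl⟩ := hr.surj c
    exact ⟨v • x, Submodule.smul_mem _ _ hx, mk_vsmul hr D v x⟩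

variable [GradedAlgebra 𝒟]

omit [Algebra (MvPolynomial (Fin r) V) D] [IsScalarTower V (MvPolynomial (Fin r) V) D] in
theorem mk_cp (n : ℕ) {x x' : D} (h : mk hr D x = mk hr D x') :
    mk hr D (cp 𝒟 n x) = mk hr D (cp 𝒟 n x') := by
  rw [mk_eq_iff] at h ⊢
  obtain ⟨y, hy⟩ := h
  exact ⟨cp 𝒟 n y, by rw [hy, map_add, map_smul]⟩

/-- the projections of the reduction -/
def wproj (n : ℕ) : Wq hr D →+ Wq hr D where
  toFun w := mk hr D (cp 𝒟 n (Function.surjInv (mk_surj hr) w))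
  map_zero' := by
    have h1 : mk hr D (Function.surjInv (mk_surj hr) (0 : Wq hr D)) = mk hr D 0 := by
      rw [Function.surjInv_eq (mk_surj hr), map_zero]
    rw [mk_cp hr 𝒟 n h1, map_zero, map_zero]
  map_add' w w' := by
    have h1 : mk hr D (Function.surjInv (mk_surj hr) (w + w')) =
        mk hr D (Function.surjInv (mk_surj hr) w + Function.surjInv (mk_surj hr) w') := by
      rw [Function.surjInv_eq (mk_surj hr), map_add, Function.surjInv_eq (mk_surj hr),
        Function.surjInv_eq (mk_surj hr)]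
    rw [mk_cp hr 𝒟 n h1, map_add, map_add]

theorem wproj_mk (n : ℕ) (x : D) : wproj hr 𝒟 n (mk hr D x) = mk hr D (cp 𝒟 n x) :=
  mk_cp hr 𝒟 n (Function.surjInv_eq (mk_surj hr) (mk hr D x))

theorem wgr_internal : DirectSum.IsInternal (wgr hr 𝒟) := by
  refine isInternal_of_proj (wgr hr 𝒟) (wproj hr 𝒟) ?_ ?_ ?_ ?_
  · intro i w
    obtain ⟨x, rfl⟩ := mk_surj hr w
    rw [wproj_mk]
    exact ⟨_, cp_mem 𝒟 i x, rfl⟩
  · rintro i _ ⟨x, hx, rfl⟩
    rw [wproj_mk, cp_self hx]
  · rintro i j _ ⟨x, hx, rfl⟩ hij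
    rw [wproj_mk, cp_ne hx hij.symm, map_zero]
  · intro w
    obtain ⟨x, rfl⟩ := mk_surj hr w
    obtain ⟨s, hs⟩ := cp_sum (ℬ := 𝒟) x
    refine ⟨s, ?_⟩
    conv_lhs => rw [hs, map_sum]
    exact Finset.sum_congr rfl fun i _ => (wproj_mk hr 𝒟 i x).symm

instance : GradedAlgebra (wgr hr 𝒟) :=
  { (wgr_internal hr 𝒟).chooseDecomposition with
    one_mem := ⟨1, SetLike.one_mem_graded 𝒟, map_one _⟩
    mul_mem := by
      rintro i j _ _ ⟨x, hx, rfl⟩ ⟨y, hy, rfl⟩
      exact ⟨x * y, SetLike.mul_mem_graded hx hy, map_mul _ _ _⟩ }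

omit [GradedAlgebra 𝒟] in
theorem wX (hX : ∀ i, algebraMap (MvPolynomial (Fin r) V) D (X i) ∈ 𝒟 1) (i : Fin r) :
    algebraMap (MvPolynomial (Fin r) κ) (Wq hr D) (X i) ∈ wgr hr 𝒟 1 := by
  refine ⟨_, hX i, ?_⟩
  rw [← algebraMap_map, map_X]

/-- **the reduction**, as a graded module over `κ[X]` -/
@[reducible]
def wmod (hX : ∀ i, algebraMap (MvPolynomial (Fin r) V) D (X i) ∈ 𝒟 1) : GML.GMod κ r :=
  ofAlg (wgr hr 𝒟) (wX hr 𝒟 hX)

/-- the reduction map of graded modules -/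
def red (hX : ∀ i, algebraMap (MvPolynomial (Fin r) V) D (X i) ∈ 𝒟 1) :
    GML.Red σ ϖ (ofAlg 𝒟 hX) (wmod hr 𝒟 hX) where
  surjσ := hr.surj
  kerσ := hr.ker
  q := (mk hr D).toAddMonoidHom
  smul := fun p x => mk_smul hr D p x
  deg := by
    intro n x hx
    rcases mem_ext.1 hx with ⟨m, rfl, hm⟩ | rfl
    · exact mem_ext.2 (Or.inl ⟨m, rfl, x, hm, rfl⟩)
    · exact mem_ext.2 (Or.inr (map_zero _))
  surj := mk_surj hr
  ker := mk_eq_zero hr

end

end Pool.Agent.DIL
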