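import Mathlib

/-!
# Ranks (MP_db3ab1_ag, DIL): statements
-/

set_option autoImplicit false

namespace Pool.Agent.DIL

/-- LBS: a torsion free module `M` of rank `n` over a noetherian domain `R` has a basis near a
prime `P` such that the localisation `R_P` is a discrete valuation ring (`P R_P` is generated by
`e`). -/
def Stmt_LBS : Prop :=
  ∀ (R M : Type) [CommRing R] [IsDomain R] [IsNoetherianRing R] [AddCommGroup M] [Module R M]
    [Module.Finite R M] (P : Ideal R) [P.IsPrime] (e : R), e ∈ P → e ≠ 0 →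
    (∀ x ∈ P, ∃ s : R, s ∉ P ∧ e ∣ s * x) →
    (∀ (r : R) (m : M), r ≠ 0 → r • m = 0 → m = 0) →
    ∀ (n : ℕ) (b : Fin n → M) (r : R), r ≠ 0 → LinearIndependent R b →
      (∀ m : M, r • m ∈ Submodule.span R (Set.range b)) →
      ∃ b' : Fin n → M, LinearIndependent R b' ∧ ∃ s : R, s ∉ P ∧
        ∀ m : M, s • m ∈ Submodule.span R (Set.range b')

/-- RTI: modules with a homomorphism with torsion kernel and cokernel have the same rank. -/
def Stmt_RTI : Prop :=
  ∀ (H M N : Type) [CommRing H] [IsDomain H] [AddCommGroup M] [Module H M] [AddCommGroup N]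
    [Module H N] [Module.Finite H M] [Module.Finite H N] (f : M →ₗ[H] N),
    (∀ x, f x = 0 → ∃ h : H, h ≠ 0 ∧ h • x = 0) →
    (∀ y, ∃ h : H, h ≠ 0 ∧ ∃ x, h • y = f x) → Module.finrank H M = Module.finrank H N

end Pool.Agent.DIL
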