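import Pool.Agent.DIL.Dil
import Pool.Agent.DIL.RkStmts

/-!
# Ranks of the steps of the balanced filtration (MP_db3ab1_ag, DIL): statement
-/

set_option autoImplicit false

noncomputable section

namespace Pool.Agent.DIL

open MvPolynomial

/-- FJR: multiplication by `(f q / ϖ) ^ j` is an isomorphism `F 0 → F j / F (j - 1)` up to torsion
over `κ[h]`, for one chart `x q` such that `x q` divides a nonzero polynomial in `h` modulo `I`
(uses RTI). -/
def Stmt_FJR : Prop :=
  ∀ (V κ : Type) [CommRing V] [Field κ] (σ : V →+* κ) (ϖ : V) (hr : Res σ ϖ) (B : Type)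
    [CommRing B] [Algebra V B] (ℬ : ℕ → Submodule V B) [GradedAlgebra ℬ] (S : Subalgebra V B)
    (I : Ideal S) (h : Fin 3 → S) (a b c : ℕ) (γ : Fin 3 → S) (Q : Type) (x f : Q → S)
    (X : In hr ℬ S I h a b c γ x f) (q : Q) (R : MvPolynomial (Fin 3) V),
    MvPolynomial.map σ R ≠ 0 → aeval h R ∈ Ideal.span {x q} ⊔ I →
    ∀ j, Module.finrank (MvPolynomial (Fin 3) κ) (Fj X j) =
      (j + 1) * Module.finrank (MvPolynomial (Fin 3) κ) (Fj X 0)

end Pool.Agent.DIL
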