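import Pool.Agent.DIL.RkDefs
import Pool.Agent.DIL.Num
import Pool.Agent.DIL.LBS
import Pool.Agent.DIL.RTI
import Pool.Agent.DIL.RkStmtsB

set_option autoImplicit false

noncomputable section

namespace Pool.Agent.DIL

open scoped Classical
open MvPolynomial Pool.Agent.FRM Pool.Agent.XV Pool.Agent.GML Pool.Agent.XB

section pow

variable {H T T' : Type} [CommRing H] [IsDomain H] [AddCommGroup T] [Module H T]
  [AddCommGroup T'] [Module H T']

theorem rank_prod_dom : Module.rank H (T × T') = Module.rank H T + Module.rank H T' := by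
  have h1 := LinearMap.rank_range_add_rank_ker (LinearMap.fst H T T')
  rw [LinearMap.ker_fst, LinearMap.range_eq_top.2 LinearMap.fst_surjective, rank_top,
    rank_range_of_injective _ LinearMap.inr_injective] at h1
  exact h1.symm

theorem rank_pow_dom (n : ℕ) : Module.rank H (Fin n → T) = n * Module.rank H T := by
  induction n with
  | zero =>
    rw [rank_subsingleton']
    simp
  | succ n ih =>
    have h1 := (Fin.consLinearEquiv H (fun _ : Fin (n + 1) => T)).rank_eq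
    rw [← h1]
    have h2 : Module.rank H (T × ((i : Fin n) → (fun _ : Fin (n + 1) => T) (Fin.succ i))) =
      Module.rank H T + Module.rank H (Fin n → T) := rank_prod_dom
    rw [h2, ih]
    push_cast
    ring

theorem finrank_pow_dom (n : ℕ) : Module.finrank H (Fin n → T) = n * Module.finrank H T := by
  unfold Module.finrank
  rw [rank_pow_dom, Cardinal.toNat_mul, Cardinal.toNat_natCast]

end pow

section bas

theorem exists_bas (hLBS : Stmt_LBS) {A S : Type} [CommRing A] [IsNoetherianRing A] [CommRing S]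
    (I : Ideal A) [I.IsPrime] (L : A →+* S) (m : Ideal S) (hker : ∀ a ∈ I, L a ∈ m)
    (hnz : ∀ a, a ∉ I → ∀ b : S, L a * b ∈ m → b ∈ m)
    (hfin : ∃ (d : ℕ) (g : Fin d → S), ∀ y, ∃ q : Fin d → A, y - ∑ i, L (q i) * g i ∈ m)
    (P : Ideal A) [P.IsPrime] (hIP : I ≤ P) (e : A) (heP : e ∈ P) (heI : e ∉ I)
    (hdvd : ∀ x ∈ P, ∃ s, s ∉ P ∧ ∃ b, s * x - b * e ∈ I) (n : ℕ) (b : Fin n → S) (r : A)
    (hr : r ∉ I) (hind : ∀ q : Fin n → A, ∑ i, L (q i) * b i ∈ m → ∀ i, q i ∈ I)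
    (hgen : ∀ y, ∃ q : Fin n → A, L r * y - ∑ i, L (q i) * b i ∈ m) :
    ∃ b' : Fin n → S, (∀ q : Fin n → A, ∑ i, L (q i) * b' i ∈ m → ∀ i, q i ∈ I) ∧
      ∃ s, s ∉ P ∧ ∀ y, ∃ q : Fin n → A, L s * y - ∑ i, L (q i) * b' i ∈ m := by
  let θ : A ⧸ I →+* S ⧸ m := Ideal.Quotient.lift I ((Ideal.Quotient.mk m).comp L) (by
    intro a ha
    exact Ideal.Quotient.eq_zero_iff_mem.2 (hker a ha))
  have hθ : ∀ a, θ (Ideal.Quotient.mk I a) = Ideal.Quotient.mk m (L a) := fun a => rfl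
  let _ : Algebra (A ⧸ I) (S ⧸ m) := θ.toAlgebra
  have hsm : ∀ (a : A) (y : S), (Ideal.Quotient.mk I a) • (Ideal.Quotient.mk m y) =
      Ideal.Quotient.mk m (L a * y) := by
    intro a y
    rw [Algebra.smul_def, map_mul]
    rfl
  have hsum : ∀ (d : ℕ) (g : Fin d → S) (q : Fin d → A),
      ∑ i, (Ideal.Quotient.mk I (q i)) • (Ideal.Quotient.mk m (g i)) =
        Ideal.Quotient.mk m (∑ i, L (q i) * g i) := by
    intro d g q
    rw [map_sum]
    exact Finset.sum_congr rfl fun i _ => hsm _ _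
  -- translation of independence and of spans
  have hspan : ∀ (d : ℕ) (g : Fin d → S) (y : S),
      Ideal.Quotient.mk m y ∈ Submodule.span (A ⧸ I) (Set.range fun i => Ideal.Quotient.mk m (g i)) ↔
        ∃ q : Fin d → A, y - ∑ i, L (q i) * g i ∈ m := by
    intro d g y
    rw [Submodule.mem_span_range_iff_exists_fun]
    constructor
    · rintro ⟨q', hq'⟩
      choose q hq using fun i => Ideal.Quotient.mk_surjective (q' i)
      refine ⟨q, ?_⟩
      rw [← Ideal.Quotient.eq, ← hsum, ← hq']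
      exact Finset.sum_congr rfl fun i _ => by rw [hq]
    · rintro ⟨q, hq⟩
      refine ⟨fun i => Ideal.Quotient.mk I (q i), ?_⟩
      rw [hsum]
      exact (Ideal.Quotient.eq.2 hq).symm
  have hli : ∀ (d : ℕ) (g : Fin d → S),
      LinearIndependent (A ⧸ I) (fun i => Ideal.Quotient.mk m (g i)) ↔
        ∀ q : Fin d → A, ∑ i, L (q i) * g i ∈ m → ∀ i, q i ∈ I := by
    intro d g
    rw [Fintype.linearIndependent_iff]
    constructor
    · intro h q hq i
      have h1 := h (fun i => Ideal.Quotient.mk I (q i)) (by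
        rw [hsum]
        exact Ideal.Quotient.eq_zero_iff_mem.2 hq) i
      exact Ideal.Quotient.eq_zero_iff_mem.1 h1
    · intro h q' hq' i
      choose q hq using fun i => Ideal.Quotient.mk_surjective (q' i)
      rw [← hq i]
      refine Ideal.Quotient.eq_zero_iff_mem.2 (h q ?_ i)
      rw [← Ideal.Quotient.eq_zero_iff_mem, ← hsum, ← hq']
      exact Finset.sum_congr rfl fun i _ => by rw [hq]
  have hmfin : Module.Finite (A ⧸ I) (S ⧸ m) := by
    obtain ⟨d, g, hg⟩ := hfin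
    refine ⟨⟨Finset.univ.image fun i => Ideal.Quotient.mk m (g i), ?_⟩⟩
    rw [Finset.coe_image, Finset.coe_univ, Set.image_univ, eq_top_iff]
    intro y' _
    obtain ⟨y, rfl⟩ := Ideal.Quotient.mk_surjective y'
    rw [hspan]
    exact hg y
  -- the prime
  have hker' : RingHom.ker (Ideal.Quotient.mk I) ≤ P := by
    rw [Ideal.mk_ker]
    exact hIP
  have hP' : (P.map (Ideal.Quotient.mk I)).IsPrime :=
    Ideal.map_isPrime_of_surjective Ideal.Quotient.mk_surjective hker'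
  have hmem : ∀ a, Ideal.Quotient.mk I a ∈ P.map (Ideal.Quotient.mk I) ↔ a ∈ P := by
    intro a
    rw [← Ideal.mem_comap, Ideal.comap_map_of_surjective _ Ideal.Quotient.mk_surjective]
    have : Ideal.comap (Ideal.Quotient.mk I) ⊥ ≤ P := hker'
    rw [sup_eq_left.2 this]
  obtain ⟨b'', hb1, s', hs', hb2⟩ := hLBS (A ⧸ I) (S ⧸ m) (P.map (Ideal.Quotient.mk I))
    (Ideal.Quotient.mk I e) ((hmem e).2 heP) (by
      rw [Ne, Ideal.Quotient.eq_zero_iff_mem]
      exact heI) (by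
      intro x' hx'
      obtain ⟨x, rfl⟩ := Ideal.Quotient.mk_surjective x'
      obtain ⟨s, hs, b, hb⟩ := hdvd x ((hmem x).1 hx')
      refine ⟨Ideal.Quotient.mk I s, fun h => hs ((hmem s).1 h), Ideal.Quotient.mk I b, ?_⟩
      rw [← map_mul, ← map_mul, Ideal.Quotient.eq, mul_comm e b]
      exact hb) (by
      intro a' y' ha' hy'
      obtain ⟨a, rfl⟩ := Ideal.Quotient.mk_surjective a'
      obtain ⟨y, rfl⟩ := Ideal.Quotient.mk_surjective y'
      rw [hsm, Ideal.Quotient.eq_zero_iff_mem] at hy'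
      rw [Ne, Ideal.Quotient.eq_zero_iff_mem] at ha'
      exact Ideal.Quotient.eq_zero_iff_mem.2 (hnz a ha' y hy'))
    n (fun i => Ideal.Quotient.mk m (b i)) (Ideal.Quotient.mk I r) (by
      rw [Ne, Ideal.Quotient.eq_zero_iff_mem]
      exact hr) ((hli n b).2 hind) (by
      intro y'
      obtain ⟨y, rfl⟩ := Ideal.Quotient.mk_surjective y'
      rw [hsm, hspan]
      exact hgen y)
  choose b' hb' using fun i => Ideal.Quotient.mk_surjective (b'' i)
  obtain ⟨s, rfl⟩ := Ideal.Quotient.mk_surjective s'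
  have hb'' : b'' = fun i => Ideal.Quotient.mk m (b' i) := funext fun i => (hb' i).symm
  rw [hb''] at hb1 hb2
  refine ⟨b', (hli n b').1 hb1, s, fun h => hs' ((hmem s).2 h), fun y => ?_⟩
  have h1 := hb2 (Ideal.Quotient.mk m y)
  rwa [hsm, hspan] at h1

end bas

section prime

variable {F : Type} [Field F] {g : Option (Fin 10)}

/-- the ideal of the divisor `e = 0` on the open set `f ≠ 0` -/
def PP (F : Type) [Field F] (e f : MvPolynomial (Fin (XV.N + 1)) F) :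
    Ideal (MvPolynomial (Fin (XV.N + 1)) F) where
  carrier := {r | ∃ m : ℕ, f ^ m * r ∈ Ideal.span {e} ⊔ XV.I F}
  add_mem' := by
    rintro r r' ⟨m, hm⟩ ⟨m', hm'⟩
    refine ⟨m + m', ?_⟩
    have h1 : f ^ (m + m') * (r + r') = f ^ m' * (f ^ m * r) + f ^ m * (f ^ m' * r') := by ring
    rw [h1]
    exact Ideal.add_mem _ (Ideal.mul_mem_left _ _ hm) (Ideal.mul_mem_left _ _ hm')
  zero_mem' := ⟨0, by rw [mul_zero]; exact Ideal.zero_mem _⟩
  smul_mem' := by
    rintro a r ⟨m, hm⟩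
    refine ⟨m, ?_⟩
    have h1 : f ^ m * (a • r) = a * (f ^ m * r) := by rw [smul_eq_mul]; ring
    rw [h1]
    exact Ideal.mul_mem_left _ _ hm

theorem mem_PP {e f r : MvPolynomial (Fin (XV.N + 1)) F} :
    r ∈ PP F e f ↔ ∃ m : ℕ, f ^ m * r ∈ Ideal.span {e} ⊔ XV.I F := Iff.rfl

theorem le_PP {e f : MvPolynomial (Fin (XV.N + 1)) F} : Ideal.span {e} ⊔ XV.I F ≤ PP F e f :=
  fun r hr => ⟨0, by rwa [pow_zero, one_mul]⟩

/-- what we need about the charts of the surface -/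
structure Sc (F : Type) [Field F] (g : Option (Fin 10))
    (h : Fin 3 → MvPolynomial (Fin (XV.N + 1)) F)
    (S : Finset (MvPolynomial (Fin (XV.N + 1)) F × MvPolynomial (Fin (XV.N + 1)) F)) : Prop where
  ne : S.Nonempty
  e_mem : ∀ s ∈ S, s.2 ∈ Jg F g
  e_nz : ∀ s ∈ S, s.2 ∉ XV.I F
  loc : ∀ s ∈ S, ∀ c, 0 < ordG g c → ∃ (n : ℕ) (b : MvPolynomial (Fin (XV.N + 1)) F),
    s.1 ^ n * xc F c - b * s.2 ∈ XV.I F
  cov : ∀ i, ∃ (n : ℕ) (β : MvPolynomial (Fin (XV.N + 1)) F × MvPolynomial (Fin (XV.N + 1)) F →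
    MvPolynomial (Fin (XV.N + 1)) F), h i ^ n - ∑ s ∈ S, β s * s.1 ∈ JI F g
  prime : ∀ s ∈ S, ∀ r r' : MvPolynomial (Fin (XV.N + 1)) F, r * r' ∈ Ideal.span {s.2} ⊔ XV.I F →
    (∃ n : ℕ, s.1 ^ n * r ∈ Ideal.span {s.2} ⊔ XV.I F) ∨
      ∃ n : ℕ, s.1 ^ n * r' ∈ Ideal.span {s.2} ⊔ XV.I F
  conn : ∀ s ∈ S, ∀ s' ∈ S, ∀ n m : ℕ, s.1 ^ n * s'.1 ^ m ∉ Ideal.span {s.2} ⊔ XV.I F
  dom : ∀ s ∈ S, ∀ q : MvPolynomial (Fin 3) F, q ≠ 0 → ∀ n : ℕ,
      s.1 ^ n * aeval h q ∉ Ideal.span {s.2} ⊔ XV.I F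
  fin : ∃ T : Finset (MvPolynomial (Fin (XV.N + 1)) F), ∀ G, ∃ q :
      MvPolynomial (Fin (XV.N + 1)) F → MvPolynomial (Fin 3) F,
      G - ∑ m ∈ T, aeval h (q m) * m ∈ JI F g

variable {h : Fin 3 → MvPolynomial (Fin (XV.N + 1)) F}
    {S : Finset (MvPolynomial (Fin (XV.N + 1)) F × MvPolynomial (Fin (XV.N + 1)) F)}
    (X : Sc F g h S)

include X

theorem Sc.JI_le {s : MvPolynomial (Fin (XV.N + 1)) F × MvPolynomial (Fin (XV.N + 1)) F}
    (hs : s ∈ S) : JI F g ≤ PP F s.2 s.1 := by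
  refine sup_le ?_ (le_sup_right.trans le_PP)
  rw [Jg, Ideal.span_le]
  rintro _ ⟨c, hc, rfl⟩
  obtain ⟨n, b, hb⟩ := X.loc s hs c hc
  refine ⟨n, ?_⟩
  have h1 : s.1 ^ n * xc F c = b * s.2 + (s.1 ^ n * xc F c - b * s.2) := by ring
  rw [h1]
  exact Ideal.add_mem _ (Ideal.mem_sup_left (Ideal.mul_mem_left _ _
    (Ideal.mem_span_singleton_self _))) (Ideal.mem_sup_right hb)

theorem Sc.isPrime {s : MvPolynomial (Fin (XV.N + 1)) F × MvPolynomial (Fin (XV.N + 1)) F}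
    (hs : s ∈ S) : (PP F s.2 s.1).IsPrime := by
  constructor
  · rw [Ideal.ne_top_iff_one]
    rintro ⟨m, hm⟩
    have h1 := X.conn s hs s hs m 0
    rw [pow_zero] at h1
    exact h1 hm
  · rintro r r' ⟨m, hm⟩
    rw [← mul_assoc] at hm
    rcases X.prime s hs _ _ hm with ⟨n, hn⟩ | ⟨n, hn⟩
    · left
      refine ⟨n + m, ?_⟩
      rw [pow_add, mul_assoc]
      exact hn
    · exact Or.inr ⟨n, hn⟩

theorem Sc.f_notMem {s s' : MvPolynomial (Fin (XV.N + 1)) F × MvPolynomial (Fin (XV.N + 1)) F}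
    (hs : s ∈ S) (hs' : s' ∈ S) : s'.1 ∉ PP F s.2 s.1 := by
  rintro ⟨m, hm⟩
  have h1 := X.conn s hs s' hs' m 1
  rw [pow_one] at h1
  exact h1 hm

theorem Sc.PP_le {s s' : MvPolynomial (Fin (XV.N + 1)) F × MvPolynomial (Fin (XV.N + 1)) F}
    (hs : s ∈ S) (hs' : s' ∈ S) : PP F s.2 s.1 ≤ PP F s'.2 s'.1 := by
  rintro r ⟨m, hm⟩
  have h1 := X.isPrime hs'
  have h2 : Ideal.span {s.2} ⊔ XV.I F ≤ PP F s'.2 s'.1 := by
    refine sup_le ?_ (le_sup_right.trans le_PP)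
    rw [Ideal.span_le, Set.singleton_subset_iff]
    exact X.JI_le hs' (Ideal.mem_sup_left (X.e_mem s hs))
  rcases h1.mem_or_mem (h2 hm) with h3 | h3
  · exact absurd (h1.mem_of_pow_mem m h3) (X.f_notMem hs' hs)
  · exact h3

/-- elements of the prime ideal are in `JI`, up to powers of the linear forms -/
theorem Sc.mem_JI {s : MvPolynomial (Fin (XV.N + 1)) F × MvPolynomial (Fin (XV.N + 1)) F}
    (hs : s ∈ S) {r : MvPolynomial (Fin (XV.N + 1)) F} (hr : r ∈ PP F s.2 s.1) (i : Fin 3) :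
    ∃ n : ℕ, h i ^ n * r ∈ JI F g := by
  set a : Ideal (MvPolynomial (Fin (XV.N + 1)) F) :=
    Submodule.comap (LinearMap.mulRight (MvPolynomial (Fin (XV.N + 1)) F) r) (JI F g) with ha
  have hmem : ∀ t, t ∈ a ↔ t * r ∈ JI F g := fun t => Iff.rfl
  have h1 : ∀ s' ∈ S, s'.1 ∈ a.radical := by
    intro s' hs'
    obtain ⟨m, hm⟩ := X.PP_le hs hs' hr
    refine ⟨m, ?_⟩
    rw [hmem]
    have h2 : Ideal.span {s'.2} ⊔ XV.I F ≤ JI F g := by
      refine sup_le ?_ le_sup_right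
      rw [Ideal.span_le, Set.singleton_subset_iff]
      exact Ideal.mem_sup_left (X.e_mem s' hs')
    exact h2 hm
  obtain ⟨n, β, hβ⟩ := X.cov i
  have h2 : h i ^ n ∈ a.radical := by
    have h3 : h i ^ n = ∑ s ∈ S, β s * s.1 + (h i ^ n - ∑ s ∈ S, β s * s.1) := by ring
    rw [h3]
    refine Ideal.add_mem _ (Ideal.sum_mem _ fun s' hs' => Ideal.mul_mem_left _ _ (h1 s' hs'))
      (Ideal.le_radical ?_)
    rw [hmem]
    exact Ideal.mul_mem_right _ _ hβ
  obtain ⟨m, hm⟩ := h2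
  refine ⟨n * m, ?_⟩
  rw [pow_mul]
  exact hm

theorem Sc.h_notMem {s : MvPolynomial (Fin (XV.N + 1)) F × MvPolynomial (Fin (XV.N + 1)) F}
    (hs : s ∈ S) {q : MvPolynomial (Fin 3) F} (hq : q ≠ 0) : aeval h q ∉ PP F s.2 s.1 := by
  rintro ⟨m, hm⟩
  exact X.dom s hs q hq m hm

/-- elements outside of the prime ideal divide nonzero polynomials in the linear forms -/
theorem Sc.exists_mult {s : MvPolynomial (Fin (XV.N + 1)) F × MvPolynomial (Fin (XV.N + 1)) F}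
    (hs : s ∈ S) {r : MvPolynomial (Fin (XV.N + 1)) F} (hr : r ∉ PP F s.2 s.1) :
    ∃ (u : MvPolynomial (Fin (XV.N + 1)) F) (q : MvPolynomial (Fin 3) F), q ≠ 0 ∧
      u * r - aeval h q ∈ JI F g := by
  set P := PP F s.2 s.1 with hP
  have hp : P.IsPrime := X.isPrime hs
  let θ : MvPolynomial (Fin 3) F →+* MvPolynomial (Fin (XV.N + 1)) F ⧸ P :=
    (Ideal.Quotient.mk P).comp (aeval h).toRingHom
  let _ : Algebra (MvPolynomial (Fin 3) F) (MvPolynomial (Fin (XV.N + 1)) F ⧸ P) := θ.toAlgebra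
  have hfin : Module.Finite (MvPolynomial (Fin 3) F) (MvPolynomial (Fin (XV.N + 1)) F ⧸ P) := by
    obtain ⟨T, hT⟩ := X.fin
    refine ⟨⟨T.image (Ideal.Quotient.mk P), ?_⟩⟩
    rw [eq_top_iff]
    intro y' _
    obtain ⟨y, rfl⟩ := Ideal.Quotient.mk_surjective y'
    obtain ⟨q, hq⟩ := hT y
    have h1 : Ideal.Quotient.mk P y = ∑ m ∈ T, q m • Ideal.Quotient.mk P m := by
      rw [← sub_eq_zero]
      have h2 := Ideal.Quotient.eq_zero_iff_mem.2 (X.JI_le hs hq)
      rw [map_sub, map_sum] at h2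
      rw [← h2]
      congr 1
    rw [h1]
    refine Submodule.sum_mem _ fun m hm => Submodule.smul_mem _ _ (Submodule.subset_span ?_)
    rw [Finset.coe_image]
    exact ⟨m, hm, rfl⟩
  have h1 : Ideal.Quotient.mk P r ≠ 0 := by
    rw [Ne, Ideal.Quotient.eq_zero_iff_mem]
    exact hr
  have h2 : (Ideal.span {Ideal.Quotient.mk P r}).comap
      (algebraMap (MvPolynomial (Fin 3) F) (MvPolynomial (Fin (XV.N + 1)) F ⧸ P)) ≠ ⊥ :=
    Ideal.comap_ne_bot_of_integral_mem h1 (Ideal.mem_span_singleton_self _)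
      (Algebra.IsIntegral.isIntegral _)
  obtain ⟨q, hq, hq0⟩ := Submodule.exists_mem_ne_zero_of_ne_bot h2
  rw [Ideal.mem_comap, Ideal.mem_span_singleton] at hq
  obtain ⟨u', hu'⟩ := hq
  obtain ⟨u, rfl⟩ := Ideal.Quotient.mk_surjective u'
  have h3 : u * r - aeval h q ∈ P := by
    rw [← Ideal.Quotient.eq, map_mul, mul_comm, ← hu']
    rfl
  obtain ⟨n, hn⟩ := X.mem_JI hs h3 0
  refine ⟨h 0 ^ n * u, MvPolynomial.X 0 ^ n * q, mul_ne_zero (pow_ne_zero _ (X_ne_zero _)) hq0, ?_⟩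
  rw [map_mul, map_pow, aeval_X]
  have h4 : h 0 ^ n * u * r - h 0 ^ n * aeval h q = h 0 ^ n * (u * r - aeval h q) := by ring
  rw [h4]
  exact hn

theorem Sc.finite : Module.Finite (MvPolynomial (Fin 3) F) (Tq h (JI F g)) := by
  obtain ⟨T, hT⟩ := X.fin
  refine ⟨⟨T.image (mkT h (JI F g)), ?_⟩⟩
  rw [eq_top_iff]
  intro y' _
  obtain ⟨y, rfl⟩ := mkT_surj h (JI F g) y'
  obtain ⟨q, hq⟩ := hT y
  have h1 : mkT h (JI F g) y = ∑ m ∈ T, q m • mkT h (JI F g) m := by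
    rw [← sub_eq_zero]
    have h2 := (mkT_eq_zero h (JI F g) _).2 hq
    rw [map_sub, map_sum] at h2
    rw [← h2]
    congr 1
  rw [h1]
  refine Submodule.sum_mem _ fun m hm => Submodule.smul_mem _ _ (Submodule.subset_span ?_)
  rw [Finset.coe_image]
  exact ⟨m, hm, rfl⟩

theorem Sc.finrank_pos : 0 < Module.finrank (MvPolynomial (Fin 3) F) (Tq h (JI F g)) := by
  have := X.finite
  rw [Nat.pos_iff_ne_zero]
  intro h0
  rw [Module.finrank_eq_zero_iff] at h0
  obtain ⟨a, ha, ha'⟩ := h0 1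
  obtain ⟨s, hs⟩ := X.ne
  apply X.h_notMem hs ha
  apply X.JI_le hs
  rw [Algebra.smul_def, mul_one, algebraMap_Tq, mkT_eq_zero] at ha'
  exact ha'

end prime

section rk

variable {V F : Type} [CommRing V] [Field F] {σ : V →+* F} {ϖ : V} {hr : Res σ ϖ} {B : Type}
  [CommRing B] [Algebra V B] {ℬ : ℕ → Submodule V B} [GradedAlgebra ℬ] {S : Subalgebra V B}
  {I : Ideal S} {h' : Fin 3 → S} {a b cc : ℕ} {γ : Fin 3 → S} {Q : Type} {x f : Q → S}
  (X : In hr ℬ S I h' a b cc γ x f) {c : F →+* V} (hc : ∀ v, σ (c v) = v)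
  {h : Fin 3 → MvPolynomial (Fin (XV.N + 1)) F} (L : MvPolynomial (Fin (XV.N + 1)) F →+* S)
  (hL : ∀ q : MvPolynomial (Fin 3) F, L (aeval h q) = aeval h' (MvPolynomial.map c q))
  {J : Ideal (MvPolynomial (Fin (XV.N + 1)) F)} (hJ : ∀ G ∈ J, L G ∈ I)

/-- the map `F[x] / J → D / ϖ D` -/
def thr : Tq h J →+* Wq hr (Dd X) :=
  Ideal.Quotient.lift J ((mk hr (Dd X)).comp ((ofS X).toRingHom.comp L)) fun G hG =>
    mk_ofS_of_mem X (hJ G hG)

theorem thr_mk (G : MvPolynomial (Fin (XV.N + 1)) F) :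
    thr X L hJ (mkT h J G) = mk hr (Dd X) (ofS X (L G)) := rfl

include hc in
theorem smul_mk_ofS (q : MvPolynomial (Fin 3) F) (s : S) :
    q • mk hr (Dd X) (ofS X s) = mk hr (Dd X) (ofS X (aeval h' (MvPolynomial.map c q) * s)) := by
  have h1 : q = MvPolynomial.map σ (MvPolynomial.map c q) := by
    rw [MvPolynomial.map_map]
    have : σ.comp c = RingHom.id F := RingHom.ext hc
    rw [this, MvPolynomial.map_id]
  conv_lhs => rw [h1]
  rw [← mk_smul, Algebra.smul_def, algebraMap_Dd, ← map_mul]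

/-- as a linear map over `F[h]` -/
def thl : Tq h J →ₗ[MvPolynomial (Fin 3) F] Wq hr (Dd X) where
  toFun := thr X L hJ
  map_add' := map_add _
  map_smul' := by
    intro q y'
    obtain ⟨y, rfl⟩ := mkT_surj h J y'
    rw [Algebra.smul_def, algebraMap_Tq, ← map_mul, thr_mk, thr_mk, map_mul, hL, RingHom.id_apply,
      smul_mk_ofS X hc]

/-- the map `(F[x] / J) ^ n → F 0` -/
def Phi {n : ℕ} (m : Fin n → S) :
    (Fin n → Tq h J) →ₗ[MvPolynomial (Fin 3) F] Fj X 0 :=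
  LinearMap.codRestrict (Fj X 0) (∑ k, (LinearMap.mulRight (MvPolynomial (Fin 3) F)
    (mk hr (Dd X) (ofS X (m k)))) ∘ₗ (thl X hc L hL hJ) ∘ₗ LinearMap.proj k) (by
    intro y'
    choose y hy using fun k => mkT_surj h J (y' k)
    refine ⟨ofS X (∑ k, L (y k) * m k), ?_, ?_⟩
    · rw [emb_ofS]
      exact mem_fil_zero.2 (∑ k, L (y k) * m k).2
    · rw [LinearMap.sum_apply, map_sum, map_sum]
      refine Finset.sum_congr rfl fun k _ => ?_
      rw [map_mul, map_mul, ← thr_mk X L hJ, hy]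
      rfl)

theorem Phi_mk {n : ℕ} (m : Fin n → S) (y : Fin n → MvPolynomial (Fin (XV.N + 1)) F) :
    (Phi X hc L hL hJ m (fun k => mkT h J (y k)) : Wq hr (Dd X)) =
      mk hr (Dd X) (ofS X (∑ k, L (y k) * m k)) := by
  show (∑ k, (LinearMap.mulRight (MvPolynomial (Fin 3) F)
    (mk hr (Dd X) (ofS X (m k)))) ∘ₗ (thl X hc L hL hJ) ∘ₗ LinearMap.proj k) _ = _
  rw [LinearMap.sum_apply, map_sum, map_sum]
  refine Finset.sum_congr rfl fun k _ => ?_
  rw [map_mul, map_mul]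
  rfl

include hc hL hJ in
/-- **The rank of the step `0` of the filtration.** -/
theorem finrank_F0 (hRTI : Stmt_RTI) {g : Option (Fin 10)}
    {S' : Finset (MvPolynomial (Fin (XV.N + 1)) F × MvPolynomial (Fin (XV.N + 1)) F)}
    (Y : Sc F g h S') (hJg : J = JI F g)
    {s : MvPolynomial (Fin (XV.N + 1)) F × MvPolynomial (Fin (XV.N + 1)) F} (hs : s ∈ S')
    (hloc : ∀ z ∈ I, ∃ m : ℕ, L s.1 ^ m * z ∈ Ideal.span {L s.2} ⊔ Ideal.span {algebraMap V S ϖ})
    {n : ℕ} (m : Fin n → S)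
    (hind : ∀ q : Fin n → MvPolynomial (Fin (XV.N + 1)) F,
      ∑ i, L (q i) * m i ∈ Ideal.span {algebraMap V S ϖ} → ∀ i, q i ∈ XV.I F)
    {s₀ : MvPolynomial (Fin (XV.N + 1)) F} (hs₀ : s₀ ∉ PP F s.2 s.1)
    (hgen : ∀ y, ∃ q : Fin n → MvPolynomial (Fin (XV.N + 1)) F,
      L s₀ * y - ∑ i, L (q i) * m i ∈ Ideal.span {algebraMap V S ϖ}) :
    Module.finrank (MvPolynomial (Fin 3) F) (Fj X 0) =
      n * Module.finrank (MvPolynomial (Fin 3) F) (Tq h J) := by
  subst hJg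
  have hp := Y.isPrime hs
  have hf1 : Module.Finite (MvPolynomial (Fin 3) F) (Tq h (JI F g)) := Y.finite
  have hf2 : Module.Finite (MvPolynomial (Fin 3) F) (Fj X 0) := Module.Finite.iff_fg.2 (Fj_fg X 0)
  have hh : ∀ i, L (h i) = h' i := by
    intro i
    have h1 := hL (MvPolynomial.X i)
    rwa [aeval_X, map_X, aeval_X] at h1
  rw [← finrank_pow_dom]
  symm
  refine hRTI _ _ _ (Phi X hc L hL hJ m) ?_ ?_
  · intro x' hx'
    choose q hq using fun k => mkT_surj h (JI F g) (x' k)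
    obtain rfl : x' = fun k => mkT h (JI F g) (q k) := funext fun k => (hq k).symm
    have h1 : mk hr (Dd X) (ofS X (∑ k, L (q k) * m k)) = 0 := by
      rw [← Phi_mk X hc L hL hJ m q, hx']
      rfl
    obtain ⟨N, hN⟩ := of_mk_ofS X 0 h1
    obtain ⟨M, hM⟩ := hloc _ hN
    obtain ⟨z₁, hz₁, z₂, hz₂, hz⟩ := Submodule.mem_sup.1 hM
    rw [Ideal.mem_span_singleton'] at hz₁
    obtain ⟨y, rfl⟩ := hz₁
    obtain ⟨p, hp'⟩ := hgen y
    have h2 : ∑ i, L (s₀ * s.1 ^ M * h 0 ^ N * q i - s.2 * p i) * m i ∈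
        Ideal.span {algebraMap V S ϖ} := by
      have h3 : ∑ i, L (s₀ * s.1 ^ M * h 0 ^ N * q i - s.2 * p i) * m i =
          L s₀ * (L s.1 ^ M * (h' 0 ^ N * ∑ k, L (q k) * m k)) - L s.2 * ∑ i, L (p i) * m i := by
        rw [Finset.mul_sum, Finset.mul_sum, Finset.mul_sum, Finset.mul_sum,
          ← Finset.sum_sub_distrib]
        refine Finset.sum_congr rfl fun i _ => ?_
        rw [map_sub, map_mul, map_mul, map_mul, map_mul, map_pow, map_pow, hh]
        ring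
      have h4 : L s₀ * (L s.1 ^ M * (h' 0 ^ N * ∑ k, L (q k) * m k)) -
          L s.2 * ∑ i, L (p i) * m i =
            L s.2 * (L s₀ * y - ∑ i, L (p i) * m i) + L s₀ * z₂ := by
        rw [← hz]
        ring
      rw [h3, h4]
      exact Ideal.add_mem _ (Ideal.mul_mem_left _ _ hp') (Ideal.mul_mem_left _ _ hz₂)
    have h3 : ∀ i, q i ∈ PP F s.2 s.1 := by
      intro i
      have h4 : s₀ * s.1 ^ M * h 0 ^ N * q i ∈ PP F s.2 s.1 := by
        have h5 : s₀ * s.1 ^ M * h 0 ^ N * q i = p i * s.2 +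
            (s₀ * s.1 ^ M * h 0 ^ N * q i - s.2 * p i) := by ring
        rw [h5]
        exact le_PP (Ideal.add_mem _ (Ideal.mem_sup_left (Ideal.mul_mem_left _ _
          (Ideal.mem_span_singleton_self _))) (Ideal.mem_sup_right (hind _ h2 i)))
      rcases hp.mem_or_mem h4 with h5 | h5
      · exfalso
        rcases hp.mem_or_mem h5 with h6 | h6
        · rcases hp.mem_or_mem h6 with h7 | h7
          · exact hs₀ h7
          · exact Y.f_notMem hs hs (hp.mem_of_pow_mem _ h7)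
        · have h7 := Y.h_notMem hs (q := MvPolynomial.X 0) (X_ne_zero _)
          rw [aeval_X] at h7
          exact h7 (hp.mem_of_pow_mem _ h6)
      · exact h5
    choose e he using fun i => Y.mem_JI hs (h3 i) 0
    refine ⟨MvPolynomial.X 0 ^ (∑ i, e i), pow_ne_zero _ (X_ne_zero _), ?_⟩
    funext k
    show (MvPolynomial.X 0 ^ (∑ i, e i) : MvPolynomial (Fin 3) F) • mkT h (JI F g) (q k) = 0
    rw [Algebra.smul_def, algebraMap_Tq, ← map_mul, mkT_eq_zero, map_pow, aeval_X,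
      ← Finset.sum_erase_add _ _ (Finset.mem_univ k), pow_add, mul_assoc]
    exact Ideal.mul_mem_left _ _ (he k)
  · rintro ⟨_, d, hd, rfl⟩
    rw [mem_fil_zero] at hd
    obtain ⟨y, rfl⟩ : ∃ y : S, d = ofS X y := ⟨⟨emb X d, hd⟩, emb_inj X rfl⟩
    obtain ⟨p, hp'⟩ := hgen y
    obtain ⟨u, r, hr0, hu⟩ := Y.exists_mult hs hs₀
    refine ⟨r, hr0, fun k => mkT h (JI F g) (u * p k), ?_⟩
    apply Subtype.ext
    rw [Phi_mk X hc L hL hJ m]
    show r • mk hr (Dd X) (ofS X y) = _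
    rw [smul_mk_ofS X hc, ← hL]
    have h1 : ∑ k, L (u * p k) * m k = L u * ∑ k, L (p k) * m k := by
      rw [Finset.mul_sum]
      refine Finset.sum_congr rfl fun i _ => ?_
      rw [map_mul]
      ring
    rw [h1]
    have h2 : L (aeval h r) * y - L u * ∑ k, L (p k) * m k ∈ I := by
      have h3 : L (aeval h r) * y - L u * ∑ k, L (p k) * m k =
          L u * (L s₀ * y - ∑ k, L (p k) * m k) - L (u * s₀ - aeval h r) * y := by
        rw [map_sub, map_mul]
        ring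
      rw [h3]
      refine Ideal.sub_mem _ (Ideal.mul_mem_left _ _ ?_) (Ideal.mul_mem_right _ _ (hJ _ hu))
      have h4 : Ideal.span {algebraMap V S ϖ} ≤ I := by
        rw [Ideal.span_le, Set.singleton_subset_iff]
        exact X.ϖ_mem
      exact h4 hp'
    rw [← sub_eq_zero, ← map_sub, ← map_sub]
    exact mk_ofS_of_mem X h2

end rk

end Pool.Agent.DIL
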