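import Pool.Agent.XB.StmtsB
import Pool.Agent.DIL.Surf

/-!
# The rank of the balanced filtration (MP_db3ab1_ag): definitions and statement
-/

set_option autoImplicit false

noncomputable section

namespace Pool.Agent.DIL

open scoped Classical
open MvPolynomial Pool.Agent.FRM Pool.Agent.XV Pool.Agent.GML Pool.Agent.XB

/-- the ring `F[x] / J` as an algebra over `F[h_0, h_1, h_2]` -/
def Tq {F : Type} [Field F] (_h : Fin 3 → MvPolynomial (Fin (XV.N + 1)) F)
    (J : Ideal (MvPolynomial (Fin (XV.N + 1)) F)) : Type := MvPolynomial (Fin (XV.N + 1)) F ⧸ J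

variable {F : Type} [Field F] (h : Fin 3 → MvPolynomial (Fin (XV.N + 1)) F)
  (J : Ideal (MvPolynomial (Fin (XV.N + 1)) F))

instance : CommRing (Tq h J) := inferInstanceAs (CommRing (MvPolynomial (Fin (XV.N + 1)) F ⧸ J))

instance : Algebra F (Tq h J) := inferInstanceAs (Algebra F (MvPolynomial (Fin (XV.N + 1)) F ⧸ J))

/-- the projection -/
def mkT : MvPolynomial (Fin (XV.N + 1)) F →ₐ[F] Tq h J := Ideal.Quotient.mkₐ F J

instance : Algebra (MvPolynomial (Fin 3) F) (Tq h J) :=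
  ((mkT h J).comp (aeval h)).toRingHom.toAlgebra

theorem algebraMap_Tq (q : MvPolynomial (Fin 3) F) :
    algebraMap (MvPolynomial (Fin 3) F) (Tq h J) q = mkT h J (aeval h q) := rfl

instance : IsScalarTower F (MvPolynomial (Fin 3) F) (Tq h J) :=
  IsScalarTower.of_algebraMap_eq fun v => by
    rw [algebraMap_Tq]
    exact (((mkT h J).comp (aeval h)).commutes v).symm

theorem mkT_surj : Function.Surjective (mkT h J) := Ideal.Quotient.mk_surjective

theorem mkT_eq_zero (G : MvPolynomial (Fin (XV.N + 1)) F) : mkT h J G = 0 ↔ G ∈ J :=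
  Ideal.Quotient.eq_zero_iff_mem

/-- **RNK**: the rank of the step `a - 1` of the filtration of the dilated tube. -/
def Stmt_Rnk : Prop :=
  ∀ (p : ℕ) (J : Type) (E : Eqs p XV.N J) (K : Type) [Field K] (V : ValuationSubring K)
    (F : Type) [Field F] [IsAlgClosed F] (c : F →+* V) (σ : V →+* F) (t ϖ : V)
    (P : Ideal (MvPolynomial (Fin (XV.N + 1)) K)) (z : Fin 4 → MvPolynomial (Fin (XV.N + 1)) V)
    (B : Type) [CommRing B] [Algebra K B] (φ : MvPolynomial (Fin (XV.N + 1)) K →ₐ[K] B)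
    (ℬ : ℕ → Submodule K B) [GradedAlgebra ℬ], SuB E V c σ t ϖ P z φ ℬ →
    ∀ (hr : DIL.Res σ ϖ) (_ : GradedAlgebra fun n => (ℬ n).restrictScalars V)
      (g : Option (Fin 10)) (h : Fin 3 → MvPolynomial (Fin (XV.N + 1)) F) (M : ℕ)
      (G : Fin 3 → MvPolynomial (Fin (XV.N + 1)) F)
      (S : Finset (MvPolynomial (Fin (XV.N + 1)) F × MvPolynomial (Fin (XV.N + 1)) F)),
    ChD F g h M G S → (∀ i, (h i).IsHomogeneous 1) →
    (∀ s ∈ S, ∃ π σ l, RayOf g π σ l ∧ s = (chf F π σ, che F π σ l)) →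
    (∀ j, ∃ n : ℕ, (X j : MvPolynomial (Fin (XV.N + 1)) F) ^ n ∈
      Ideal.span (Set.range h) ⊔ JI F g) →
    ∀ h' : Fin 3 → Sb V φ, (∀ i, (h' i : B) = lfb V φ c (h i)) →
    ∀ (cc : ℕ) (γ : Fin 3 → Sb V φ) (x f : S → Sb V φ),
      (∀ s : S, ((x s : B) = lfb V φ c s.1.1 ∧ (f s : B) = lfb V φ c s.1.2)) →
      ∀ X : DIL.In hr (fun n => (ℬ n).restrictScalars V) (Sb V φ) (Igb V φ ϖ g) h' (aG g) 1 cc
        γ x f,
    ∀ n b r, IsBas V c ϖ φ n b r →
      Module.Finite (MvPolynomial (Fin 3) F) (Tq h (JI F g)) ∧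
      0 < Module.finrank (MvPolynomial (Fin 3) F) (Tq h (JI F g)) ∧
      Module.finrank (MvPolynomial (Fin 3) F) (Fj X (aG g - 1)) =
        aG g * (n * Module.finrank (MvPolynomial (Fin 3) F) (Tq h (JI F g)))

end Pool.Agent.DIL
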